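import Pool.Agent.VOD.StA

/-!
# VOD, AEX: conditions `∀ ∃^m`
-/

set_option autoImplicit false
set_option linter.unusedVariables false

namespace Pool.Agent.VOD

open FirstOrder Set VPF
open FirstOrder.Language
open Pool.Agent.EAE (EAEA)

private theorem AEX_step {R : FirstOrder.Language.{0, 0}} (m : ℕ) : ∀ (w : List Bool)
    (φ : R.BoundedFormula Empty (m + 1)), Pre w φ →
    ∃ ψ : R.BoundedFormula Empty 1, Pre (List.replicate m false ++ w) ψ ∧
      ∀ (S : R.Structure ℕ) (v₁ : Fin 1 → ℕ),
        @BoundedFormula.Realize R ℕ S Empty 1 ψ default v₁ ↔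
          ∃ v : Fin (m + 1) → ℕ, v 0 = v₁ 0 ∧
            @BoundedFormula.Realize R ℕ S Empty (m + 1) φ default v := by
  induction m with
  | zero =>
    intro w φ hφ
    refine ⟨φ, by simpa using hφ, fun S v₁ => ?_⟩
    constructor
    · intro h
      exact ⟨v₁, rfl, h⟩
    · rintro ⟨v, hv, h⟩
      have e : v = v₁ := by
        funext i
        rw [Fin.fin_one_eq_zero i]
        exact hv
      rwa [e] at h
  | succ m ih =>
    intro w φ hφ
    obtain ⟨ψ, hψ, hr⟩ := ih (false :: w) φ.ex (Pre.ex hφ)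
    refine ⟨ψ, ?_, fun S v₁ => ?_⟩
    · rw [List.replicate_succ', List.append_assoc]
      exact hψ
    · let _ := S
      rw [hr S v₁]
      constructor
      · rintro ⟨v, hv, h⟩
        rw [BoundedFormula.realize_ex] at h
        obtain ⟨a, ha⟩ := h
        refine ⟨Fin.snoc v a, ?_, ha⟩
        rw [← hv]
        exact Fin.snoc_castSucc (α := fun _ => ℕ) a v 0
      · rintro ⟨v, hv, h⟩
        refine ⟨Fin.init v, hv, ?_⟩
        rw [BoundedFormula.realize_ex]
        refine ⟨v (Fin.last _), ?_⟩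
        rw [Fin.snoc_init_self]
        exact h

theorem thm_AEX : St_AEX := by
  intro R D C m Φ hD hQ hC S hS x
  obtain ⟨χ, hχ, hr⟩ := hQ
  obtain ⟨ψ, hψ, hr'⟩ := AEX_step m [] χ (Pre.qf hχ)
  rw [List.append_nil] at hψ
  have hpre : Pre (true :: List.replicate m false) ψ.all := Pre.all hψ
  have hreal : ∀ S : R.Structure ℕ, @Sentence.Realize R ℕ S ψ.all ↔
      ∀ x, ∃ v : Fin (m + 1) → ℕ, v 0 = x ∧ Φ S v := by
    intro S
    let _ := S
    have e : @Sentence.Realize R ℕ S ψ.all ↔
        @BoundedFormula.Realize R ℕ S Empty 0 ψ.all default default := by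
      unfold Sentence.Realize Formula.Realize
      refine iff_of_eq ?_
      congr 1 <;> exact Subsingleton.elim _ _
    rw [e, BoundedFormula.realize_all]
    refine forall_congr' fun x => ?_
    rw [hr' S]
    refine exists_congr fun v => ?_
    rw [hr S v]
    have e2 : (Fin.snoc (default : Fin 0 → ℕ) x : Fin 1 → ℕ) 0 = x :=
      Fin.snoc_last (α := fun _ => ℕ) x default
    rw [e2]
  have hmem : (ψ.all : R.Sentence) ∈ TC D C :=
    ⟨⟨_, hD, hpre⟩, fun S hS => (hreal S).2 (hC S hS)⟩
  have hmod : @Theory.Model R ℕ S (TC D C) := hS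
  exact (hreal S).1 (@Theory.realize_sentence_of_mem R ℕ S (TC D C) hmod _ hmem) x

end Pool.Agent.VOD
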