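import Pool.Agent.VOD.StB

/-!
# VOD, module CD4: models of the theory are code structures (binary functions)
-/

set_option autoImplicit false
set_option linter.unusedVariables false

namespace Pool.Agent.VOD

open FirstOrder Set VPF
open FirstOrder.Language

namespace CD4x

variable {L : FirstOrder.Language.{0, 0}}

/-- a variable -/
def tv {n : ℕ} (a : Fin n) : (L4 L).Term (Empty ⊕ Fin n) := Term.var (Sum.inr a)

/-- a unary function applied to a term -/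
def tf {n : ℕ} (k : Fin 3) (t : (L4 L).Term (Empty ⊕ Fin n)) : (L4 L).Term (Empty ⊕ Fin n) :=
  Term.func (Fn4.pr k : (L4 L).Functions 1) fun _ => t

/-- a binary function applied to the two variables -/
def tj (b : Bool) : (L4 L).Term (Empty ⊕ Fin 2) :=
  Term.func (Fn4.jn b : (L4 L).Functions 2) fun i => tv i

theorem qd_eq (hQDT : St_QDT) {n : ℕ} (t t' : (L4 L).Term (Empty ⊕ Fin n)) :
    QD (L4 L) n fun S v =>
      @Term.realize (L4 L) ℕ S _ (Sum.elim default v) t =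
        @Term.realize (L4 L) ℕ S _ (Sum.elim default v) t' :=
  (hQDT (L4 L) n).1 t t'

theorem qd_pp (hQDT : St_QDT) {n : ℕ} (i j k : Fin 3) (a b : Fin n) :
    QD (L4 L) n fun S v => pj (rd4 S) j (pj (rd4 S) i (v a)) = pj (rd4 S) k (v b) :=
  qd_eq hQDT (tf j (tf i (tv a))) (tf k (tv b))

theorem qd_pj (hQDT : St_QDT) {n : ℕ} (i j : Fin 3) (a b : Fin n) :
    QD (L4 L) n fun S v => pj (rd4 S) i (v a) = pj (rd4 S) j (v b) :=
  qd_eq hQDT (tf i (tv a)) (tf j (tv b))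

theorem qd_vv (hQDT : St_QDT) {n : ℕ} (a b : Fin n) :
    QD (L4 L) n fun S v => v a = v b :=
  qd_eq hQDT (tv a) (tv b)

theorem qd_jn (hQDT : St_QDT) (b : Bool) (i j : Fin 3) (a : Fin 2) :
    QD (L4 L) 2 fun S v => pj (rd4 S) i (S.funMap (Fn4.jn b : (L4 L).Functions 2) v) =
      pj (rd4 S) j (v a) :=
  qd_eq hQDT (tf i (tj b)) (tf j (tv a))

theorem qd_uu (hQDT : St_QDT) {n : ℕ} (θ : L.BoundedFormula Empty 3) (h : θ.IsQF) (a : Fin n) :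
    QD (L4 L) n fun S v => uu (rd4 S) θ h (v a) :=
  (hQDT (L4 L) n).2.1 1 (Rl3.u θ h : (L4 L).Relations 1) fun _ => tv a

theorem rd_cd (S : L.Structure ℕ) : rd4 (cd4 S) = cd S := by
  have h : @rf4 L (cd4 S) = @cf := by
    funext n f v
    cases f
    rfl
  unfold rd4 cd
  rw [h]
  rfl

theorem pj_cd (S : L.Structure ℕ) (k : Fin 3) (t : ℕ) :
    pj (rd4 (cd4 S)) k t = tri.symm fun _ => tri t k := rfl

/-- the properties of the binary functions -/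
def Jn (S : (L4 L).Structure ℕ) (v : Fin 2 → ℕ) : Prop :=
  (pj (rd4 S) 0 (S.funMap (Fn4.jn true : (L4 L).Functions 2) v) = pj (rd4 S) 0 (v 0) ∧
    pj (rd4 S) 1 (S.funMap (Fn4.jn true : (L4 L).Functions 2) v) = pj (rd4 S) 1 (v 0) ∧
    pj (rd4 S) 2 (S.funMap (Fn4.jn true : (L4 L).Functions 2) v) = pj (rd4 S) 0 (v 1)) ∧
  pj (rd4 S) 0 (S.funMap (Fn4.jn false : (L4 L).Functions 2) v) = pj (rd4 S) 0 (v 0) ∧
    pj (rd4 S) 1 (S.funMap (Fn4.jn false : (L4 L).Functions 2) v) = pj (rd4 S) 0 (v 1) ∧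
    pj (rd4 S) 2 (S.funMap (Fn4.jn false : (L4 L).Functions 2) v) = pj (rd4 S) 0 (v 1)

theorem jn_cd (S : L.Structure ℕ) (v : Fin 2 → ℕ) : Jn (cd4 S) v := by
  have e1 : (cd4 S).funMap (Fn4.jn true : (L4 L).Functions 2) v =
    tri.symm ![tri (v 0) 0, tri (v 0) 1, tri (v 1) 0] := rfl
  have e2 : (cd4 S).funMap (Fn4.jn false : (L4 L).Functions 2) v =
    tri.symm ![tri (v 0) 0, tri (v 1) 0, tri (v 1) 0] := rfl
  unfold Jn
  rw [e1, e2]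
  simp only [pj_cd, Equiv.apply_symm_apply]
  exact ⟨⟨rfl, rfl, rfl⟩, rfl, rfl, rfl⟩

theorem qd_Jn (hQDT : St_QDT) : QD (L4 L) 2 fun S v => Jn S v := by
  have q2 := hQDT (L4 L) 2
  exact q2.2.2.2.2.1 _ _
    (q2.2.2.2.2.1 _ _ (qd_jn hQDT true 0 0 0)
      (q2.2.2.2.2.1 _ _ (qd_jn hQDT true 1 1 0) (qd_jn hQDT true 2 0 1)))
    (q2.2.2.2.2.1 _ _ (qd_jn hQDT false 0 0 0)
      (q2.2.2.2.2.1 _ _ (qd_jn hQDT false 1 0 1) (qd_jn hQDT false 2 0 1)))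

end CD4x

open CD4x in
/-- **CD4**. -/
theorem thm_CD4 (hQDT : St_QDT) (hUNI : St_UNI) (hCDS : St_CDS) : St_CD4 := by
  intro L hF D hD1 hD2 K N hN
  have hC : ∀ S ∈ cd4 '' K, Cds (rd4 S) := by
    rintro _ ⟨S, -, rfl⟩
    rw [rd_cd]
    exact hCDS L hF S
  have hJ : ∀ S ∈ cd4 '' K, ∀ v, Jn S v := by
    rintro _ ⟨S, -, rfl⟩ v
    exact jn_cd S v
  have u1 : ∀ Φ : (L4 L).Structure ℕ → (Fin 1 → ℕ) → Prop, QD (L4 L) 1 Φ →
      (∀ S, Cds (rd4 S) → ∀ v, Φ S v) → ∀ v, Φ N v := fun Φ h1 h2 =>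
    hUNI (L4 L) D (cd4 '' K) 1 Φ hD1 h1 (fun S hS => h2 S (hC S hS)) N hN
  have u2 : ∀ Φ : (L4 L).Structure ℕ → (Fin 2 → ℕ) → Prop, QD (L4 L) 2 Φ →
      (∀ S, Cds (rd4 S) → ∀ v, Φ S v) → ∀ v, Φ N v := fun Φ h1 h2 =>
    hUNI (L4 L) D (cd4 '' K) 2 Φ hD2 h1 (fun S hS => h2 S (hC S hS)) N hN
  have hJN : ∀ v, Jn N v := hUNI (L4 L) D (cd4 '' K) 2 _ hD2 (qd_Jn hQDT) hJ N hN
  have q1 := hQDT (L4 L) 1
  have q2 := hQDT (L4 L) 2
  refine ⟨⟨?_, ?_, ?_, ?_, ?_, ?_, ?_, ?_⟩, fun s t => hJN ![s, t]⟩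
  · intro i j t
    exact u1 (fun S v => pj (rd4 S) j (pj (rd4 S) i (v 0)) = pj (rd4 S) i (v 0))
      (qd_pp hQDT i j i 0 0) (fun S hS v => hS.pp i j (v 0)) fun _ => t
  · intro s t
    exact u2 (fun S v => (∀ k, pj (rd4 S) k (v 0) = pj (rd4 S) k (v 1)) → v 0 = v 1)
      (q2.2.2.2.1 _ _ (q2.2.2.2.2.2.2.2 (Fin 3)
        (fun k S v => pj (rd4 S) k (v 0) = pj (rd4 S) k (v 1))
        fun k => qd_pj hQDT k k 0 1) (qd_vv hQDT 0 1))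
      (fun S hS v => hS.inj (v 0) (v 1)) ![s, t]
  · intro s z
    have h := (hJN ![s, z]).2
    exact ⟨_, h.1, h.2.1⟩
  · intro s z
    have h := (hJN ![s, z]).1
    exact ⟨_, h.1, h.2.1, h.2.2⟩
  · intro t
    exact u1 (fun S v => ¬ uu (rd4 S) ⊥ BoundedFormula.isQF_bot (v 0))
      (q1.2.2.2.2.2.2.1 _ (qd_uu hQDT _ _ 0)) (fun S hS v => hS.bot (v 0)) fun _ => t
  · intro θ θ' h h' h'' t
    exact u1 (fun S v => uu (rd4 S) (θ.imp θ') h'' (v 0) ↔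
        (uu (rd4 S) θ h (v 0) → uu (rd4 S) θ' h' (v 0)))
      (q1.2.2.2.2.2.1 _ _ (qd_uu hQDT _ _ 0) (q1.2.2.2.1 _ _ (qd_uu hQDT _ _ 0) (qd_uu hQDT _ _ 0)))
      (fun S hS v => hS.imp θ θ' h h' h'' (v 0)) fun _ => t
  · intro i j h t
    exact u1 (fun S v => uu (rd4 S) ((&i : L.Term (Empty ⊕ Fin 3)).bdEqual &j) h (v 0) ↔
        pj (rd4 S) i (v 0) = pj (rd4 S) j (v 0))
      (q1.2.2.2.2.2.1 _ _ (qd_uu hQDT _ _ 0) (qd_pj hQDT i j 0 0))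
      (fun S hS v => hS.eq i j h (v 0)) fun _ => t
  · intro n R ρ ρ' s t
    exact u2 (fun S v => (∀ k, pj (rd4 S) (ρ k) (v 1) = pj (rd4 S) (ρ' k) (v 0)) →
        (uu (rd4 S) (ao R ρ) (ao_qf R ρ) (v 1) ↔ uu (rd4 S) (ao R ρ') (ao_qf R ρ') (v 0)))
      (q2.2.2.2.1 _ _ (q2.2.2.2.2.2.2.2 (Fin n)
        (fun k S v => pj (rd4 S) (ρ k) (v 1) = pj (rd4 S) (ρ' k) (v 0)) fun k => qd_pj hQDT _ _ 1 0)
        (q2.2.2.2.2.2.1 _ _ (qd_uu hQDT _ _ 1) (qd_uu hQDT _ _ 0)))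
      (fun S hS v => hS.rel n R ρ ρ' (v 0) (v 1)) ![s, t]

end Pool.Agent.VOD
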