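import Pool.Agent.VOD.StA

/-!
# VOD [CDC]: continuity of the structure of a code structure
-/

set_option autoImplicit false

namespace Pool.Agent.VOD

open FirstOrder Set VPF
open FirstOrder.Language
open Pool.Agent.EAE (EAEA)

/-- the enumeration of an infinite set depends only on an initial segment -/
private theorem CDC_nth (P Q : ℕ → Prop) (hP : {u | P u}.Infinite) (i u : ℕ)
    (h : ∀ u' ≤ u, P u' ↔ Q u') (hu : Nat.nth P i = u) : Nat.nth Q i = u := by
  classical
  have h1 : P u := by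
    rw [← hu]
    exact Nat.nth_mem_of_infinite hP i
  have h2 : Nat.count P u = i := by
    rw [← hu]
    exact Nat.count_nth_of_infinite hP i
  have h3 : Nat.count Q u = i := by
    rw [← h2, Nat.count_eq_card_filter_range, Nat.count_eq_card_filter_range]
    congr 1
    refine Finset.filter_congr fun u' hu' => ?_
    exact (h u' (Finset.mem_range.mp hu').le).symm
  rw [← h3]
  exact Nat.nth_count ((h u le_rfl).mp h1)

/-- a family of open sets which is a partition consists of clopen sets -/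
private theorem CDC_clopen (g : (ℕ → Bool) → ℕ) (h : ∀ b, IsOpen {x | g x = b}) (b : ℕ) :
    IsClopen {x | g x = b} := by
  refine ⟨?_, h b⟩
  rw [← isOpen_compl_iff]
  have h1 : {x | g x = b}ᶜ = ⋃ (b' : ℕ) (_ : b' ≠ b), {x | g x = b'} := by
    ext x
    simp
  rw [h1]
  exact isOpen_iUnion fun b' => isOpen_iUnion fun _ => h b'

private theorem CDC_eq (g g' : (ℕ → Bool) → ℕ) (h : ∀ b, IsOpen {x | g x = b})
    (h' : ∀ b, IsOpen {x | g' x = b}) : IsOpen {x | g x = g' x} := by
  have h1 : {x | g x = g' x} = ⋃ b : ℕ, ({x | g x = b} ∩ {x | g' x = b}) := by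
    ext x
    simp only [mem_ofPred_eq, mem_iUnion, mem_inter_iff]
    constructor
    · intro hx
      exact ⟨g x, rfl, hx.symm⟩
    · rintro ⟨b, h1, h2⟩
      rw [h1, h2]
  rw [h1]
  exact isOpen_iUnion fun b => (h b).inter (h' b)

theorem thm_CDC (hDGX : St_DGX) : St_CDC := by
  classical
  intro L hF hR f hf hrel hfun n R a
  have hpj : ∀ (k : Fin 3) (t b : ℕ), IsOpen {x | pj (f x) k t = b} := fun k t b =>
    hfun 1 (Fn3.pr k : (L3 L).Functions 1) (fun _ => t) b
  have hpjc : ∀ (k : Fin 3) (t b : ℕ), IsClopen {x | pj (f x) k t = b} := fun k t b =>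
    CDC_clopen (fun x => pj (f x) k t) (hpj k t) b
  -- the enumeration of the diagonal
  have hdg : ∀ i u : ℕ, IsOpen {x | dg (f x) i = u} := by
    intro i u
    rw [isOpen_iff_forall_mem_open]
    intro x0 hx0
    refine ⟨{x | ∀ u' ∈ Finset.range (u + 1), (pj (f x) 0 u' = u' ↔ pj (f x0) 0 u' = u')},
      ?_, ?_, ?_⟩
    · intro x hx
      show Nat.nth (fun u => pj (f x) 0 u = u) i = u
      refine CDC_nth (fun u => pj (f x0) 0 u = u) _ (hDGX L (f x0) (hf x0)).1 i u ?_ hx0
      intro u' hu'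
      exact (hx u' (Finset.mem_range.mpr (by omega))).symm
    · have h1 : {x | ∀ u' ∈ Finset.range (u + 1), (pj (f x) 0 u' = u' ↔ pj (f x0) 0 u' = u')} =
          ⋂ u' ∈ Finset.range (u + 1), {x | pj (f x) 0 u' = u' ↔ pj (f x0) 0 u' = u'} := by
        ext x
        simp
      rw [h1]
      refine isOpen_biInter_finset fun u' _ => ?_
      by_cases h2 : pj (f x0) 0 u' = u'
      · simp only [h2, iff_true]
        exact hpj 0 u' u'
      · simp only [h2, iff_false]
        exact (hpjc 0 u' u').compl.isOpen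
    · intro u' _
      exact Iff.rfl
  have hue : ∀ (k : Fin 3) (t i : ℕ), IsOpen {x | pj (f x) k t = dg (f x) i} := fun k t i =>
    CDC_eq (fun x => pj (f x) k t) (fun x => dg (f x) i) (hpj k t) (hdg i)
  have huu : ∀ (ρ : Fin n → Fin 3) (t : ℕ), IsClopen {x | uu (f x) (ao R ρ) (ao_qf R ρ) t} :=
    fun ρ t => hrel 1 (Rl3.u (ao R ρ) (ao_qf R ρ) : (L3 L).Relations 1) fun _ => t
  have hall : ∀ (ρ : Fin n → Fin 3) (t : ℕ),
      IsOpen {x | ∀ k, pj (f x) (ρ k) t = dg (f x) (a k)} := by
    intro ρ t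
    have h1 : {x | ∀ k, pj (f x) (ρ k) t = dg (f x) (a k)} =
        ⋂ k, {x | pj (f x) (ρ k) t = dg (f x) (a k)} := by
      ext x
      simp
    rw [h1]
    exact isOpen_iInter_of_finite fun k => hue (ρ k) t (a k)
  refine ⟨?_, ?_⟩
  · rw [← isOpen_compl_iff]
    have h1 : {x | (gs hF (f x)).RelMap R a}ᶜ = ⋃ (ρ : Fin n → Fin 3) (t : ℕ),
        ({x | ∀ k, pj (f x) (ρ k) t = dg (f x) (a k)} ∩
          {x | uu (f x) (ao R ρ) (ao_qf R ρ) t}ᶜ) := by
      ext x
      simp only [mem_compl_iff, mem_ofPred_eq, mem_iUnion, mem_inter_iff]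
      constructor
      · intro hx
        have hn : n ≤ 3 := by
          by_contra hcon
          exact (hR n (by omega)).false R
        obtain ⟨t, ht⟩ := (hDGX L (f x) (hf x)).2.2.2.2
          (fun j => if h : j.val < n then a ⟨j.val, h⟩ else 0)
        have ht' : ∀ k : Fin n, pj (f x) (Fin.castLE hn k) t = dg (f x) (a k) := by
          intro k
          rw [ht]
          simp
        refine ⟨Fin.castLE hn, t, ht', fun h => hx ⟨Fin.castLE hn, t, ht', h⟩⟩
      · rintro ⟨ρ, t, h1, h2⟩ ⟨ρ', s, h3, h4⟩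
        refine h2 (((hf x).rel n R ρ ρ' s t fun k => ?_).mpr h4)
        rw [h3, h1]
    rw [h1]
    exact isOpen_iUnion fun ρ => isOpen_iUnion fun t =>
      (hall ρ t).inter (huu ρ t).compl.isOpen
  · have h1 : {x | (gs hF (f x)).RelMap R a} = ⋃ (ρ : Fin n → Fin 3) (t : ℕ),
        ({x | ∀ k, pj (f x) (ρ k) t = dg (f x) (a k)} ∩
          {x | uu (f x) (ao R ρ) (ao_qf R ρ) t}) := by
      ext x
      simp only [mem_iUnion, mem_inter_iff]
      exact Iff.rfl
    rw [h1]
    exact isOpen_iUnion fun ρ => isOpen_iUnion fun t => (hall ρ t).inter (huu ρ t).isOpen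

end Pool.Agent.VOD
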