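import Pool.Agent.VOD.StA

/-!
VOD, CDI: isomorphisms of code structures.
-/

set_option autoImplicit false

namespace Pool.Agent.VOD

open FirstOrder Set VPF
open FirstOrder.Language

/-- the bijection `σ` is an isomorphism -/
structure CDI_Iso {L : FirstOrder.Language.{0, 0}} (S S' : L.Structure ℕ) (σ : ℕ ≃ ℕ) : Prop where
  hf : ∀ (n : ℕ) (F : L.Functions n) (v : Fin n → ℕ), σ (S.funMap F v) = S'.funMap F (σ ∘ v)
  hr : ∀ (n : ℕ) (R : L.Relations n) (v : Fin n → ℕ), S'.RelMap R (σ ∘ v) ↔ S.RelMap R v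

theorem CDI_mk {L : FirstOrder.Language.{0, 0}} {S S' : L.Structure ℕ} {σ : ℕ ≃ ℕ}
    (h : CDI_Iso S S' σ) : Nonempty (@FirstOrder.Language.Equiv L ℕ ℕ S S') :=
  ⟨@FirstOrder.Language.Equiv.mk L ℕ ℕ S S' σ (fun {n} F v => h.hf n F v)
    (fun {n} R v => h.hr n R v)⟩

theorem CDI_un {L : FirstOrder.Language.{0, 0}} {S S' : L.Structure ℕ}
    (e : @FirstOrder.Language.Equiv L ℕ ℕ S S') : ∃ σ : ℕ ≃ ℕ, CDI_Iso S S' σ := by
  obtain ⟨σ, hf, hr⟩ := e
  exact ⟨σ, fun n F v => hf F v, fun n R v => hr R v⟩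

theorem CDI_sym {L : FirstOrder.Language.{0, 0}} {S S' : L.Structure ℕ} {σ : ℕ ≃ ℕ}
    (h : CDI_Iso S S' σ) : CDI_Iso S' S σ.symm := by
  refine ⟨fun n F v => ?_, fun n R v => ?_⟩
  · rw [Equiv.symm_apply_eq, h.hf]
    congr 1
    funext k
    simp
  · rw [← h.hr]
    refine iff_of_eq (congrArg _ ?_)
    funext k
    simp

theorem CDI_bf1 {L : FirstOrder.Language.{0, 0}} {M M' : Type} [L.Structure M] [L.Structure M']
    (e : M ≃[L] M') {n : ℕ} (θ : L.BoundedFormula Empty n) (v : Fin n → M) (a : Empty → M)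
    (a' : Empty → M') : θ.Realize a' (e ∘ v) ↔ θ.Realize a v := by
  have h := StrongHomClass.realize_boundedFormula e θ (v := a) (xs := v)
  have h2 : (⇑e ∘ a) = a' := funext fun x => x.elim
  rw [h2] at h
  exact h

theorem CDI_bf {L : FirstOrder.Language.{0, 0}} {S S' : L.Structure ℕ} {σ : ℕ ≃ ℕ}
    (h : CDI_Iso S S' σ) {n : ℕ} (θ : L.BoundedFormula Empty n) (v : Fin n → ℕ) :
    @BoundedFormula.Realize L ℕ S' Empty n θ default (σ ∘ v) ↔
      @BoundedFormula.Realize L ℕ S Empty n θ default v :=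
  @CDI_bf1 L ℕ ℕ S S' (@FirstOrder.Language.Equiv.mk L ℕ ℕ S S' σ (fun {n} F v => h.hf n F v)
    (fun {n} R v => h.hr n R v)) n θ v _ _

/-! ### Structures of triples -/

/-- the diagonal element -/
noncomputable def CDI_D (i : ℕ) : ℕ := tri.symm fun _ => i

theorem CDI_tD (i : ℕ) (k : Fin 3) : tri (CDI_D i) k = i := by
  unfold CDI_D
  rw [Equiv.apply_symm_apply]

theorem CDI_Dinj {i j : ℕ} (h : CDI_D i = CDI_D j) : i = j := by
  rw [← CDI_tD i 0, h, CDI_tD]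

section

variable {L : FirstOrder.Language.{0, 0}} {S S' : L.Structure ℕ} {e : ℕ ≃ ℕ}

theorem CDI_e (he : CDI_Iso (cd S) (cd S') e) (t : ℕ) (k : Fin 3) :
    e (CDI_D (tri t k)) = CDI_D (tri (e t) k) :=
  he.hf 1 (Fn3.pr k : (L3 L).Functions 1) (fun _ => t)

theorem CDI_s (he : CDI_Iso (cd S) (cd S') e) (i : ℕ) :
    e (CDI_D i) = CDI_D (tri (e (CDI_D i)) 0) := by
  have h := CDI_e he (CDI_D i) 0
  rw [CDI_tD] at h
  exact h

theorem CDI_t (he : CDI_Iso (cd S) (cd S') e) (t : ℕ) (k : Fin 3) :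
    tri (e t) k = tri (e (CDI_D (tri t k))) 0 := by
  apply CDI_Dinj
  rw [← CDI_s he, CDI_e he]

theorem CDI_one (hF : ∀ n, IsEmpty (L.Functions n)) (h4 : ∀ n, 4 ≤ n → IsEmpty (L.Relations n))
    (he : CDI_Iso (cd S) (cd S') e) : Nonempty (@FirstOrder.Language.Equiv L ℕ ℕ S S') := by
  have he' := CDI_sym he
  have hl : Function.LeftInverse (fun i => tri (e.symm (CDI_D i)) 0)
      (fun i => tri (e (CDI_D i)) 0) := by
    intro i
    change tri (e.symm (CDI_D (tri (e (CDI_D i)) 0))) 0 = i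
    rw [← CDI_s he, e.symm_apply_apply, CDI_tD]
  have hrr : Function.RightInverse (fun i => tri (e.symm (CDI_D i)) 0)
      (fun i => tri (e (CDI_D i)) 0) := by
    intro i
    change tri (e (CDI_D (tri (e.symm (CDI_D i)) 0))) 0 = i
    rw [← CDI_s he', e.apply_symm_apply, CDI_tD]
  obtain ⟨σ, hσ⟩ : ∃ σ : ℕ ≃ ℕ, ∀ i, σ i = tri (e (CDI_D i)) 0 := ⟨⟨_, _, hl, hrr⟩, fun _ => rfl⟩
  refine CDI_mk (σ := σ) ⟨?_, ?_⟩
  · intro n F v
    exact (hF n).elim F
  · intro n R a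
    have hn : n ≤ 3 := by
      by_contra h
      exact (h4 n (by omega)).elim R
    obtain ⟨t, ht⟩ : ∃ t : ℕ, ∀ k : Fin n, tri t (Fin.castLE hn k) = a k := by
      refine ⟨tri.symm fun k => if h : (k : ℕ) < n then a ⟨k, h⟩ else 0, fun k => ?_⟩
      rw [Equiv.apply_symm_apply]
      simp
    have h1 := he.hr 1 (Rl3.u (ao R (Fin.castLE hn)) (ao_qf R _) :
      (L3 L).Relations 1) (fun _ => t)
    have h2 : ∀ (S : L.Structure ℕ) (t : ℕ),
        (cd S).RelMap (Rl3.u (ao R (Fin.castLE hn)) (ao_qf R _) : (L3 L).Relations 1)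
          (fun _ => t) ↔ S.RelMap R fun k => tri t (Fin.castLE hn k) := by
      intro S t
      change @BoundedFormula.Realize L ℕ S Empty 3 (ao R (Fin.castLE hn)) default (tri t) ↔ _
      unfold ao
      rw [BoundedFormula.realize_rel]
      exact Iff.rfl
    have h3 : (⇑e ∘ fun _ : Fin 1 => t) = fun _ => e t := rfl
    rw [h3, h2, h2] at h1
    have h4 : (fun k => tri t (Fin.castLE hn k)) = a := funext ht
    have h5 : (fun k => tri (e t) (Fin.castLE hn k)) = σ ∘ a := by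
      funext k
      rw [CDI_t he, ht]
      exact (hσ _).symm
    rw [h4, h5] at h1
    exact h1

end

/-! ### Code structures -/

theorem CDI_T (hDGX : St_DGX) {L : FirstOrder.Language.{0, 0}} (N : (L3 L).Structure ℕ)
    (hN : Cds N) : ∃ T : ℕ ≃ (Fin 3 → ℕ), (∀ t k, pj N k t = dg N (T t k)) ∧
      ∀ t k j, T (pj N k t) j = T t k := by
  obtain ⟨-, hinj, hd, hk, hv⟩ := hDGX L N hN
  choose c hc using hk
  choose b hb using hv
  have h1 : ∀ t, b (c t) = t := fun t => hN.inj _ _ fun k => by rw [hb, hc]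
  have h2 : ∀ v, c (b v) = v := fun v => funext fun k => hinj (by rw [← hc, hb])
  refine ⟨⟨c, b, h1, h2⟩, hc, fun t k j => ?_⟩
  apply hinj
  change dg N (c (pj N k t) j) = dg N (c t k)
  rw [← hc, ← hc, hN.pp]

theorem CDI_two (hDGX : St_DGX) (hGSR : St_GSR) {L : FirstOrder.Language.{0, 0}}
    (hF : ∀ n, IsEmpty (L.Functions n)) (N N' : (L3 L).Structure ℕ) (hN : Cds N) (hN' : Cds N')
    {e : ℕ ≃ ℕ} (he : CDI_Iso (gs hF N) (gs hF N') e) :
    Nonempty (@FirstOrder.Language.Equiv (L3 L) ℕ ℕ N N') := by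
  obtain ⟨T, hT, hT2⟩ := CDI_T hDGX N hN
  obtain ⟨T', hT', hT2'⟩ := CDI_T hDGX N' hN'
  obtain ⟨σ, hσ⟩ : ∃ σ : ℕ ≃ ℕ, ∀ t, T' (σ t) = e ∘ T t := by
    refine ⟨(T.trans (Equiv.arrowCongr (Equiv.refl _) e)).trans T'.symm, fun t => ?_⟩
    simp only [Equiv.trans_apply, Equiv.apply_symm_apply]
    rfl
  refine CDI_mk (σ := σ) ⟨?_, ?_⟩
  · intro n F v
    cases F with
    | pr k =>
      have hv : v = fun _ => v 0 := funext fun i => by rw [Subsingleton.elim i 0]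
      rw [hv]
      apply T'.injective
      have e1 : N.funMap (Fn3.pr k : (L3 L).Functions 1) (fun _ => v 0) = pj N k (v 0) := rfl
      have e2 : N'.funMap (Fn3.pr k : (L3 L).Functions 1) (⇑σ ∘ fun _ : Fin 1 => v 0) =
        pj N' k (σ (v 0)) := rfl
      funext j
      rw [hσ]
      change e (T (N.funMap (Fn3.pr k : (L3 L).Functions 1) (fun _ => v 0)) j) =
        T' (N'.funMap (Fn3.pr k : (L3 L).Functions 1) (⇑σ ∘ fun _ : Fin 1 => v 0)) j
      rw [e1, e2, hT2, hT2', hσ]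
      rfl
  · intro n R v
    cases R with
    | u θ h =>
      have hv : v = fun _ => v 0 := funext fun i => by rw [Subsingleton.elim i 0]
      rw [hv]
      have e1 : N.RelMap (Rl3.u θ h : (L3 L).Relations 1) (fun _ => v 0) ↔ uu N θ h (v 0) := Iff.rfl
      have e2 : N'.RelMap (Rl3.u θ h : (L3 L).Relations 1) (⇑σ ∘ fun _ : Fin 1 => v 0) ↔
        uu N' θ h (σ (v 0)) := Iff.rfl
      refine e2.trans (Iff.trans ?_ e1.symm)
      rw [hGSR L hF N hN θ h (v 0) (T (v 0)) (fun k => hT _ _),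
        hGSR L hF N' hN' θ h (σ (v 0)) (T' (σ (v 0))) (fun k => hT' _ _), hσ]
      exact CDI_bf he θ (T (v 0))

theorem thm_CDI (hDGX : St_DGX) (hGSR : St_GSR) : St_CDI := by
  intro L hF h4
  refine ⟨?_, ?_⟩
  · rintro S S' ⟨e⟩
    obtain ⟨σ, hσ⟩ := CDI_un e
    exact CDI_one hF h4 hσ
  · rintro N N' hN hN' ⟨e⟩
    obtain ⟨σ, hσ⟩ := CDI_un e
    exact CDI_two hDGX hGSR hF N N' hN hN' hσ

end Pool.Agent.VOD
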