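import Pool.Agent.VOD.StA

/-!
# VOD, module CDM: models of the theory of low prefix are code structures
-/

set_option autoImplicit false
set_option linter.unusedVariables false

namespace Pool.Agent.VOD

open FirstOrder Set VPF
open FirstOrder.Language
open Pool.Agent.EAE (EAEA)

namespace CDMx

variable {L : FirstOrder.Language.{0, 0}}

/-- a variable -/
def tv {n : ℕ} (a : Fin n) : (L3 L).Term (Empty ⊕ Fin n) := Term.var (Sum.inr a)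

/-- a function applied to a term -/
def tf {n : ℕ} (k : Fin 3) (t : (L3 L).Term (Empty ⊕ Fin n)) : (L3 L).Term (Empty ⊕ Fin n) :=
  Term.func (Fn3.pr k : (L3 L).Functions 1) fun _ => t

theorem qd_eq (hQDT : St_QDT) {n : ℕ} (t t' : (L3 L).Term (Empty ⊕ Fin n)) :
    QD (L3 L) n fun S v =>
      @Term.realize (L3 L) ℕ S _ (Sum.elim default v) t =
        @Term.realize (L3 L) ℕ S _ (Sum.elim default v) t' :=
  (hQDT (L3 L) n).1 t t'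

theorem qd_pp (hQDT : St_QDT) {n : ℕ} (i j k : Fin 3) (a b : Fin n) :
    QD (L3 L) n fun S v => pj S j (pj S i (v a)) = pj S k (v b) :=
  qd_eq hQDT (tf j (tf i (tv a))) (tf k (tv b))

theorem qd_pj (hQDT : St_QDT) {n : ℕ} (i j : Fin 3) (a b : Fin n) :
    QD (L3 L) n fun S v => pj S i (v a) = pj S j (v b) :=
  qd_eq hQDT (tf i (tv a)) (tf j (tv b))

theorem qd_vv (hQDT : St_QDT) {n : ℕ} (a b : Fin n) :
    QD (L3 L) n fun S v => v a = v b :=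
  qd_eq hQDT (tv a) (tv b)

theorem qd_uu (hQDT : St_QDT) {n : ℕ} (θ : L.BoundedFormula Empty 3) (h : θ.IsQF) (a : Fin n) :
    QD (L3 L) n fun S v => uu S θ h (v a) :=
  (hQDT (L3 L) n).2.1 1 (Rl3.u θ h : (L3 L).Relations 1) fun _ => tv a

end CDMx

open CDMx in
/-- **CDM**. -/
theorem thm_CDM (hQDT : St_QDT) (hUNI : St_UNI) (hAAE : St_AAE) (hCDS : St_CDS) : St_CDM := by
  intro L hF D hD1 hD2 hD3 K N hN
  have hC : ∀ S ∈ cd '' K, Cds S := by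
    rintro _ ⟨S, -, rfl⟩
    exact hCDS L hF S
  have u1 : ∀ Φ : (L3 L).Structure ℕ → (Fin 1 → ℕ) → Prop, QD (L3 L) 1 Φ →
      (∀ S, Cds S → ∀ v, Φ S v) → ∀ v, Φ N v := fun Φ h1 h2 =>
    hUNI (L3 L) D (cd '' K) 1 Φ hD1 h1 (fun S hS => h2 S (hC S hS)) N hN
  have u2 : ∀ Φ : (L3 L).Structure ℕ → (Fin 2 → ℕ) → Prop, QD (L3 L) 2 Φ →
      (∀ S, Cds S → ∀ v, Φ S v) → ∀ v, Φ N v := fun Φ h1 h2 =>
    hUNI (L3 L) D (cd '' K) 2 Φ hD2 h1 (fun S hS => h2 S (hC S hS)) N hN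
  have u3 : ∀ Φ : (L3 L).Structure ℕ → (Fin 3 → ℕ) → Prop, QD (L3 L) 3 Φ →
      (∀ S, Cds S → ∀ x y, ∃ z, Φ S ![x, y, z]) → ∀ x y, ∃ z, Φ N ![x, y, z] := fun Φ h1 h2 =>
    hAAE (L3 L) D (cd '' K) Φ hD3 h1 (fun S hS => h2 S (hC S hS)) N hN
  have q1 := hQDT (L3 L) 1
  have q2 := hQDT (L3 L) 2
  have q3 := hQDT (L3 L) 3
  refine ⟨?_, ?_, ?_, ?_, ?_, ?_, ?_, ?_⟩
  · intro i j t
    exact u1 (fun S v => pj S j (pj S i (v 0)) = pj S i (v 0)) (qd_pp hQDT i j i 0 0)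
      (fun S hS v => hS.pp i j (v 0)) fun _ => t
  · intro s t
    exact u2 (fun S v => (∀ k, pj S k (v 0) = pj S k (v 1)) → v 0 = v 1)
      (q2.2.2.2.1 _ _ (q2.2.2.2.2.2.2.2 (Fin 3) (fun k S v => pj S k (v 0) = pj S k (v 1))
        fun k => qd_pj hQDT k k 0 1) (qd_vv hQDT 0 1))
      (fun S hS v => hS.inj (v 0) (v 1)) ![s, t]
  · intro s z
    exact u3 (fun S v => pj S 0 (v 2) = pj S 0 (v 0) ∧ pj S 1 (v 2) = pj S 0 (v 1))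
      (q3.2.2.2.2.1 _ _ (qd_pj hQDT 0 0 2 0) (qd_pj hQDT 1 0 2 1))
      (fun S hS x y => hS.two x y) s z
  · intro s z
    exact u3 (fun S v => pj S 0 (v 2) = pj S 0 (v 0) ∧ pj S 1 (v 2) = pj S 1 (v 0) ∧
        pj S 2 (v 2) = pj S 0 (v 1))
      (q3.2.2.2.2.1 _ _ (qd_pj hQDT 0 0 2 0)
        (q3.2.2.2.2.1 _ _ (qd_pj hQDT 1 1 2 0) (qd_pj hQDT 2 0 2 1)))
      (fun S hS x y => hS.tre x y) s z
  · intro t
    exact u1 (fun S v => ¬ uu S ⊥ BoundedFormula.isQF_bot (v 0))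
      (q1.2.2.2.2.2.2.1 _ (qd_uu hQDT _ _ 0)) (fun S hS v => hS.bot (v 0)) fun _ => t
  · intro θ θ' h h' h'' t
    exact u1 (fun S v => uu S (θ.imp θ') h'' (v 0) ↔ (uu S θ h (v 0) → uu S θ' h' (v 0)))
      (q1.2.2.2.2.2.1 _ _ (qd_uu hQDT _ _ 0) (q1.2.2.2.1 _ _ (qd_uu hQDT _ _ 0) (qd_uu hQDT _ _ 0)))
      (fun S hS v => hS.imp θ θ' h h' h'' (v 0)) fun _ => t
  · intro i j h t
    exact u1 (fun S v => uu S ((&i : L.Term (Empty ⊕ Fin 3)).bdEqual &j) h (v 0) ↔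
        pj S i (v 0) = pj S j (v 0))
      (q1.2.2.2.2.2.1 _ _ (qd_uu hQDT _ _ 0) (qd_pj hQDT i j 0 0))
      (fun S hS v => hS.eq i j h (v 0)) fun _ => t
  · intro n R ρ ρ' s t
    exact u2 (fun S v => (∀ k, pj S (ρ k) (v 1) = pj S (ρ' k) (v 0)) →
        (uu S (ao R ρ) (ao_qf R ρ) (v 1) ↔ uu S (ao R ρ') (ao_qf R ρ') (v 0)))
      (q2.2.2.2.1 _ _ (q2.2.2.2.2.2.2.2 (Fin n)
        (fun k S v => pj S (ρ k) (v 1) = pj S (ρ' k) (v 0)) fun k => qd_pj hQDT _ _ 1 0)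
        (q2.2.2.2.2.2.1 _ _ (qd_uu hQDT _ _ 1) (qd_uu hQDT _ _ 0)))
      (fun S hS v => hS.rel n R ρ ρ' (v 0) (v 1)) ![s, t]

end Pool.Agent.VOD
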