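import Pool.Agent.VOD.StA

/-!
# VOD, module CDS: structures of triples are code structures
-/

set_option autoImplicit false
set_option linter.unusedVariables false

namespace Pool.Agent.VOD

open FirstOrder Set VPF
open FirstOrder.Language
open Pool.Agent.EAE (EAEA)

namespace CDSx

variable {L : FirstOrder.Language.{0, 0}}

theorem pj_cd (S : L.Structure ℕ) (k : Fin 3) (t : ℕ) :
    pj (cd S) k t = tri.symm fun _ => tri t k := rfl

theorem uu_cd (S : L.Structure ℕ) (θ : L.BoundedFormula Empty 3) (h : θ.IsQF) (t : ℕ) :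
    uu (cd S) θ h t ↔ @BoundedFormula.Realize L ℕ S Empty 3 θ default (tri t) := Iff.rfl

theorem const_inj {a b : ℕ} (h : tri.symm (fun _ => a) = tri.symm (fun _ => b)) : a = b :=
  congrFun (tri.symm.injective h) 0

theorem real_ao (S : L.Structure ℕ) {n : ℕ} (R : L.Relations n) (ρ : Fin n → Fin 3)
    (v : Fin 3 → ℕ) : @BoundedFormula.Realize L ℕ S Empty 3 (ao R ρ) default v ↔
      S.RelMap R fun k => v (ρ k) := by
  let _ := S
  rw [ao, BoundedFormula.realize_rel]
  rfl

end CDSx

open CDSx in
/-- **CDS**. -/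
theorem thm_CDS : St_CDS := by
  intro L hF S
  refine ⟨?_, ?_, ?_, ?_, ?_, ?_, ?_, ?_⟩
  · intro i j t
    rw [pj_cd, pj_cd, Equiv.apply_symm_apply]
  · intro s t h
    apply tri.injective
    funext k
    have h1 := h k
    rw [pj_cd, pj_cd] at h1
    exact const_inj h1
  · intro s z
    refine ⟨tri.symm ![tri s 0, tri z 0, 0], ?_, ?_⟩
    · rw [pj_cd, pj_cd, Equiv.apply_symm_apply]
      rfl
    · rw [pj_cd, pj_cd, Equiv.apply_symm_apply]
      rfl
  · intro s z
    refine ⟨tri.symm ![tri s 0, tri s 1, tri z 0], ?_, ?_, ?_⟩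
    · rw [pj_cd, pj_cd, Equiv.apply_symm_apply]
      rfl
    · rw [pj_cd, pj_cd, Equiv.apply_symm_apply]
      rfl
    · rw [pj_cd, pj_cd, Equiv.apply_symm_apply]
      rfl
  · intro t h
    rw [uu_cd] at h
    exact h
  · intro θ θ' h h' h'' t
    rw [uu_cd, uu_cd, uu_cd]
    let _ := S
    exact BoundedFormula.realize_imp
  · intro i j h t
    rw [uu_cd, pj_cd, pj_cd]
    let _ := S
    rw [BoundedFormula.realize_bdEqual]
    constructor
    · intro h1
      have h2 : tri t i = tri t j := h1
      rw [h2]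
    · intro h1
      exact const_inj h1
  · intro n R ρ ρ' s t h
    rw [uu_cd, uu_cd, real_ao, real_ao]
    have h1 : (fun k => tri t (ρ k)) = fun k => tri s (ρ' k) := by
      funext k
      have h2 := h k
      rw [pj_cd, pj_cd] at h2
      exact const_inj h2
    rw [h1]

end Pool.Agent.VOD
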