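import Pool.Agent.VOD.StA

/-!
# VOD, module CTX: the relational language is countable
-/

set_option autoImplicit false
set_option linter.unusedVariables false

namespace Pool.Agent.VOD

open FirstOrder Set VPF
open FirstOrder.Language
open Pool.Agent.EAE (EAEA)

namespace CTXx

variable {L : FirstOrder.Language.{0, 0}}

/-- the one-dimensional formulas of depth at most `d` -/
def st : ℕ → Set (Fo L)
  | 0 => range fun z : (Σ n, {θ : L.BoundedFormula Empty n // θ.IsQF} × (Fin n → ℕ)) =>
      Fo.qf z.2.1.1 z.2.1.2 z.2.2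
  | d + 1 => st d ∪ (image2 Fo.imp (st d) (st d) ∪ image2 Fo.ex univ (st d))

theorem st_mono {d e : ℕ} (h : d ≤ e) : st (L := L) d ⊆ st e := by
  induction h with
  | refl => exact subset_rfl
  | step _ ih => exact ih.trans subset_union_left

theorem st_all (φ : Fo L) : ∃ d, φ ∈ st d := by
  induction φ with
  | qf θ h v => exact ⟨0, ⟨⟨_, ⟨θ, h⟩, v⟩, rfl⟩⟩
  | imp φ ψ h1 h2 =>
    obtain ⟨d, hd⟩ := h1
    obtain ⟨e, he⟩ := h2
    exact ⟨max d e + 1, Or.inr (Or.inl ⟨φ, st_mono (le_max_left _ _) hd, ψ,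
      st_mono (le_max_right _ _) he, rfl⟩)⟩
  | ex i φ h =>
    obtain ⟨d, hd⟩ := h
    exact ⟨d + 1, Or.inr (Or.inr ⟨i, mem_univ _, φ, hd, rfl⟩)⟩

theorem cnt_bf (hL : Countable L.Symbols) (n : ℕ) : Countable (L.BoundedFormula Empty n) := by
  have h : Countable (Σ n, L.BoundedFormula Empty n) := inferInstance
  exact Function.Injective.countable (f := fun θ => (⟨n, θ⟩ : Σ n, L.BoundedFormula Empty n))
    fun a b hab => by simpa using hab

theorem st_cnt (hL : Countable L.Symbols) (d : ℕ) : (st (L := L) d).Countable := by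
  induction d with
  | zero =>
    have h : ∀ n, Countable (L.BoundedFormula Empty n) := cnt_bf hL
    exact countable_range _
  | succ d ih => exact ih.union ((ih.image2 ih _).union (countable_univ.image2 ih _))

theorem cnt_fo (hL : Countable L.Symbols) : Countable (Fo L) := by
  rw [← countable_univ_iff]
  refine (countable_iUnion (st_cnt hL)).mono ?_
  intro φ _
  obtain ⟨d, hd⟩ := st_all φ
  exact mem_iUnion.2 ⟨d, hd⟩

/-- the relation symbols as data -/
def enc : (Σ n, Rl L n) → (Σ n, L.BoundedFormula Empty n) ⊕ (ℕ × Fo L)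
  | ⟨_, .q θ _⟩ => Sum.inl ⟨_, θ⟩
  | ⟨_, .p i φ⟩ => Sum.inr (i, φ)

theorem enc_inj : Function.Injective (enc (L := L)) := by
  rintro ⟨n, r⟩ ⟨m, s⟩ h
  cases r with
  | q θ hθ =>
    cases s with
    | q θ' hθ' =>
      simp only [enc, Sum.inl.injEq, Sigma.mk.injEq] at h
      obtain ⟨rfl, h2⟩ := h
      obtain rfl := eq_of_heq h2
      rfl
    | p i φ => simp [enc] at h
  | p i φ =>
    cases s with
    | q θ' hθ' => simp [enc] at h
    | p j ψ =>
      simp only [enc, Sum.inr.injEq, Prod.mk.injEq] at h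
      obtain ⟨rfl, rfl⟩ := h
      rfl

end CTXx

open CTXx in
/-- **CTX**. -/
theorem thm_CTX : St_CTX := by
  intro L hL
  have h1 : Countable (Fo L) := cnt_fo hL
  have h2 : Countable (Σ n, Rl L n) := enc_inj.countable
  have h3 : Countable ((Σ _ : ℕ, Empty) ⊕ (Σ n, Rl L n)) := inferInstance
  exact h3

end Pool.Agent.VOD
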