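import Pool.Agent.VOD.StA

/-!
# VOD, module DGX: the diagonal of a code structure
-/

set_option autoImplicit false

namespace Pool.Agent.VOD

open FirstOrder Set VPF
open FirstOrder.Language

/-- **DGX** -/
theorem thm_DGX : St_DGX := by
  intro L N h
  have hA : ∀ k t, pj N k t ∈ {u | pj N 0 u = u} := fun k t => h.pp k 0 t
  have hA2 : ∀ u, u ∈ {u | pj N 0 u = u} → ∀ k, pj N k u = u := by
    intro u hu k
    have hu' : pj N 0 u = u := hu
    have h1 := h.pp 0 k u
    rwa [hu'] at h1
  have hinf : {u | pj N 0 u = u}.Infinite := by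
    intro hfin
    have : Finite {u | pj N 0 u = u} := hfin
    have h1 : Function.Injective (fun t : ℕ => fun k : Fin 3 =>
        (⟨pj N k t, hA k t⟩ : {u | pj N 0 u = u})) := by
      intro s t hst
      refine h.inj s t fun k => ?_
      exact congrArg Subtype.val (congrFun hst k)
    exact not_finite_iff_infinite.2 (inferInstance : Infinite ℕ) (Finite.of_injective _ h1)
  have hinj : Function.Injective (dg N) := Nat.nth_injective hinf
  have hmem : ∀ i, dg N i ∈ {u | pj N 0 u = u} := fun i => Nat.nth_mem_of_infinite hinf i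
  have hran : Set.range (dg N) = {u | pj N 0 u = u} := Nat.range_nth_of_infinite hinf
  refine ⟨hinf, hinj, fun i k => hA2 _ (hmem i) k, fun t k => ?_, fun v => ?_⟩
  · have h1 := hA k t
    rw [← hran] at h1
    obtain ⟨i, hi⟩ := h1
    exact ⟨i, hi.symm⟩
  · obtain ⟨s, hs0, hs1⟩ := h.two (dg N (v 0)) (dg N (v 1))
    obtain ⟨t, ht0, ht1, ht2⟩ := h.tre s (dg N (v 2))
    rw [hA2 _ (hmem _)] at hs0 hs1 ht2
    refine ⟨t, fun k => ?_⟩
    fin_cases k
    · exact ht0.trans hs0
    · exact ht1.trans hs1
    · exact ht2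

end Pool.Agent.VOD
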