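import Pool.Agent.VOD.StB

/-!
# VOD: fusions exist (`FUX`)
-/

set_option autoImplicit false

namespace Pool.Agent.VOD

open FirstOrder Set VPF
open FirstOrder.Language
open Pool.Agent.EAE (EAEA Elm)

namespace FUXx

variable {N : Type} {B : Set N}

open Classical in
theorem cp_eq {i j : ℕ} {y y' : N} (h : cp B i y = cp B j y') : y = y' ∧ (y ∈ B ∨ i = j) := by
  have h1 : y = y' := congrArg (fun x : Fus B => x.1.1) h
  subst h1
  refine ⟨rfl, ?_⟩
  by_cases hy : y ∈ B
  · exact Or.inl hy
  · right
    have h2 : (if y ∈ B then 0 else i) = if y ∈ B then 0 else j :=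
      congrArg (fun x : Fus B => x.1.2) h
    rwa [if_neg hy, if_neg hy] at h2

theorem cp_mem {i j : ℕ} {y : N} (h : y ∈ B) : cp B i y = cp B j y := by
  apply Subtype.ext
  simp only [cp, if_pos h]

/-- closure of `B` under the functions -/
theorem fn_mem {L : FirstOrder.Language.{0, 0}} (SN : L.Structure N) (hB : @Elm L N SN B) {n : ℕ}
    (F : L.Functions n) (y : Fin n → N) (hy : ∀ k, y k ∈ B) : SN.funMap F y ∈ B := by
  let _ := SN
  let φ : L.Formula (Fin n ⊕ Unit) :=
    (Term.func F fun k => Term.var (Sum.inl k)).equal (Term.var (Sum.inr ()))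
  have hφ : ∀ z : N, φ.Realize (Sum.elim y fun _ => z) ↔ SN.funMap F y = z := by
    intro z
    simp only [φ, Formula.realize_equal, Term.realize_func, Term.realize_var, Sum.elim_inl,
      Sum.elim_inr]
  obtain ⟨z, hz, h⟩ := hB (Fin n) φ y hy ⟨SN.funMap F y, (hφ _).2 rfl⟩
  rw [hφ] at h
  rwa [h]

/-- the value does not depend on the presentation -/
theorem val {L : FirstOrder.Language.{0, 0}} (SN : L.Structure N) (hB : @Elm L N SN B) {n : ℕ}
    (F : L.Functions n) {i j : ℕ} {y y' : Fin n → N}
    (h : (fun k => cp B i (y k)) = fun k => cp B j (y' k)) :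
    cp B i (SN.funMap F y) = cp B j (SN.funMap F y') := by
  have h1 : y = y' := funext fun k => (cp_eq (congrFun h k)).1
  subst h1
  by_cases hij : i = j
  · rw [hij]
  · exact cp_mem (fn_mem SN hB F y fun k => (cp_eq (congrFun h k)).2.resolve_right hij)

end FUXx

open FUXx

open Classical in
theorem thm_FUX : St_FUX := by
  intro L N SN B hB g
  let SX : L.Structure (Fus B) :=
    { funMap := fun {n} F xs =>
        if h : ∃ (i : ℕ) (y : Fin n → N), xs = fun k => cp B i (y k) then
          cp B h.choose (SN.funMap F h.choose_spec.choose) else g n F xs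
      RelMap := fun {n} R xs =>
        ∃ (i : ℕ) (y : Fin n → N), xs = (fun k => cp B i (y k)) ∧ SN.RelMap R y }
  refine ⟨SX, ⟨?_, ?_⟩, ?_⟩
  · intro i n F y
    have h : ∃ (j : ℕ) (y' : Fin n → N), (fun k => cp B i (y k)) = fun k => cp B j (y' k) :=
      ⟨i, y, rfl⟩
    change (if h : ∃ (j : ℕ) (y' : Fin n → N), (fun k => cp B i (y k)) = fun k => cp B j (y' k) then
          cp B h.choose (SN.funMap F h.choose_spec.choose) else g n F fun k => cp B i (y k)) = _
    rw [dif_pos h]
    exact val SN hB F h.choose_spec.choose_spec.symm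
  · intro i n R y
    constructor
    · rintro ⟨j, y', h, hR⟩
      have h1 : y = y' := funext fun k => (cp_eq (congrFun h k)).1
      rwa [h1]
    · intro hR
      exact ⟨i, y, rfl, hR⟩
  · intro n F xs h
    exact dif_neg h

end Pool.Agent.VOD
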