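import Pool.Agent.VOD.StB
import Pool.Agent.VOD.FUX
import Pool.Agent.EAE.PFT

/-!
# VOD, module FUB (helper64)
-/

set_option autoImplicit false
set_option linter.unusedVariables false

namespace Pool.Agent.VOD

open FirstOrder Set VPF
open FirstOrder.Language
open Pool.Agent.EAE (EAEA Elm)

namespace FUBx

variable {N : Type} (B : Set N) (b : N)

/-- the tuple `(x_i, x_j, …, x_j)` -/
noncomputable def tp (n i j : ℕ) : Fin n → Fus B := fun m => if m.val = 0 then cp B i b else cp B j b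

variable {B} {b}

theorem x_inj (hb : b ∉ B) {i j : ℕ} (h : cp B i b = cp B j b) : i = j :=
  (FUXx.cp_eq h).2.resolve_left hb

theorem tp_zero {n : ℕ} (h : 2 ≤ n) (i j : ℕ) : tp B b n i j ⟨0, by omega⟩ = cp B i b := if_pos rfl

theorem tp_one {n : ℕ} (h : 2 ≤ n) (i j : ℕ) : tp B b n i j ⟨1, by omega⟩ = cp B j b :=
  if_neg (by simp)

theorem tp_inj (hb : b ∉ B) {n : ℕ} (h : 2 ≤ n) {i j i' j' : ℕ}
    (h1 : tp B b n i j = tp B b n i' j') : i = i' ∧ j = j' := by
  have h2 := congrFun h1 ⟨0, by omega⟩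
  have h3 := congrFun h1 ⟨1, by omega⟩
  rw [tp_zero h, tp_zero h] at h2
  rw [tp_one h, tp_one h] at h3
  exact ⟨x_inj hb h2, x_inj hb h3⟩

theorem tp_not (hb : b ∉ B) {n : ℕ} (h : 2 ≤ n) {i j : ℕ} (hij : i ≠ j) :
    ¬ ∃ (c : ℕ) (y : Fin n → N), tp B b n i j = fun m => cp B c (y m) := by
  rintro ⟨c, y, h1⟩
  have h2 := congrFun h1 ⟨0, by omega⟩
  have h3 := congrFun h1 ⟨1, by omega⟩
  rw [tp_zero h] at h2
  rw [tp_one h] at h3
  exact hij (((FUXx.cp_eq h2).2.resolve_left hb).trans ((FUXx.cp_eq h3).2.resolve_left hb).symm)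

open Classical in
/-- the values of the functions on mixed tuples -/
noncomputable def gg (B : Set N) (b : N) (S : Set ℕ) (n : ℕ) (xs : Fin n → Fus B) : Fus B :=
  if h : ∃ i, xs = tp B b n i (i + 1) then cp B (h.choose + 2) b
  else if ∃ i ∈ S, xs = tp B b n i (i + 2) then cp B 0 b else cp B 1 b

theorem gg_one (hb : b ∉ B) (S : Set ℕ) {n : ℕ} (h : 2 ≤ n) (i : ℕ) :
    gg B b S n (tp B b n i (i + 1)) = cp B (i + 2) b := by
  have h1 : ∃ i', tp B b n i (i + 1) = tp B b n i' (i' + 1) := ⟨i, rfl⟩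
  rw [gg, dif_pos h1]
  rw [← (tp_inj hb h h1.choose_spec).1]

theorem gg_two (hb : b ∉ B) (S : Set ℕ) {n : ℕ} (h : 2 ≤ n) (i : ℕ) :
    gg B b S n (tp B b n i (i + 2)) = cp B 0 b ↔ i ∈ S := by
  have h1 : ¬ ∃ i', tp B b n i (i + 2) = tp B b n i' (i' + 1) := by
    rintro ⟨i', h2⟩
    have h3 := tp_inj hb h h2
    omega
  rw [gg, dif_neg h1]
  by_cases h2 : i ∈ S
  · rw [if_pos ⟨i, h2, rfl⟩]
    exact ⟨fun _ => h2, fun _ => rfl⟩
  · rw [if_neg]
    · refine ⟨fun h3 => ?_, fun h3 => absurd h3 h2⟩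
      exact absurd (x_inj hb h3) (by omega)
    · rintro ⟨i', h3, h4⟩
      have h5 := tp_inj hb h h4
      exact h2 (h5.1 ▸ h3)

variable {L : FirstOrder.Language.{0, 0}}

/-- the terms with the values `x_i` -/
def tm {k : ℕ} (F : L.Functions k) : ℕ → L.Term (Fin 2)
  | 0 => Term.var 0
  | 1 => Term.var 1
  | i + 2 => Term.func F fun m => if m.val = 0 then tm F i else tm F (i + 1)

end FUBx

open FUBx in
/-- [FUB] -/
theorem thm_FUB (hFUX : St_FUX) (hFUP : St_FUP) : St_FUB := by
  intro L hL T hT k hk F N SN hN B hB ⟨b, hb⟩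
  classical
  have h0 := fun S : Set ℕ => hFUX L N SN B hB fun n _ xs => gg B b S n xs
  choose SX hFS hg using h0
  have hreal : ∀ (S : Set ℕ) (i : ℕ),
      @Term.realize L (Fus B) (SX S) (Fin 2) ![cp B 0 b, cp B 1 b] (tm F i) = cp B i b ∧
      @Term.realize L (Fus B) (SX S) (Fin 2) ![cp B 0 b, cp B 1 b] (tm F (i + 1)) =
        cp B (i + 1) b := by
    intro S i
    induction i with
    | zero => exact ⟨rfl, rfl⟩
    | succ i ih =>
      refine ⟨ih.2, ?_⟩
      have h1 : (fun m : Fin k => @Term.realize L (Fus B) (SX S) (Fin 2) ![cp B 0 b, cp B 1 b]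
          (if m.val = 0 then tm F i else tm F (i + 1))) = tp B b k i (i + 1) := by
        funext m
        by_cases hm : m.val = 0
        · simp only [hm, if_true, tp]
          exact ih.1
        · simp only [hm, if_false, tp]
          exact ih.2
      show (SX S).funMap F (fun m : Fin k => @Term.realize L (Fus B) (SX S) (Fin 2)
        ![cp B 0 b, cp B 1 b] (if m.val = 0 then tm F i else tm F (i + 1))) = _
      rw [h1, hg S k F _ (tp_not hb hk (by omega))]
      exact gg_one hb S hk i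
  refine @Pool.Agent.EAE.thm_PFT L hL T 2 (fun _ => Fus B) SX ?_ ?_
    (fun _ => ![cp B 0 b, cp B 1 b])
    (fun i => (Term.func F fun m => if m.val = 0 then tm F i else tm F (i + 2)).equal (tm F 0)) ?_
  · intro S
    refine (@Theory.model_iff L (Fus B) (SX S) _).2 fun φ hφ => ?_
    obtain ⟨w, h1, h2⟩ := hT φ hφ
    exact hFUP L N SN B hB (SX S) (hFS S) φ w h2 h1 ((@Theory.model_iff L N SN _).1 hN φ hφ)
  · intro S
    exact Infinite.of_injective (fun i : ℕ => (cp B i b : Fus B)) fun i j h => x_inj hb h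
  · intro S i
    refine (@Formula.realize_equal L (Fus B) (SX S) (Fin 2) _ _ _).trans ?_
    have h1 : (fun m : Fin k => @Term.realize L (Fus B) (SX S) (Fin 2) ![cp B 0 b, cp B 1 b]
        (if m.val = 0 then tm F i else tm F (i + 2))) = tp B b k i (i + 2) := by
      funext m
      by_cases hm : m.val = 0
      · simp only [hm, if_true, tp]
        exact (hreal S i).1
      · simp only [hm, if_false, tp]
        exact (hreal S (i + 1)).2
    have h2 : @Term.realize L (Fus B) (SX S) (Fin 2) ![cp B 0 b, cp B 1 b]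
        (Term.func F fun m => if m.val = 0 then tm F i else tm F (i + 2)) =
        gg B b S k (tp B b k i (i + 2)) := by
      rw [← hg S k F _ (tp_not hb hk (by omega)), ← h1]
      rfl
    rw [h2, (hreal S 0).1]
    exact gg_two hb S hk i

end Pool.Agent.VOD
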