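import Pool.Agent.VOD.StB

/-!
# VOD FUM: a model with a proper elementary submodel (statement and proof by helper64)
-/

set_option autoImplicit false

namespace Pool.Agent.VOD

open FirstOrder Set VPF Cardinal
open FirstOrder.Language
open Pool.Agent.EAE (EAEA Elm)

theorem thm_FUM : St_FUM := by
  intro L hL T S hS
  let := S
  have : (ℕ : Type) ⊨ T := hS
  obtain ⟨N, hN⟩ := Theory.exists_large_model_of_infinite_model T (Order.succ ℵ₀) ℕ
  rw [Cardinal.lift_id] at hN
  have hcard : L.card ≤ ℵ₀ := Cardinal.mk_le_aleph0_iff.2 hL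
  obtain ⟨S', -, hS'⟩ := exists_elementarySubstructure_card_eq (L := L) (M := N) ∅ ℵ₀ le_rfl
    (by simp) (by simpa using hcard)
    (by simpa using (Order.le_succ ℵ₀).trans hN)
  rw [Cardinal.lift_id, Cardinal.lift_id] at hS'
  refine ⟨N, inferInstance, (S' : Set N), N.is_model, ?_, ?_⟩
  · intro α _ φ v hv hz
    have h1 : (φ.iExs Unit).Realize v := by
      rw [Formula.realize_iExs]
      obtain ⟨z, hz⟩ := hz
      exact ⟨fun _ => z, hz⟩
    have h2 : (⇑S'.subtype ∘ fun i => (⟨v i, hv i⟩ : S')) = v := rfl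
    rw [← h2, ElementaryEmbedding.map_formula, Formula.realize_iExs] at h1
    obtain ⟨i, hi⟩ := h1
    refine ⟨(i ()).1, (i ()).2, ?_⟩
    rw [← ElementaryEmbedding.map_formula S'.subtype] at hi
    have h3 : (⇑S'.subtype ∘ Sum.elim (fun i => (⟨v i, hv i⟩ : S')) i) =
        Sum.elim v fun _ => (i ()).1 := by
      ext x
      cases x with
      | inl x => rfl
      | inr x => rfl
    rwa [h3] at hi
  · by_contra hcon
    push Not at hcon
    have h4 : #N ≤ #S' := by
      refine Cardinal.mk_le_of_surjective (f := fun x : S' => (x : N)) fun b => ?_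
      exact ⟨⟨b, hcon b⟩, rfl⟩
    rw [hS'] at h4
    exact absurd (hN.trans h4) (not_le.2 (Order.lt_succ ℵ₀))

end Pool.Agent.VOD
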