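import Pool.Agent.VOD.StB

/-!
# VOD, module FUN (helper64)
-/

set_option autoImplicit false
set_option linter.unusedVariables false

namespace Pool.Agent.VOD

open FirstOrder Set VPF
open FirstOrder.Language
open Pool.Agent.EAE (EAEA Elm)

/-- [FUN] -/
theorem thm_FUN (hFUB : St_FUB) (hFUM : St_FUM) (hPOS : St_POS) : St_FUN := by
  intro L hL T hT
  by_cases hf : ∀ n, 2 ≤ n → IsEmpty (L.Functions n)
  · have h3 := hPOS L hL hf T ∅ fun φ hφ => by
      obtain ⟨w, ⟨m, l, n, hl, rfl⟩, h1⟩ := hT φ hφ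
      exact ⟨_, ⟨m, l, n, 0, hl, by simp⟩, h1⟩
    have h4 : ModO T ∅ = ModF T :=
      Set.ext fun S => ⟨fun h => h.1, fun h => ⟨h, fun φ hφ => absurd hφ (Set.notMem_empty φ)⟩⟩
    rw [h4] at h3
    exact h3
  · push Not at hf
    obtain ⟨k, hk, ⟨F⟩⟩ := hf
    by_cases h5 : ∃ S : L.Structure ℕ, S ∈ ModF T
    · obtain ⟨S, hS⟩ := h5
      obtain ⟨N, SN, B, h6, h7, h8⟩ := hFUM L hL T S hS
      obtain ⟨f, h1, h2, h3, h4⟩ := hFUB L hL T hT k hk F N SN h6 B h7 h8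
      exact Or.inr ⟨f, h1, h2, h3, h4⟩
    · push Not at h5
      exact Or.inl ⟨fun _ => ⟨fun _ _ => 0, fun _ _ => False⟩, fun S hS => absurd hS (h5 S)⟩

end Pool.Agent.VOD
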