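import Pool.Agent.VOD.StB

/-!
# VOD, FUP: sentences of the form `∃* ∀ ∃*` are preserved by the fusion
-/

set_option autoImplicit false

namespace Pool.Agent.VOD

open FirstOrder Set VPF
open FirstOrder.Language
open Pool.Agent.EAE (EAEA Elm)

namespace FUPx

variable {L : FirstOrder.Language.{0, 0}}

theorem inv_nil {n : ℕ} {φ : L.BoundedFormula Empty n} (h : Pre [] φ) : φ.IsQF := by
  cases h with
  | qf h => exact h

theorem inv_all {n : ℕ} {w : List Bool} {φ : L.BoundedFormula Empty n}
    (h : Pre (true :: w) φ) : ∃ ψ : L.BoundedFormula Empty (n + 1), φ = ψ.all ∧ Pre w ψ := by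
  cases h with
  | all h => exact ⟨_, rfl, h⟩

theorem inv_ex {n : ℕ} {w : List Bool} {φ : L.BoundedFormula Empty n}
    (h : Pre (false :: w) φ) : ∃ ψ : L.BoundedFormula Empty (n + 1), φ = ψ.ex ∧ Pre w ψ := by
  cases h with
  | ex h => exact ⟨_, rfl, h⟩

variable {N : Type}

/-- witnesses in an elementary substructure -/
theorem wit [L.Structure N] {B : Set N} (hB : Elm L B) {n : ℕ} (ψ : L.BoundedFormula Empty (n + 1))
    (xs : Fin n → N) (hxs : ∀ i, xs i ∈ B)
    (h : ∃ a : N, ψ.Realize (default : Empty → N) (Fin.snoc xs a)) :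
    ∃ a ∈ B, ψ.Realize (default : Empty → N) (Fin.snoc xs a) := by
  let g : Empty ⊕ Fin (n + 1) → Fin n ⊕ Unit :=
    Sum.elim (fun e => e.elim) (Fin.snoc (α := fun _ => Fin n ⊕ Unit) Sum.inl (Sum.inr ()))
  have key : ∀ a : N, ((ψ.toFormula.relabel g : L.Formula (Fin n ⊕ Unit))).Realize
      (Sum.elim xs fun _ => a) ↔ ψ.Realize (default : Empty → N) (Fin.snoc xs a) := by
    intro a
    rw [FirstOrder.Language.Formula.realize_relabel,
      FirstOrder.Language.BoundedFormula.realize_toFormula]
    have e1 : ((Sum.elim xs fun _ => a) ∘ g) ∘ Sum.inl = (default : Empty → N) :=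
      Subsingleton.elim _ _
    have e2 : ((Sum.elim xs fun _ => a) ∘ g) ∘ Sum.inr = (Fin.snoc xs a : Fin (n + 1) → N) := by
      funext i
      refine Fin.lastCases ?_ (fun j => ?_) i
      · simp [g]
      · simp [g]
    rw [e1, e2]
  obtain ⟨a, ha⟩ := h
  obtain ⟨z, hz, hz2⟩ := hB (Fin n) (ψ.toFormula.relabel g) xs hxs ⟨a, (key a).2 ha⟩
  exact ⟨z, hz, (key z).1 hz2⟩

theorem cp_inj (B : Set N) (i : ℕ) : Function.Injective (cp B i) := by
  intro y y' h
  exact congrArg (fun x : Fus B => x.1.1) h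

theorem cp_B {B : Set N} {y : N} (hy : y ∈ B) (i j : ℕ) : cp B i y = cp B j y := by
  apply Subtype.ext
  simp [cp, hy]

theorem cp_surj (B : Set N) (x : Fus B) : ∃ i, x = cp B i x.1.1 := by
  refine ⟨x.1.2, ?_⟩
  apply Subtype.ext
  by_cases h : x.1.1 ∈ B
  · have h2 := x.2 h
    apply Prod.ext
    · simp [cp]
    · simp [cp, h, h2]
  · apply Prod.ext
    · simp [cp]
    · simp [cp, h]

theorem snoc_cp (B : Set N) (i : ℕ) {n : ℕ} (xs : Fin n → N) (x : N) :
    (Fin.snoc (fun k => cp B i (xs k)) (cp B i x) : Fin (n + 1) → Fus B) =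
      fun k => cp B i ((Fin.snoc xs x : Fin (n + 1) → N) k) := by
  funext k
  refine Fin.lastCases ?_ (fun j => ?_) k
  · simp
  · simp

/-- quantifier-free formulas -/
theorem qf (SN : L.Structure N) {B : Set N} {SX : L.Structure (Fus B)} (h : FS SN B SX) (i : ℕ) {n : ℕ}
    {φ : L.BoundedFormula Empty n} (hφ : φ.IsQF) (xs : Fin n → N) :
    @BoundedFormula.Realize L N SN Empty n φ default xs ↔
      @BoundedFormula.Realize L (Fus B) SX Empty n φ default (fun k => cp B i (xs k)) := by
  let _ := SN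
  let _ := SX
  let f : N ↪[L] Fus B :=
    { toFun := cp B i
      inj' := cp_inj B i
      map_fun' := fun {n} g x => (h.fn i n g x).symm
      map_rel' := fun {n} R x => h.rl i n R x }
  have h1 := hφ.realize_embedding f (v := (default : Empty → N)) (xs := xs)
  rw [← h1]
  have e1 : (f ∘ (default : Empty → N)) = (default : Empty → Fus B) := Subsingleton.elim _ _
  rw [e1]
  rfl

/-- existential formulas -/
theorem ex (SN : L.Structure N) {B : Set N} {SX : L.Structure (Fus B)} (h : FS SN B SX) (i : ℕ) (k : ℕ) :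
    ∀ {n : ℕ} {φ : L.BoundedFormula Empty n}, Pre (List.replicate k false) φ → ∀ xs : Fin n → N,
      @BoundedFormula.Realize L N SN Empty n φ default xs →
      @BoundedFormula.Realize L (Fus B) SX Empty n φ default (fun k => cp B i (xs k)) := by
  induction k with
  | zero =>
    intro n φ hp xs h1
    exact (qf SN h i (inv_nil hp) xs).1 h1
  | succ k ih =>
    intro n φ hp xs h1
    rw [List.replicate_succ] at hp
    obtain ⟨ψ, rfl, hψ⟩ := inv_ex hp
    let _ := SN
    let _ := SX
    rw [BoundedFormula.realize_ex] at h1 ⊢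
    obtain ⟨a, ha⟩ := h1
    refine ⟨cp B i a, ?_⟩
    rw [snoc_cp]
    exact ih hψ _ ha

/-- at most one universal quantifier before -/
theorem all (SN : L.Structure N) {B : Set N} {SX : L.Structure (Fus B)} (h : FS SN B SX) (l : ℕ)
    (hl : l ≤ 1) (k : ℕ) {n : ℕ} {φ : L.BoundedFormula Empty n}
    (hp : Pre (List.replicate l true ++ List.replicate k false) φ) (xs : Fin n → N)
    (hxs : ∀ j, xs j ∈ B) (h1 : @BoundedFormula.Realize L N SN Empty n φ default xs) :
    @BoundedFormula.Realize L (Fus B) SX Empty n φ default (fun k => cp B 0 (xs k)) := by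
  rcases Nat.le_one_iff_eq_zero_or_eq_one.1 hl with rfl | rfl
  · exact ex SN h 0 k (by simpa using hp) xs h1
  · have hp' : Pre (true :: List.replicate k false) φ := by simpa using hp
    obtain ⟨ψ, rfl, hψ⟩ := inv_all hp'
    let _ := SN
    let _ := SX
    rw [BoundedFormula.realize_all] at h1 ⊢
    intro x
    obtain ⟨i, hi⟩ := cp_surj B x
    rw [hi]
    have e1 : (fun k => cp B 0 (xs k)) = fun k => cp B i (xs k) := by
      funext j
      exact cp_B (hxs j) 0 i
    rw [e1, snoc_cp]
    exact ex SN h i k hψ _ (h1 _)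

/-- the existential quantifiers before -/
theorem exall (SN : L.Structure N) {B : Set N} (hB : @Elm L N SN B) {SX : L.Structure (Fus B)}
    (h : FS SN B SX) (l : ℕ) (hl : l ≤ 1) (k m : ℕ) :
    ∀ {n : ℕ} {φ : L.BoundedFormula Empty n},
      Pre (List.replicate m false ++ (List.replicate l true ++ List.replicate k false)) φ →
      ∀ xs : Fin n → N, (∀ j, xs j ∈ B) → @BoundedFormula.Realize L N SN Empty n φ default xs →
      @BoundedFormula.Realize L (Fus B) SX Empty n φ default (fun k => cp B 0 (xs k)) := by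
  induction m with
  | zero =>
    intro n φ hp xs hxs h1
    exact all SN h l hl k (by simpa using hp) xs hxs h1
  | succ m ih =>
    intro n φ hp xs hxs h1
    rw [List.replicate_succ, List.cons_append] at hp
    obtain ⟨ψ, rfl, hψ⟩ := inv_ex hp
    let _ := SN
    let _ := SX
    rw [BoundedFormula.realize_ex] at h1 ⊢
    obtain ⟨a, ha, h2⟩ := wit hB ψ xs hxs h1
    refine ⟨cp B 0 a, ?_⟩
    rw [snoc_cp]
    refine ih hψ _ ?_ h2
    intro j
    refine Fin.lastCases ?_ (fun j => ?_) j
    · simpa using ha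
    · simpa using hxs j

end FUPx

theorem thm_FUP : St_FUP := by
  intro L N SN B hB SX h φ w hp hw h1
  obtain ⟨m, l, n, hl, rfl⟩ := hw
  have h2 := FUPx.exall SN hB h l hl n m hp default (fun j => j.elim0) h1
  have e1 : (fun k => cp B 0 ((default : Fin 0 → N) k)) = (default : Fin 0 → Fus B) :=
    Subsingleton.elim _ _
  rw [e1] at h2
  exact h2

end Pool.Agent.VOD
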