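import Pool.Agent.VOD.StA

/-!
# VOD [GSR]: truth of quantifier-free formulas in the structure of a code structure
-/

set_option autoImplicit false

namespace Pool.Agent.VOD

open FirstOrder Set VPF
open FirstOrder.Language
open Pool.Agent.EAE (EAEA)

/-- terms are variables -/
theorem GSR_term {L : FirstOrder.Language.{0, 0}} (hF : ∀ n, IsEmpty (L.Functions n)) {n : ℕ}
    (t : L.Term (Empty ⊕ Fin n)) : ∃ i : Fin n, t = &i := by
  cases t with
  | var x =>
    rcases x with x | x
    · exact x.elim
    · exact ⟨x, rfl⟩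
  | func f _ => exact ((hF _).false f).elim

theorem GSR_eq {L : FirstOrder.Language.{0, 0}} (S : L.Structure ℕ) {n : ℕ} (i j : Fin n)
    (v : Fin n → ℕ) :
    @BoundedFormula.Realize L ℕ S Empty n ((&i : L.Term (Empty ⊕ Fin n)).bdEqual &j) default v ↔
      v i = v j := by
  let _ := S
  rw [BoundedFormula.realize_bdEqual]
  exact Iff.rfl

theorem GSR_ao {L : FirstOrder.Language.{0, 0}} (S : L.Structure ℕ) {n : ℕ} (R : L.Relations n)
    (ρ : Fin n → Fin 3) (v : Fin 3 → ℕ) :
    @BoundedFormula.Realize L ℕ S Empty 3 (ao R ρ) default v ↔ S.RelMap R fun k => v (ρ k) := by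
  let _ := S
  unfold ao
  rw [BoundedFormula.realize_rel]
  exact Iff.rfl

theorem thm_GSR (hDGX : St_DGX) : St_GSR := by
  intro L hF N hN θ h t v hv
  obtain ⟨-, hinj, -, -, -⟩ := hDGX L N hN
  induction h with
  | falsum =>
    constructor
    · intro h
      exact (hN.bot t h).elim
    · intro h
      exact False.elim h
  | of_isAtomic h =>
    cases h with
    | equal t₁ t₂ =>
      obtain ⟨i, rfl⟩ := GSR_term hF t₁
      obtain ⟨j, rfl⟩ := GSR_term hF t₂
      rw [GSR_eq, hN.eq i j _ t, hv i, hv j]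
      exact hinj.eq_iff
    | rel R ts =>
      choose ρ hρ using fun k => GSR_term hF (ts k)
      obtain rfl : ts = fun k => &(ρ k) := funext hρ
      have key : uu N (ao R ρ) (ao_qf R ρ) t ↔
          @BoundedFormula.Realize L ℕ (gs hF N) Empty 3 (ao R ρ) default v := by
        rw [GSR_ao]
        constructor
        · intro h
          exact ⟨ρ, t, fun k => hv (ρ k), h⟩
        · rintro ⟨ρ', s, h1, h2⟩
          refine (hN.rel _ R ρ ρ' s t fun k => ?_).mpr h2
          rw [hv, h1]
      exact key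
  | imp h₁ h₂ ih₁ ih₂ =>
    rw [hN.imp _ _ h₁ h₂ _ t, ih₁, ih₂]
    exact Iff.rfl

end Pool.Agent.VOD
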