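import Pool.Agent.VOD.StC

/-!
# VOD, module KEA: conditions of the form `∃ ∀` pass to the models of the theory
-/

set_option autoImplicit false

namespace Pool.Agent.VOD

open FirstOrder Set VPF
open FirstOrder.Language

private theorem KEA_real (R : FirstOrder.Language.{0, 0}) (Φ : R.Structure ℕ → (Fin 2 → ℕ) → Prop)
    (χ : R.BoundedFormula Empty 2)
    (hχ : ∀ (S : R.Structure ℕ) (v : Fin 2 → ℕ), @BoundedFormula.Realize R ℕ S Empty 2 χ default v ↔
      Φ S v) (S : R.Structure ℕ) :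
    @Sentence.Realize R ℕ S χ.all.ex ↔ ∃ x, ∀ y, Φ S ![x, y] := by
  let _ := S
  unfold Sentence.Realize Formula.Realize
  simp only [BoundedFormula.realize_all, BoundedFormula.realize_ex]
  refine exists_congr fun x => forall_congr' fun y => ?_
  rw [← hχ S]
  have e1 : ∀ v w : Fin 2 → ℕ, v = w → ∀ d d' : Empty → ℕ, (χ.Realize d v ↔ χ.Realize d' w) := by
    rintro v _ rfl d d'
    rw [Subsingleton.elim d d']
  exact e1 _ _ (by funext k; fin_cases k <;> rfl) _ _

/-- **KEA**. -/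
theorem thm_KEA : St_KEA := by
  intro R D C Φ hD hQ hC S hS
  obtain ⟨χ, hq, hχ⟩ := hQ
  have hmem : (χ.all.ex : R.Sentence) ∈ TC D C :=
    ⟨⟨[false, true], hD, Pre.ex (Pre.all (Pre.qf hq))⟩, fun S' hS' =>
      (KEA_real R Φ χ hχ S').2 (hC S' hS')⟩
  exact (KEA_real R Φ χ hχ S).1 (@Theory.realize_sentence_of_mem R ℕ S (TC D C) hS _ hmem)

end Pool.Agent.VOD
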