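import Pool.Agent.VOD.StA

/-!
# VOD, module POS (helper64)
-/

set_option autoImplicit false
set_option linter.unusedVariables false

namespace Pool.Agent.VOD

open FirstOrder Set VPF
open FirstOrder.Language
open Pool.Agent.EAE (EAEA)

variable {L : FirstOrder.Language.{0, 0}}

/-- isomorphisms as bijections -/
theorem POS_iso (L : FirstOrder.Language.{0, 0}) (S S' : L.Structure ℕ) :
    Nonempty (@FirstOrder.Language.Equiv L ℕ ℕ S S') ↔ ∃ σ : ℕ ≃ ℕ,
      (∀ (n : ℕ) (F : L.Functions n) (v : Fin n → ℕ), σ (S.funMap F v) = S'.funMap F fun k => σ (v k)) ∧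
      ∀ (n : ℕ) (R : L.Relations n) (v : Fin n → ℕ), (S'.RelMap R fun k => σ (v k)) ↔ S.RelMap R v := by
  constructor
  · rintro ⟨e⟩
    exact ⟨@FirstOrder.Language.Equiv.toEquiv L ℕ ℕ S S' e,
      fun n F v => @FirstOrder.Language.Equiv.map_fun' L ℕ ℕ S S' e n F v,
      fun n R v => @FirstOrder.Language.Equiv.map_rel' L ℕ ℕ S S' e n R v⟩
  · rintro ⟨σ, h1, h2⟩
    exact ⟨@FirstOrder.Language.Equiv.mk L ℕ ℕ S S' σ (fun {n} F v => h1 n F v) fun {n} R v => h2 n R v⟩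

/-- an isomorphism preserves quantifier-free formulas -/
theorem POS_bdg {M N : Type} [SM : L.Structure M] [SN : L.Structure N] (e : M ≃[L] N) {n : ℕ}
    (θ : L.BoundedFormula Empty n) (u : Empty → M) (u' : Empty → N) (v : Fin n → M) :
    θ.Realize u v ↔ θ.Realize u' fun k => e.toEquiv (v k) := by
  have h1 := StrongHomClass.realize_boundedFormula e θ (v := u) (xs := v)
  have h2 : (e ∘ u) = u' := Subsingleton.elim _ _
  rw [h2] at h1
  exact h1.symm

theorem POS_bd (S S' : L.Structure ℕ) (σ : ℕ ≃ ℕ)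
    (h1 : ∀ (n : ℕ) (F : L.Functions n) (v : Fin n → ℕ), σ (S.funMap F v) = S'.funMap F fun k => σ (v k))
    (h2 : ∀ (n : ℕ) (R : L.Relations n) (v : Fin n → ℕ), (S'.RelMap R fun k => σ (v k)) ↔ S.RelMap R v)
    {n : ℕ} (θ : L.BoundedFormula Empty n) (u u' : Empty → ℕ) (v : Fin n → ℕ) :
    @BoundedFormula.Realize L ℕ S Empty n θ u v ↔
      @BoundedFormula.Realize L ℕ S' Empty n θ u' fun k => σ (v k) :=
  @POS_bdg L ℕ ℕ S S' (@FirstOrder.Language.Equiv.mk L ℕ ℕ S S' σ (fun {n} F v => h1 n F v)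
    fun {n} R v => h2 n R v) n θ u u' v

/-- an isomorphism preserves one-dimensional formulas -/
theorem POS_sat (S S' : L.Structure ℕ) (σ : ℕ ≃ ℕ)
    (h1 : ∀ (n : ℕ) (F : L.Functions n) (v : Fin n → ℕ), σ (S.funMap F v) = S'.funMap F fun k => σ (v k))
    (h2 : ∀ (n : ℕ) (R : L.Relations n) (v : Fin n → ℕ), (S'.RelMap R fun k => σ (v k)) ↔ S.RelMap R v)
    (φ : Fo L) : ∀ a : ℕ → ℕ, φ.Sat S a ↔ φ.Sat S' fun i => σ (a i) := by
  induction φ with
  | @qf n θ h v => intro a; exact POS_bd S S' σ h1 h2 θ _ _ _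
  | imp φ ψ ih ih' =>
    intro a
    exact imp_congr (ih a) (ih' a)
  | ex i φ ih =>
    intro a
    constructor
    · rintro ⟨b, hb, h⟩
      exact ⟨fun j => σ (b j), congrArg _ hb, (ih b).1 h⟩
    · rintro ⟨b, hb, h⟩
      refine ⟨fun j => σ.symm (b j), ?_, (ih _).2 ?_⟩
      · show σ.symm (b i) = a i
        rw [hb]
        exact σ.symm_apply_apply _
      · have h3 : (fun j => σ (σ.symm (b j))) = b := funext fun j => σ.apply_symm_apply _
        rw [h3]
        exact h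

/-- isomorphic `L`-structures have isomorphic `Lx L`-structures -/
theorem POS_xp {S S' : L.Structure ℕ} (h : Nonempty (@FirstOrder.Language.Equiv L ℕ ℕ S S')) :
    Nonempty (@FirstOrder.Language.Equiv (Lx L) ℕ ℕ (xp S) (xp S')) := by
  obtain ⟨σ, h1, h2⟩ := (POS_iso L S S').1 h
  refine (POS_iso (Lx L) _ _).2 ⟨σ, fun n f _ => Empty.elim f, fun n r v => ?_⟩
  cases r with
  | q θ h => exact (POS_bd S S' σ h1 h2 θ _ _ v).symm
  | p i φ => exact (POS_sat S S' σ h1 h2 (Fo.ex i φ) fun _ => v 0).symm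

/-- the graph of a function in `xp S` -/
theorem POS_gf (S : L.Structure ℕ) {n : ℕ} (F : L.Functions n) (v : Fin n → ℕ) (y : ℕ) :
    (xp S).RelMap (Rl.q (gf F) (gf_qf F) : (Lx L).Relations (n + 1)) (Fin.snoc v y : Fin (n + 1) → ℕ) ↔
      S.funMap F v = y := by
  show @BoundedFormula.Realize L ℕ S Empty (n + 1) (gf F) default (Fin.snoc v y : Fin (n + 1) → ℕ) ↔ _
  rw [gf, gt, BoundedFormula.realize_bdEqual]
  simp

theorem POS_ar (S : L.Structure ℕ) {n : ℕ} (R : L.Relations n) (v : Fin n → ℕ) :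
    (xp S).RelMap (Rl.q (ar R) (ar_qf R) : (Lx L).Relations n) v ↔ S.RelMap R v := by
  show @BoundedFormula.Realize L ℕ S Empty n (ar R) default v ↔ _
  rw [ar, BoundedFormula.realize_rel]
  rfl

/-- structures with isomorphic `Lx L`-structures are isomorphic -/
theorem POS_px {S S' : L.Structure ℕ}
    (h : Nonempty (@FirstOrder.Language.Equiv (Lx L) ℕ ℕ (xp S) (xp S'))) :
    Nonempty (@FirstOrder.Language.Equiv L ℕ ℕ S S') := by
  obtain ⟨σ, -, h2⟩ := (POS_iso (Lx L) _ _).1 h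
  refine (POS_iso L S S').2 ⟨σ, fun n F v => ?_, fun n R v => ?_⟩
  · have h3 := (h2 (n + 1) (Rl.q (gf F) (gf_qf F)) (Fin.snoc v (S.funMap F v))).2
      ((POS_gf S F v _).2 rfl)
    have h4 : (fun k => σ ((Fin.snoc v (S.funMap F v) : Fin (n + 1) → ℕ) k)) =
        (Fin.snoc (fun k => σ (v k)) (σ (S.funMap F v)) : Fin (n + 1) → ℕ) := by
      funext k
      refine Fin.lastCases ?_ (fun j => ?_) k <;> simp
    rw [h4] at h3
    exact ((POS_gf S' F _ _).1 h3).symm
  · exact (POS_ar S' R _).symm.trans ((h2 n (Rl.q (ar R) (ar_qf R)) v).trans (POS_ar S R v))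

/-- [POS] -/
theorem thm_POS (hREV : St_REV) (hRDX : St_RDX) (hODX : St_ODX) (hMOD : St_MOD) (hCTX : St_CTX)
    (hMAI : Pool.Agent.EAE.St_MAI) : St_POS := by
  intro L hL hf T O hT
  set K : Set (L.Structure ℕ) := ModO T O with hK
  set K' : Set ((Lx L).Structure ℕ) := ModF (TC DE (xp '' K)) with hK'
  have hx : ∀ S' ∈ K', xp (rd S') = S' := hODX L hf K
  refine hREV L (Lx L) K K' xp rd ?_ (hMOD L hf T O hT) (fun S _ S' _ h => POS_px h)
    (fun N hN N' hN' h => ?_) ?_ ?_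
  · intro S hS
    exact (@Theory.model_iff (Lx L) ℕ (xp S) _).2 fun ψ hψ => hψ.2 _ ⟨S, hS, rfl⟩
  · have h1 := POS_xp h
    rw [hx N hN, hx N' hN'] at h1
    exact h1
  · intro f hf' h1 h2
    refine ⟨fun n R a => h1 n (Rl.q (ar R) (ar_qf R)) a, fun n F a b => ?_⟩
    have h3 : {x : ℕ → Bool | (rd (f x)).funMap F a = b} =
        {x : ℕ → Bool | (f x).RelMap (Rl.q (gf F) (gf_qf F) : (Lx L).Relations (n + 1))
          (Fin.snoc a b : Fin (n + 1) → ℕ)} := by
      ext x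
      have h4 := POS_gf (rd (f x)) F a b
      rw [hx _ (hf' x)] at h4
      exact h4.symm
    rw [h3]
    exact (h1 (n + 1) (Rl.q (gf F) (gf_qf F)) _).isOpen
  · have hE : ∀ n, IsEmpty ((Lx L).Functions n) := fun n => inferInstanceAs (IsEmpty Empty)
    rcases hMAI (Lx L) (hCTX L hL) hE (TC DE (xp '' K)) (fun ψ hψ => by
      obtain ⟨w, hw, h⟩ := hψ.1
      exact ⟨w, hw, h⟩) with ⟨g, hg⟩ | ⟨f, h1, h2, h3, h4⟩
    · exact Or.inl ⟨g, fun S hS => hg S hS⟩
    · exact Or.inr ⟨f, h1, h2, h3, h4⟩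

end Pool.Agent.VOD
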