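import Pool.Agent.VOD.StC
import Pool.Agent.VOD.POS
import Pool.Agent.VPF.CodI

/-!
# VOD, module KON (helper64)
-/

set_option autoImplicit false
set_option linter.unusedVariables false

namespace Pool.Agent.VOD

open FirstOrder Set VPF Pool.Agent.Helper6.Str
open FirstOrder.Language

variable {L : FirstOrder.Language.{0, 0}}

theorem KON_kp {S S' : L.Structure ℕ} (h : Nonempty (@FirstOrder.Language.Equiv L ℕ ℕ S S')) :
    Nonempty (@FirstOrder.Language.Equiv (Lk L) ℕ ℕ (kp S) (kp S')) := by
  obtain ⟨σ, h1, h2⟩ := (POS_iso L S S').1 h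
  refine (POS_iso (Lk L) _ _).2 ⟨σ, fun n f _ => Empty.elim f, fun n r v => ?_⟩
  cases r with
  | r R => exact h2 n R v
  | c c =>
    show σ (v 0) = S'.funMap c default ↔ v 0 = S.funMap c default
    have h3 : S'.funMap c default = σ (S.funMap c default) := by
      rw [h1 0 c default]
      congr 1
      exact Subsingleton.elim _ _
    rw [h3]
    exact σ.injective.eq_iff

theorem KON_pk (hF : ∀ n, n ≠ 0 → IsEmpty (L.Functions n)) {S S' : L.Structure ℕ}
    (h : Nonempty (@FirstOrder.Language.Equiv (Lk L) ℕ ℕ (kp S) (kp S'))) :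
    Nonempty (@FirstOrder.Language.Equiv L ℕ ℕ S S') := by
  obtain ⟨σ, -, h2⟩ := (POS_iso (Lk L) _ _).1 h
  refine (POS_iso L S S').2 ⟨σ, fun n F v => ?_, fun n R v => h2 n (Rk.r R) v⟩
  by_cases hn : n = 0
  · subst hn
    have h3 : σ (S.funMap F default) = S'.funMap F default :=
      (h2 1 (Rk.c F) fun _ => S.funMap F default).2 (show S.funMap F default = S.funMap F default from rfl)
    obtain rfl : v = default := Subsingleton.elim _ _
    rw [h3]
    congr 1
    exact Subsingleton.elim _ _
  · exact (hF n hn).elim F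

theorem KON_count (hL : Countable L.Symbols) (n : ℕ) : Countable ((Lk L).Relations n) := by
  have h0 : ∀ m, Countable (L.Relations m) := fun m =>
    Function.Injective.countable (f := fun R : L.Relations m => (Sum.inr ⟨m, R⟩ : L.Symbols))
      (fun R R' h => by
        have h1 := Sum.inr.inj h
        exact eq_of_heq (Sigma.mk.inj h1).2)
  have h1 : Countable (L.Functions 0) :=
    Function.Injective.countable (f := fun F : L.Functions 0 => (Sum.inl ⟨0, F⟩ : L.Symbols))
      (fun R R' h => by
        have h1 := Sum.inl.inj h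
        exact eq_of_heq (Sigma.mk.inj h1).2)
  have h2 : Countable ((m : ℕ) × L.Relations m) := inferInstance
  refine Function.Injective.countable (f := fun x : Rk L n =>
    (match n, x with
      | n, Rk.r R => Sum.inl ⟨n, R⟩
      | _, Rk.c c => Sum.inr c : ((m : ℕ) × L.Relations m) ⊕ L.Functions 0)) ?_
  intro x y h
  cases x with
  | r R =>
    cases y with
    | r R' =>
      have h3 := Sum.inl.inj h
      exact congrArg Rk.r (eq_of_heq (Sigma.mk.inj h3).2)
    | c c => exact absurd h (by simp)
  | c c =>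
    cases y with
    | r R' => exact absurd h (by simp)
    | c c' => exact congrArg Rk.c (Sum.inr.inj h)

/-- [KON] -/
theorem thm_KON (hREV : St_REV) (hQDT : St_QDT) (hKTR : St_KTR) (hKEA : St_KEA) : St_KON := by
  intro L hL hF T hT
  set K : Set (L.Structure ℕ) := ModF T with hK
  set K' : Set ((Lk L).Structure ℕ) := ModF (TC DG (kp '' K)) with hK'
  have hkd : ∀ N ∈ K', kp (kd N) = N := by
    intro N hN
    refine Structure.ext ?_ ?_
    · funext n f v
      exact Empty.elim f
    · funext n r v
      cases r with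
      | r R => rfl
      | c c =>
        have h1 : QD (Lk L) 2 fun S v => (S.RelMap (Rk.c c : (Lk L).Relations 1) fun _ => v 1) ↔
            v 1 = v 0 := by
          obtain ⟨q1, q2, -, -, -, q3, -, -⟩ := hQDT (Lk L) 2
          exact q3 _ _ (q2 1 (Rk.c c) fun _ => Term.var (Sum.inr 1))
            (q1 (Term.var (Sum.inr 1)) (Term.var (Sum.inr 0)))
        obtain ⟨x, hx⟩ := hKEA (Lk L) DG (kp '' K) _ ⟨1, 1, 0, by omega, rfl⟩ h1
          (by
            rintro _ ⟨S, hS, rfl⟩
            exact ⟨S.funMap c default, fun y => Iff.rfl⟩) N hN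
        have hx' : ∀ y, (N.RelMap (Rk.c c : (Lk L).Relations 1) fun _ => y) ↔ y = x := hx
        have h2 : (kd N).funMap c default = x :=
          (hx' _).1 (Classical.epsilon_spec (p := fun y : ℕ =>
            N.RelMap (Rk.c c : (Lk L).Relations 1) fun _ => y) ⟨x, (hx' x).2 rfl⟩)
        have h3 : v = fun _ => v 0 := by
          funext i
          exact congrArg v (Subsingleton.elim _ _)
        refine propext ?_
        show v 0 = (kd N).funMap c default ↔ N.RelMap (Rk.c c : (Lk L).Relations 1) v
        rw [h2, h3]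
        exact (hx' (v 0)).symm
  refine hREV L (Lk L) K K' kp kd ?_ ?_ (fun S _ S' _ h => KON_pk hF h)
    (fun N hN N' hN' h => ?_) ?_ ?_
  · intro S hS
    exact (@Theory.model_iff (Lk L) ℕ (kp S) _).2 fun ψ hψ => hψ.2 _ ⟨S, hS, rfl⟩
  · intro N hN
    refine (@Theory.model_iff L ℕ (kd N) _).2 fun φ hφ => ?_
    obtain ⟨w, ⟨m0, k, n, hk, rfl⟩, h⟩ := hT φ hφ
    obtain ⟨m, φ', h1, h2⟩ := hKTR L hF _ φ h
    have h3 : φ' ∈ TC DG (kp '' K) := by
      refine ⟨⟨_, ⟨m + m0, k, n, hk, ?_⟩, h1⟩, ?_⟩
      · rw [List.replicate_add]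
        simp only [List.append_assoc]
      · rintro _ ⟨S, hS, rfl⟩
        exact (h2 S).2 ((@Theory.model_iff L ℕ S _).1 hS φ hφ)
    have h4 : @Sentence.Realize (Lk L) ℕ N φ' := (@Theory.model_iff (Lk L) ℕ N _).1 hN φ' h3
    rw [← hkd N hN] at h4
    exact (h2 (kd N)).1 h4
  · have h1 := KON_kp h
    rw [hkd N hN, hkd N' hN'] at h1
    exact h1
  · intro f hf' h1 h2
    refine ⟨fun n R a => h1 n (Rk.r R) a, fun n F a b => ?_⟩
    by_cases hn : n = 0
    · subst hn
      have h3 : {x : ℕ → Bool | (kd (f x)).funMap F a = b} =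
          {x : ℕ → Bool | (f x).RelMap (Rk.c F : (Lk L).Relations 1) fun _ => b} := by
        ext x
        have h4 : (kp (kd (f x))).RelMap (Rk.c F : (Lk L).Relations 1) (fun _ => b) ↔
            b = (kd (f x)).funMap F default := Iff.rfl
        rw [hkd _ (hf' x)] at h4
        have h5 : (kd (f x)).funMap F a = (kd (f x)).funMap F default := by
          congr 1
          exact Subsingleton.elim _ _
        show (kd (f x)).funMap F a = b ↔ _
        rw [h5]
        exact eq_comm.trans h4.symm
      rw [h3]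
      exact (h1 1 (Rk.c F) _).isOpen
    · exact (hF n hn).elim F
  · have hE : ∀ n, IsEmpty ((Lk L).Functions n) := fun n => inferInstanceAs (IsEmpty Empty)
    have hR : ∀ n, Countable ((Lk L).Relations n) := KON_count hL
    rcases Cls.pos (Lk L) (TC DG (kp '' K)) (fun ψ hψ => by
      obtain ⟨w, hw, h⟩ := hψ.1
      exact ⟨w, hw, h⟩) with ⟨g, hg⟩ | ⟨f, h1, h2, h3⟩
    · exact Or.inl ⟨g, fun S hS => (hg S hS).imp fun n h => CC.equiv_of_iso h⟩
    · exact Or.inr ⟨f, h1, fun x y h => h2 x y (CC.iso_of_equiv h), h3, fun n F => (hE n).elim F⟩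

end Pool.Agent.VOD
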