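import Pool.Agent.VOD.StA

/-!
# VOD, module QDT: quantifier-free definable relations
-/

set_option autoImplicit false
set_option linter.unusedVariables false

namespace Pool.Agent.VOD

open FirstOrder Set VPF
open FirstOrder.Language

private theorem qdt_iff {R : FirstOrder.Language.{0, 0}} {n : ℕ}
    {Φ Ψ : R.Structure ℕ → (Fin n → ℕ) → Prop} (h : ∀ S v, Φ S v ↔ Ψ S v) (hΦ : QD R n Φ) :
    QD R n Ψ := by
  obtain ⟨χ, h1, h2⟩ := hΦ
  exact ⟨χ, h1, fun S v => (h2 S v).trans (h S v)⟩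

private theorem qdt_imp {R : FirstOrder.Language.{0, 0}} {n : ℕ}
    {Φ Ψ : R.Structure ℕ → (Fin n → ℕ) → Prop} (hΦ : QD R n Φ) (hΨ : QD R n Ψ) :
    QD R n fun S v => Φ S v → Ψ S v := by
  obtain ⟨χ, h1, h2⟩ := hΦ
  obtain ⟨χ', h1', h2'⟩ := hΨ
  refine ⟨χ.imp χ', h1.imp h1', fun S v => ?_⟩
  have h3 : @BoundedFormula.Realize R ℕ S Empty n (χ.imp χ') default v ↔
      (@BoundedFormula.Realize R ℕ S Empty n χ default v →
        @BoundedFormula.Realize R ℕ S Empty n χ' default v) := Iff.rfl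
  rw [h3, h2 S v, h2' S v]

private theorem qdt_false (R : FirstOrder.Language.{0, 0}) (n : ℕ) :
    QD R n (fun _ _ => False) := ⟨⊥, BoundedFormula.isQF_bot, fun S v => Iff.rfl⟩

private theorem qdt_not {R : FirstOrder.Language.{0, 0}} {n : ℕ}
    {Φ : R.Structure ℕ → (Fin n → ℕ) → Prop} (hΦ : QD R n Φ) :
    QD R n fun S v => ¬ Φ S v := qdt_imp hΦ (qdt_false R n)

private theorem qdt_and {R : FirstOrder.Language.{0, 0}} {n : ℕ}
    {Φ Ψ : R.Structure ℕ → (Fin n → ℕ) → Prop} (hΦ : QD R n Φ) (hΨ : QD R n Ψ) :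
    QD R n fun S v => Φ S v ∧ Ψ S v := by
  refine qdt_iff (fun S v => ?_) (qdt_not (qdt_imp hΦ (qdt_not hΨ)))
  rw [Classical.not_imp, Classical.not_not]

/-- [QDT] -/
theorem thm_QDT : St_QDT := by
  intro R n
  refine ⟨fun t t' => ⟨t.bdEqual t', (BoundedFormula.IsAtomic.equal _ _).isQF, fun S v => Iff.rfl⟩,
    fun m r ts => ⟨r.boundedFormula ts, (BoundedFormula.IsAtomic.rel _ _).isQF, fun S v => Iff.rfl⟩,
    qdt_false R n, fun Φ Ψ h h' => qdt_imp h h', fun Φ Ψ h h' => qdt_and h h',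
    fun Φ Ψ h h' => qdt_iff (fun S v => ?_) (qdt_and (qdt_imp h h') (qdt_imp h' h)),
    fun Φ h => qdt_not h, fun ι _ => ?_⟩
  · exact iff_iff_implies_and_implies.symm
  · refine Finite.induction_empty_option
      (P := fun ι : Type => ∀ Φ : ι → R.Structure ℕ → (Fin n → ℕ) → Prop, (∀ i, QD R n (Φ i)) →
        QD R n fun S v => ∀ i, Φ i S v) ?_ ?_ ?_ ι
    · intro α β e hα Φ hΦ
      exact qdt_iff (fun S v => e.forall_congr_right (q := fun j => Φ j S v))
        (hα (fun i => Φ (e i)) fun i => hΦ (e i))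
    · intro Φ _
      exact qdt_iff (fun S v => ⟨fun _ i => i.elim, fun _ h => h⟩) (qdt_not (qdt_false R n))
    · intro α _ hα Φ hΦ
      exact qdt_iff (fun S v => Option.forall.symm)
        (qdt_and (hΦ none) (hα (fun i => Φ (some i)) fun i => hΦ (some i)))

end Pool.Agent.VOD
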