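import Pool.Agent.VOD.StC
import Pool.Agent.VOD.QDT

/-!
# VOD / KTR: translation of sentences with constants
-/

set_option autoImplicit false
set_option linter.unusedVariables false

namespace Pool.Agent.VOD

open FirstOrder Set VPF
open FirstOrder.Language

namespace KTRx

variable {L : FirstOrder.Language.{0, 0}}

/-- the values of the constants -/
def cv {m : ℕ} (c : Fin m → L.Functions 0) (S : L.Structure ℕ) (i : Fin m) : ℕ :=
  S.funMap (c i) default

/-- terms become variables -/
theorem term_tr (h0 : ∀ n, n ≠ 0 → IsEmpty (L.Functions n)) {n : ℕ} (t : L.Term (Empty ⊕ Fin n)) :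
    ∃ F : Set (L.Functions 0), F.Finite ∧ ∀ (m : ℕ) (c : Fin m → L.Functions 0), F ⊆ range c →
      ∃ j : Fin (m + n), ∀ (S : L.Structure ℕ) (v : Fin n → ℕ),
        Fin.append (cv c S) v j = @Term.realize L ℕ S _ (Sum.elim default v) t := by
  cases t with
  | var x =>
    rcases x with e | i
    · exact e.elim
    · refine ⟨∅, finite_empty, fun m c _ => ⟨Fin.natAdd m i, fun S v => ?_⟩⟩
      rw [Fin.append_right]
      rfl
  | @func l f ts =>
    rcases l with _ | l
    · refine ⟨{f}, finite_singleton f, fun m c hc => ?_⟩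
      obtain ⟨i, hi⟩ := hc rfl
      refine ⟨Fin.castAdd n i, fun S v => ?_⟩
      rw [Fin.append_left]
      unfold cv
      rw [hi]
      show S.funMap f default = S.funMap f _
      congr 1
      exact Subsingleton.elim _ _
    · exact ((h0 (l + 1) (Nat.succ_ne_zero l)).false f).elim

/-- quantifier-free formulas -/
theorem qf_tr (h0 : ∀ n, n ≠ 0 → IsEmpty (L.Functions n)) {n : ℕ} {θ : L.BoundedFormula Empty n}
    (hθ : θ.IsQF) :
    ∃ F : Set (L.Functions 0), F.Finite ∧ ∀ (m : ℕ) (c : Fin m → L.Functions 0), F ⊆ range c →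
      ∃ θ' : (Lk L).BoundedFormula Empty (m + n), θ'.IsQF ∧
        ∀ (S : L.Structure ℕ) (v : Fin n → ℕ),
          @BoundedFormula.Realize (Lk L) ℕ (kp S) Empty (m + n) θ' default
              (Fin.append (cv c S) v) ↔
            @BoundedFormula.Realize L ℕ S Empty n θ default v := by
  induction hθ with
  | falsum =>
    exact ⟨∅, finite_empty, fun m c _ => ⟨⊥, BoundedFormula.isQF_bot, fun S v => Iff.rfl⟩⟩
  | of_isAtomic h =>
    cases h with
    | equal t1 t2 =>
      obtain ⟨F1, hF1, h1⟩ := term_tr h0 t1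
      obtain ⟨F2, hF2, h2⟩ := term_tr h0 t2
      refine ⟨F1 ∪ F2, hF1.union hF2, fun m c hc => ?_⟩
      obtain ⟨j1, hj1⟩ := h1 m c (subset_union_left.trans hc)
      obtain ⟨j2, hj2⟩ := h2 m c (subset_union_right.trans hc)
      refine ⟨(Term.var (Sum.inr j1)).bdEqual (Term.var (Sum.inr j2)),
        (BoundedFormula.IsAtomic.equal _ _).isQF, fun S v => ?_⟩
      show Fin.append (cv c S) v j1 = Fin.append (cv c S) v j2 ↔
        @Term.realize L ℕ S _ (Sum.elim default v) t1 =
          @Term.realize L ℕ S _ (Sum.elim default v) t2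
      rw [hj1, hj2]
    | @rel l R ts =>
      choose F hF h1 using fun i => term_tr h0 (ts i)
      refine ⟨⋃ i, F i, finite_iUnion hF, fun m c hc => ?_⟩
      choose j hj using fun i => h1 i m c ((subset_iUnion F i).trans hc)
      refine ⟨Relations.boundedFormula (L := Lk L) (Rk.r R : (Lk L).Relations l)
          fun i => Term.var (Sum.inr (j i)),
        (BoundedFormula.IsAtomic.rel _ _).isQF, fun S v => ?_⟩
      show S.RelMap R (fun i => Fin.append (cv c S) v (j i)) ↔
        S.RelMap R (fun i => @Term.realize L ℕ S _ (Sum.elim default v) (ts i))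
      simp only [hj]
  | @imp φ₁ φ₂ _ _ ih1 ih2 =>
    obtain ⟨F1, hF1, h1⟩ := ih1
    obtain ⟨F2, hF2, h2⟩ := ih2
    refine ⟨F1 ∪ F2, hF1.union hF2, fun m c hc => ?_⟩
    obtain ⟨θ1, q1, e1⟩ := h1 m c (subset_union_left.trans hc)
    obtain ⟨θ2, q2, e2⟩ := h2 m c (subset_union_right.trans hc)
    refine ⟨θ1.imp θ2, q1.imp q2, fun S v => ?_⟩
    show (@BoundedFormula.Realize (Lk L) ℕ (kp S) Empty (m + n) θ1 default
        (Fin.append (cv c S) v) →
      @BoundedFormula.Realize (Lk L) ℕ (kp S) Empty (m + n) θ2 default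
        (Fin.append (cv c S) v)) ↔
      (@BoundedFormula.Realize L ℕ S Empty n φ₁ default v →
        @BoundedFormula.Realize L ℕ S Empty n φ₂ default v)
    rw [e1, e2]

/-- the first variables are the constants -/
theorem conj {m : ℕ} (c : Fin m → L.Functions 0) (n : ℕ) :
    ∃ χ : (Lk L).BoundedFormula Empty (m + n), χ.IsQF ∧
      ∀ (S : L.Structure ℕ) (z : Fin m → ℕ) (v : Fin n → ℕ),
        @BoundedFormula.Realize (Lk L) ℕ (kp S) Empty (m + n) χ default (Fin.append z v) ↔
          z = cv c S := by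
  obtain ⟨-, h1, -, -, -, -, -, h2⟩ := thm_QDT (Lk L) (m + n)
  obtain ⟨χ, hχ, e⟩ := h2 (Fin m) (fun i N u =>
    N.RelMap (Rk.c (c i) : (Lk L).Relations 1) fun k =>
      @Term.realize (Lk L) ℕ N _ (Sum.elim (default : Empty → ℕ) u)
        ((fun _ => Term.var (Sum.inr (Fin.castAdd n i))) k))
    (fun i => h1 1 (Rk.c (c i)) fun _ => Term.var (Sum.inr (Fin.castAdd n i)))
  refine ⟨χ, hχ, fun S z v => ?_⟩
  rw [e (kp S)]
  constructor
  · intro h
    funext i
    have h3 : Fin.append z v (Fin.castAdd n i) = S.funMap (c i) default := h i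
    rw [Fin.append_left] at h3
    exact h3
  · intro h i
    show Fin.append z v (Fin.castAdd n i) = S.funMap (c i) default
    rw [Fin.append_left, h]
    rfl

theorem append_snoc {m n : ℕ} (z : Fin m → ℕ) (v : Fin n → ℕ) (x : ℕ) :
    (Fin.snoc (Fin.append z v) x : Fin (m + n + 1) → ℕ) =
      (Fin.append z (Fin.snoc v x : Fin (n + 1) → ℕ) : Fin (m + (n + 1)) → ℕ) := by
  exact (Fin.append_snoc z v x).symm

/-- formulas in prenex form -/
theorem pre_tr (h0 : ∀ n, n ≠ 0 → IsEmpty (L.Functions n)) {n : ℕ} {w : List Bool}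
    {ψ : L.BoundedFormula Empty n} (hψ : Pre w ψ) :
    ∃ F : Set (L.Functions 0), F.Finite ∧ ∀ (m : ℕ) (c : Fin m → L.Functions 0), F ⊆ range c →
      ∃ ψ' : (Lk L).BoundedFormula Empty (m + n), Pre w ψ' ∧
        ∀ (S : L.Structure ℕ) (z : Fin m → ℕ) (v : Fin n → ℕ),
          @BoundedFormula.Realize (Lk L) ℕ (kp S) Empty (m + n) ψ' default
              (Fin.append z v) ↔
            (z = cv c S ∧ @BoundedFormula.Realize L ℕ S Empty n ψ default v) := by
  induction hψ with
  | @qf n θ hθ =>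
    obtain ⟨F, hF, h⟩ := qf_tr h0 hθ
    refine ⟨F, hF, fun m c hc => ?_⟩
    obtain ⟨θ', hθ', e⟩ := h m c hc
    obtain ⟨χ, hχ, e'⟩ := conj c n
    refine ⟨(χ.imp θ'.not).not, Pre.qf ((hχ.imp hθ'.not).not), fun S z v => ?_⟩
    have e1 := e' S z v
    have e2 : @BoundedFormula.Realize (Lk L) ℕ (kp S) Empty (m + n) (χ.imp θ'.not).not default
        (Fin.append z v) ↔ ¬ (@BoundedFormula.Realize (Lk L) ℕ (kp S) Empty (m + n) χ default
        (Fin.append z v) → ¬ @BoundedFormula.Realize (Lk L) ℕ (kp S) Empty (m + n) θ' default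
        (Fin.append z v)) := Iff.rfl
    rw [e2, e1, Classical.not_imp, Classical.not_not]
    constructor
    · rintro ⟨rfl, h2⟩
      exact ⟨rfl, (e S v).1 h2⟩
    · rintro ⟨rfl, h2⟩
      exact ⟨rfl, (e S v).2 h2⟩
  | @all n w χ _ ih =>
    obtain ⟨F, hF, h⟩ := ih
    refine ⟨F, hF, fun m c hc => ?_⟩
    obtain ⟨χ', hχ', e⟩ := h m c hc
    refine ⟨BoundedFormula.all (n := m + n) χ', Pre.all hχ', fun S z v => ?_⟩
    show (∀ x : ℕ, @BoundedFormula.Realize (Lk L) ℕ (kp S) Empty (m + n + 1) χ' default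
        (Fin.snoc (Fin.append z v) x)) ↔
      (z = cv c S ∧ ∀ x : ℕ, @BoundedFormula.Realize L ℕ S Empty (n + 1) χ default
        (Fin.snoc v x))
    have e1 : ∀ x : ℕ, @BoundedFormula.Realize (Lk L) ℕ (kp S) Empty (m + n + 1) χ' default
        (Fin.snoc (Fin.append z v) x) ↔ (z = cv c S ∧
          @BoundedFormula.Realize L ℕ S Empty (n + 1) χ default (Fin.snoc v x)) := by
      intro x
      rw [append_snoc]
      exact e S z (Fin.snoc v x)
    constructor
    · intro h
      exact ⟨((e1 0).1 (h 0)).1, fun x => ((e1 x).1 (h x)).2⟩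
    · rintro ⟨h2, h3⟩ x
      exact (e1 x).2 ⟨h2, h3 x⟩
  | @ex n w χ _ ih =>
    obtain ⟨F, hF, h⟩ := ih
    refine ⟨F, hF, fun m c hc => ?_⟩
    obtain ⟨χ', hχ', e⟩ := h m c hc
    refine ⟨BoundedFormula.ex (n := m + n) χ', Pre.ex hχ', fun S z v => ?_⟩
    have e1 : ∀ x : ℕ, @BoundedFormula.Realize (Lk L) ℕ (kp S) Empty (m + n + 1) χ' default
        (Fin.snoc (Fin.append z v) x) ↔ (z = cv c S ∧
          @BoundedFormula.Realize L ℕ S Empty (n + 1) χ default (Fin.snoc v x)) := by
      intro x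
      rw [append_snoc]
      exact e S z (Fin.snoc v x)
    have e2 : @BoundedFormula.Realize (Lk L) ℕ (kp S) Empty (m + n)
        (BoundedFormula.ex (n := m + n) χ') default (Fin.append z v) ↔
        ∃ x : ℕ, @BoundedFormula.Realize (Lk L) ℕ (kp S) Empty (m + n + 1) χ' default
        (Fin.snoc (Fin.append z v) x) := @BoundedFormula.realize_ex (Lk L) ℕ (kp S) _ _ _ _ _
    have e3 : @BoundedFormula.Realize L ℕ S Empty n χ.ex default v ↔
        ∃ x : ℕ, @BoundedFormula.Realize L ℕ S Empty (n + 1) χ default (Fin.snoc v x) :=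
      @BoundedFormula.realize_ex L ℕ S _ _ _ _ _
    rw [e2, e3]
    simp only [e1]
    exact exists_and_left

/-- the prefix of `φ.exs` -/
theorem exs_pre {R : FirstOrder.Language.{0, 0}} : ∀ (n : ℕ) (w : List Bool)
    (φ : R.BoundedFormula Empty n), Pre w φ → Pre (List.replicate n false ++ w) φ.exs
  | 0, w, φ, h => h
  | n + 1, w, φ, h => by
    have h1 := exs_pre n (false :: w) φ.ex (Pre.ex h)
    have e : List.replicate (n + 1) false ++ w = List.replicate n false ++ false :: w := by
      rw [List.replicate_succ', List.append_assoc, List.singleton_append]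
    rw [e]
    exact h1

theorem def_eq : (@default (Empty → ℕ) Unique.instInhabited) =
    (@default (Empty → ℕ) Pi.instInhabited) := Subsingleton.elim _ _

end KTRx

open KTRx in
/-- [KTR] translation of sentences with constants -/
theorem thm_KTR : St_KTR := by
  intro L h0 w φ hφ
  obtain ⟨F, hF, h⟩ := pre_tr h0 hφ
  have : Finite F := hF
  obtain ⟨m, ⟨g⟩⟩ := Finite.exists_equiv_fin F
  obtain ⟨ψ, hψ, e⟩ := h m (fun i => (g.symm i : L.Functions 0)) (by
    intro x hx
    refine ⟨g ⟨x, hx⟩, ?_⟩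
    show ((g.symm (g ⟨x, hx⟩) : F) : L.Functions 0) = x
    rw [Equiv.symm_apply_apply])
  refine ⟨m, BoundedFormula.exs (n := m) ψ, exs_pre m w ψ hψ, fun S => ?_⟩
  have e1 : @Sentence.Realize (Lk L) ℕ (kp S) (BoundedFormula.exs (n := m) ψ) ↔
      ∃ z : Fin m → ℕ, @BoundedFormula.Realize (Lk L) ℕ (kp S) Empty m ψ
        (@default (Empty → ℕ) Unique.instInhabited) z :=
    @BoundedFormula.realize_exs (Lk L) ℕ (kp S) _ _ _ _
  rw [e1, def_eq]
  have e2 : ∀ z : Fin m → ℕ, Fin.append z (default : Fin 0 → ℕ) = z := by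
    intro z
    funext i
    have h3 := Fin.append_left z (default : Fin 0 → ℕ) i
    exact h3
  have e3 : ∀ z : Fin m → ℕ, @BoundedFormula.Realize (Lk L) ℕ (kp S) Empty m ψ default z ↔
      (z = cv (fun i => (g.symm i : L.Functions 0)) S ∧
        @BoundedFormula.Realize L ℕ S Empty 0 φ default default) := by
    intro z
    have := e S z default
    rw [e2 z] at this
    exact this
  simp only [e3]
  rw [exists_eq_left]
  unfold Sentence.Realize Formula.Realize
  rw [def_eq]
  refine Iff.of_eq ?_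
  congr 1
  exact Subsingleton.elim _ _

end Pool.Agent.VOD
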