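import Pool.Agent.VOD.ODX

/-!
# VOD, module MOD: the reduct is in the class (helper3)
-/

set_option autoImplicit false

namespace Pool.Agent.VOD

open FirstOrder Set VPF
open FirstOrder.Language
open Pool.Agent.EAE (EAEA)

/-- formulas with a prefix go over to `Lx L` -/
theorem MOD_tr {L : FirstOrder.Language.{0, 0}} {n : ℕ} {w : List Bool}
    {φ : L.BoundedFormula Empty n} (h : Pre w φ) :
    ∃ φ' : (Lx L).BoundedFormula Empty n, Pre w φ' ∧ ∀ (S : L.Structure ℕ) (u : Empty → ℕ)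
      (v : Fin n → ℕ), @BoundedFormula.Realize (Lx L) ℕ (xp S) Empty n φ' u v ↔
        @BoundedFormula.Realize L ℕ S Empty n φ u v := by
  induction h with
  | @qf n φ hq =>
    refine ⟨@Relations.boundedFormula (Lx L) Empty n n (Rl.q φ hq) fun k => &k,
      Pre.qf (BoundedFormula.IsAtomic.rel _ _).isQF, fun S u v => ?_⟩
    have e1 := @BoundedFormula.realize_rel (Lx L) ℕ (xp S) Empty n u v n (Rl.q φ hq) fun k => &k
    rw [e1, Subsingleton.elim u default]
    exact Iff.rfl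
  | @all n w φ _ ih =>
    obtain ⟨φ', h1, h2⟩ := ih
    refine ⟨φ'.all, Pre.all h1, fun S u v => ?_⟩
    have e1 := @BoundedFormula.realize_all (Lx L) ℕ (xp S) Empty n φ' u v
    have e2 := @BoundedFormula.realize_all L ℕ S Empty n φ u v
    rw [e1, e2]
    exact forall_congr' fun a => h2 S _ _
  | @ex n w φ _ ih =>
    obtain ⟨φ', h1, h2⟩ := ih
    refine ⟨φ'.ex, Pre.ex h1, fun S u v => ?_⟩
    have e1 := @BoundedFormula.realize_ex (Lx L) ℕ (xp S) Empty n φ' u v
    have e2 := @BoundedFormula.realize_ex L ℕ S Empty n φ u v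
    rw [e1, e2]
    exact exists_congr fun a => h2 S _ _

theorem thm_MOD (hQDT : St_QDT) (hUNI : St_UNI) (hODX : St_ODX) : St_MOD := by
  intro L hL T O hT S' hS'
  have hx : xp (rd S') = S' := hODX L hL _ S' hS'
  have hT2 : ∀ φ ∈ T, @Sentence.Realize L ℕ (rd S') φ := by
    intro φ hφ
    obtain ⟨w, hw, hp⟩ := hT φ hφ
    obtain ⟨φ', h1, h2⟩ := MOD_tr hp
    have hmem : φ' ∈ TC DE (xp '' ModO T O) := by
      refine ⟨⟨w, hw, h1⟩, ?_⟩
      rintro _ ⟨S, hS, rfl⟩
      have h3 : @Sentence.Realize L ℕ S φ :=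
        @Theory.realize_sentence_of_mem L ℕ S T hS.1 φ hφ
      exact (h2 S _ _).2 h3
    have h4 : @Sentence.Realize (Lx L) ℕ S' φ' :=
      @Theory.realize_sentence_of_mem (Lx L) ℕ S' _ hS' φ' hmem
    rw [← hx] at h4
    exact (h2 (rd S') _ _).1 h4
  refine ⟨?_, ?_⟩
  · exact (@Theory.model_iff L ℕ (rd S') T).2 hT2
  · intro φ hφ a
    obtain ⟨N, hN⟩ := S2_dep φ
    let ρ : ℕ → Fin (N + 1) := fun j => ⟨min j N, by omega⟩
    have h1 := hUNI (Lx L) DE (xp '' ModO T O) (N + 1) _ (ODX_u _) (S2_qd hQDT φ ρ) (by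
      rintro _ ⟨S, hS, rfl⟩ v
      exact (S2_sat S φ _).2 (hS.2 φ hφ _)) S' hS' (fun k => a k)
    have h2 : S2 S' φ a := by
      refine (hN S' (fun j => a ((ρ j : Fin (N + 1)) : ℕ)) a fun j hj => ?_).1 h1
      change a (min j N) = a j
      rw [min_eq_left hj.le]
    rw [← hx] at h2
    exact (S2_sat (rd S') φ a).1 h2

end Pool.Agent.VOD
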