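import Pool.Agent.VOD.StA
import Pool.Agent.VPF.CodI

/-!
# VOD, module NEG (helper64)
-/

set_option autoImplicit false
set_option linter.unusedVariables false

namespace Pool.Agent.VOD

open FirstOrder Set VPF Pool.Agent.Helper6.Str
open FirstOrder.Language
open Pool.Agent.EAE (EAEA)

variable {L : FirstOrder.Language.{0, 0}}

theorem NEG_dich (K : Set (L.Structure ℕ)) (hrel : ∀ n, IsEmpty (L.Functions n)) (h : Dich K) :
    CtblK K ∨ PerfK K := by
  rcases h with ⟨g, hg⟩ | ⟨f, h1, h2, h3, -⟩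
  · exact Or.inl ⟨g, fun S hS => (hg S hS).imp fun n h => CC.iso_of_equiv h⟩
  · exact Or.inr ⟨f, h1, fun x y h => h2 x y (CC.equiv_of_iso h), h3⟩

theorem NEG_count (hR : ∀ n, Countable (L.Relations n)) (hF : ∀ n, IsEmpty (L.Functions n)) :
    Countable (L3 L).Symbols := by
  have hc : Countable L.Symbols := by
    have h3 : Countable ((n : ℕ) × L.Relations n) := inferInstance
    have h4 : Countable ((n : ℕ) × L.Functions n) := by
      have : IsEmpty ((n : ℕ) × L.Functions n) := ⟨fun x => isEmptyElim x.2⟩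
      infer_instance
    exact inferInstanceAs (Countable (((n : ℕ) × L.Functions n) ⊕ ((n : ℕ) × L.Relations n)))
  have h1 : Countable (L.BoundedFormula Empty 3) := by
    have h2 : Countable (Σ n, L.BoundedFormula Empty n) := inferInstance
    refine Function.Injective.countable
      (f := fun θ : L.BoundedFormula Empty 3 => (⟨3, θ⟩ : Σ n, L.BoundedFormula Empty n)) ?_
    intro θ θ' h
    exact eq_of_heq (Sigma.mk.inj h).2
  have h5 : ∀ n, Countable (Fn3 n) := by
    intro n
    refine Function.Injective.countable (f := fun x : Fn3 n => (match x with | Fn3.pr k => k : Fin 3)) ?_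
    rintro ⟨k⟩ ⟨k'⟩ h
    exact congrArg Fn3.pr h
  have h6 : ∀ n, Countable (Rl3 L n) := by
    intro n
    refine Function.Injective.countable
      (f := fun x : Rl3 L n => (match x with | Rl3.u θ _ => θ : L.BoundedFormula Empty 3)) ?_
    rintro ⟨θ, h⟩ ⟨θ', h'⟩ h1
    obtain rfl : θ = θ' := h1
    rfl
  have h7 : Countable ((n : ℕ) × Fn3 n) := inferInstance
  have h8 : Countable ((n : ℕ) × Rl3 L n) := inferInstance
  exact inferInstanceAs (Countable (((n : ℕ) × Fn3 n) ⊕ ((n : ℕ) × Rl3 L n)))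

/-- [NEG] -/
theorem thm_NEG (hREV : St_REV) (hCDM : St_CDM) (hGSM : St_GSM) (hCDI : St_CDI) (hCDC : St_CDC) :
    St_NEG := by
  intro D d1 d2 d3 d4 H L hL T
  refine thm_C (fun w => w = [true, true, false] ∨ w = [true, true, true]) (Or.inl rfl)
    (Or.inl (Or.inr rfl)) (fun L' hR hF h12 T' hT' => ?_) L hL T
  have hT2 : ∀ φ ∈ T', Pre [true, true, false] φ ∨ Pre [true, true, true] φ := by
    intro φ hφ
    obtain ⟨w, rfl | rfl, h⟩ := hT' φ hφ
    · exact Or.inl h
    · exact Or.inr h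
  have h4 : ∀ n, 4 ≤ n → IsEmpty (L'.Relations n) := fun n hn => h12 n (by omega) (by omega)
  refine NEG_dich _ hF ?_
  obtain ⟨i1, i2⟩ := hCDI L' hF h4
  set K : Set (L'.Structure ℕ) := ModF T' with hK
  set K' : Set ((L3 L').Structure ℕ) := ModF (TC D (cd '' K)) with hK'
  have hc : ∀ N ∈ K', Cds N := hCDM L' hF D d1 d2 d4 K
  refine hREV L' (L3 L') K K' cd (gs hF) ?_ (hGSM L' hF D d1 d2 d3 d4 T' hT2)
    (fun S _ S' _ h => i1 S S' h) (fun N hN N' hN' h => i2 N N' (hc N hN) (hc N' hN') h) ?_ ?_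
  · intro S hS
    exact (@Theory.model_iff (L3 L') ℕ (cd S) _).2 fun ψ hψ => hψ.2 _ ⟨S, hS, rfl⟩
  · intro f hf' h1 h2
    exact ⟨hCDC L' hF h4 f (fun x => hc _ (hf' x)) h1 h2, fun n F => (hF n).elim F⟩
  · refine H (L3 L') (NEG_count hR hF) ?_ ?_ _ fun ψ hψ => hψ.1
    · intro n hn
      exact ⟨fun f => by cases f; exact hn rfl⟩
    · intro n hn
      exact ⟨fun r => by cases r; exact hn rfl⟩

end Pool.Agent.VOD
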