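import Pool.Agent.VOD.StB
import Pool.Agent.VOD.NEG
import Pool.Agent.VOD.POS

/-!
# VOD, module NE4 (helper64)
-/

set_option autoImplicit false
set_option linter.unusedVariables false

namespace Pool.Agent.VOD

open FirstOrder Set VPF Pool.Agent.Helper6.Str
open FirstOrder.Language
open Pool.Agent.EAE (EAEA)

variable {L : FirstOrder.Language.{0, 0}}

theorem NE4_rd (S : L.Structure ℕ) : rd4 (cd4 S) = cd S := by
  refine Structure.ext ?_ rfl
  funext n f v
  cases f
  rfl

theorem NE4_count (hR : ∀ n, Countable (L.Relations n)) (hF : ∀ n, IsEmpty (L.Functions n)) :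
    Countable (L4 L).Symbols := by
  have h0 := NEG_count hR hF
  have h5 : ∀ n, Countable (Fn4 n) := by
    intro n
    refine Function.Injective.countable (f := fun x : Fn4 n =>
      (match x with | Fn4.pr k => Sum.inl k | Fn4.jn b => Sum.inr b : Fin 3 ⊕ Bool)) ?_
    intro x y h
    cases x <;> cases y <;> simp_all
  have h6 : ∀ n, Countable (Rl3 L n) := by
    intro n
    exact Function.Injective.countable (f := fun R : Rl3 L n => (Sum.inr ⟨n, R⟩ : (L3 L).Symbols))
      (fun R R' h => by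
        have h1 := Sum.inr.inj h
        exact eq_of_heq (Sigma.mk.inj h1).2)
  have h7 : Countable ((n : ℕ) × Fn4 n) := inferInstance
  have h8 : Countable ((n : ℕ) × Rl3 L n) := inferInstance
  exact inferInstanceAs (Countable (((n : ℕ) × Fn4 n) ⊕ ((n : ℕ) × Rl3 L n)))

/-- isomorphisms of the reducts -/
theorem NE4_red {N N' : (L4 L).Structure ℕ} (h : Nonempty (@FirstOrder.Language.Equiv (L4 L) ℕ ℕ N N')) :
    Nonempty (@FirstOrder.Language.Equiv (L3 L) ℕ ℕ (rd4 N) (rd4 N')) := by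
  obtain ⟨σ, h1, h2⟩ := (POS_iso (L4 L) N N').1 h
  refine (POS_iso (L3 L) _ _).2 ⟨σ, fun n f v => ?_, fun n r v => h2 n r v⟩
  cases f with
  | pr k => exact h1 1 (Fn4.pr k) v

/-- [NE4] -/
theorem thm_NE4 (hREV : St_REV) (hCD4 : St_CD4) (hGS4 : St_GS4) (hCDI : St_CDI) (hCDC : St_CDC) :
    St_NE4 := by
  intro D d1 d2 d3 H L hL T
  refine thm_C (fun w => w = [true, true, false] ∨ w = [true, true, true]) (Or.inl rfl)
    (Or.inl (Or.inr rfl)) (fun L' hR hF h12 T' hT' => ?_) L hL T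
  have hT2 : ∀ φ ∈ T', Pre [true, true, false] φ ∨ Pre [true, true, true] φ := by
    intro φ hφ
    obtain ⟨w, rfl | rfl, h⟩ := hT' φ hφ
    · exact Or.inl h
    · exact Or.inr h
  have h4 : ∀ n, 4 ≤ n → IsEmpty (L'.Relations n) := fun n hn => h12 n (by omega) (by omega)
  refine NEG_dich _ hF ?_
  obtain ⟨i1, i2⟩ := hCDI L' hF h4
  set K : Set (L'.Structure ℕ) := ModF T' with hK
  set K' : Set ((L4 L').Structure ℕ) := ModF (TC D (cd4 '' K)) with hK'
  have hc := hCD4 L' hF D d1 d2 K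
  refine hREV L' (L4 L') K K' cd4 (fun N => gs hF (rd4 N)) ?_ (hGS4 L' hF D d1 d2 d3 T' hT2)
    (fun S _ S' _ h => ?_) (fun N hN N' hN' h => ?_) ?_ ?_
  · intro S hS
    exact (@Theory.model_iff (L4 L') ℕ (cd4 S) _).2 fun ψ hψ => hψ.2 _ ⟨S, hS, rfl⟩
  · have h1 := NE4_red h
    rw [NE4_rd, NE4_rd] at h1
    exact i1 S S' h1
  · obtain ⟨σ, s1, s2⟩ := (POS_iso (L3 L') _ _).1 (i2 _ _ (hc N hN).1 (hc N' hN').1 h)
    have s3 : ∀ (k : Fin 3) (t : ℕ), pj (rd4 N') k (σ t) = σ (pj (rd4 N) k t) := fun k t =>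
      (s1 1 (Fn3.pr k) fun _ => t).symm
    refine (POS_iso (L4 L') N N').2 ⟨σ, fun n f v => ?_, fun n r v => s2 n r v⟩
    cases f with
    | pr k => exact s1 1 (Fn3.pr k) v
    | jn b =>
      obtain ⟨s, t, rfl⟩ : ∃ s t : ℕ, v = ![s, t] :=
        ⟨v 0, v 1, funext fun i => by fin_cases i <;> rfl⟩
      have e1 : (fun k => σ ((![s, t] : Fin 2 → ℕ) k)) = ![σ s, σ t] :=
        funext fun i => by fin_cases i <;> rfl
      rw [e1]
      refine (hc N' hN').1.inj _ _ fun k => ?_
      rw [s3]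
      have a1 := (hc N hN).2 s t
      have a2 := (hc N' hN').2 (σ s) (σ t)
      cases b with
      | true =>
        fin_cases k
        · exact (congrArg σ a1.1.1).trans ((s3 0 s).symm.trans a2.1.1.symm)
        · exact (congrArg σ a1.1.2.1).trans ((s3 1 s).symm.trans a2.1.2.1.symm)
        · exact (congrArg σ a1.1.2.2).trans ((s3 0 t).symm.trans a2.1.2.2.symm)
      | false =>
        fin_cases k
        · exact (congrArg σ a1.2.1).trans ((s3 0 s).symm.trans a2.2.1.symm)
        · exact (congrArg σ a1.2.2.1).trans ((s3 0 t).symm.trans a2.2.2.1.symm)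
        · exact (congrArg σ a1.2.2.2).trans ((s3 0 t).symm.trans a2.2.2.2.symm)
  · intro f hf' h1 h2
    refine ⟨hCDC L' hF h4 (fun x => rd4 (f x)) (fun x => (hc _ (hf' x)).1) (fun n r a => h1 n r a)
      fun n F a b => ?_, fun n F => (hF n).elim F⟩
    cases F with
    | pr k => exact h2 1 (Fn4.pr k) a b
  · refine H (L4 L') (NE4_count hR hF) ?_ ?_ _ fun ψ hψ => hψ.1
    · intro n h1 h2
      exact ⟨fun f => by cases f; exacts [h1 rfl, h2 rfl]⟩
    · intro n hn
      exact ⟨fun r => by cases r; exact hn rfl⟩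

end Pool.Agent.VOD
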