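import Pool.Agent.VOD.StA

/-!
# VOD, module ODX: one-dimensional formulas (helper9)
-/

set_option autoImplicit false

namespace Pool.Agent.VOD

open FirstOrder Set VPF
open FirstOrder.Language
open Pool.Agent.EAE (EAEA)

/-- truth in an `Lx L`-structure, where `ex i φ` is read as the symbol -/
def S2 {L : FirstOrder.Language.{0, 0}} (S' : (Lx L).Structure ℕ) : Fo L → (ℕ → ℕ) → Prop
  | .qf θ h v, a => S'.RelMap (Rl.q θ h : (Lx L).Relations _) fun k => a (v k)
  | .imp φ ψ, a => S2 S' φ a → S2 S' ψ a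
  | .ex i φ, a => S'.RelMap (Rl.p i φ : (Lx L).Relations 1) fun _ => a i

/-- `S2 φ a` depends only on finitely many values of `a` -/
theorem S2_dep {L : FirstOrder.Language.{0, 0}} (φ : Fo L) :
    ∃ N : ℕ, ∀ (S' : (Lx L).Structure ℕ) (a a' : ℕ → ℕ), (∀ j < N, a j = a' j) →
      (S2 S' φ a ↔ S2 S' φ a') := by
  induction φ with
  | @qf n θ h v =>
    refine ⟨(Finset.univ.sup fun k => v k) + 1, fun S' a a' ha => ?_⟩
    have h1 : (fun k => a (v k)) = fun k => a' (v k) := by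
      funext k
      exact ha _ (Nat.lt_succ_of_le (Finset.le_sup (f := fun k => v k) (Finset.mem_univ k)))
    simp only [S2, h1]
  | imp φ ψ hφ hψ =>
    obtain ⟨N, hN⟩ := hφ
    obtain ⟨M, hM⟩ := hψ
    refine ⟨max N M, fun S' a a' ha => ?_⟩
    simp only [S2]
    rw [hN S' a a' fun j hj => ha j (lt_of_lt_of_le hj (le_max_left _ _)),
      hM S' a a' fun j hj => ha j (lt_of_lt_of_le hj (le_max_right _ _))]
  | ex i φ _ =>
    refine ⟨i + 1, fun S' a a' ha => ?_⟩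
    simp only [S2]
    rw [ha i (Nat.lt_succ_self i)]

/-- `S2 φ (v ∘ ρ)` is quantifier-free definable -/
theorem S2_qd (hQDT : St_QDT) {L : FirstOrder.Language.{0, 0}} (φ : Fo L) {m : ℕ} (ρ : ℕ → Fin m) :
    QD (Lx L) m fun S' v => S2 S' φ fun j => v (ρ j) := by
  obtain ⟨-, q2, -, q4, -, -, -, -⟩ := hQDT (Lx L) m
  induction φ with
  | qf θ h v => exact q2 _ (Rl.q θ h : (Lx L).Relations _) fun k => &(ρ (v k))
  | imp φ ψ hφ hψ => exact q4 _ _ hφ hψ
  | ex i φ _ => exact q2 _ (Rl.p i φ : (Lx L).Relations 1) fun _ => &(ρ i)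

theorem ODX_def : (@default (Empty → ℕ) Unique.instInhabited) =
    (@default (Empty → ℕ) Pi.instInhabited) := Subsingleton.elim _ _

/-- in the structure `xp S` this is the truth in `S` -/
theorem S2_sat {L : FirstOrder.Language.{0, 0}} (S : L.Structure ℕ) (φ : Fo L) :
    ∀ a : ℕ → ℕ, S2 (xp S) φ a ↔ φ.Sat S a := by
  induction φ with
  | qf θ h v =>
    intro a
    simp only [S2, Fo.Sat]
    rw [ODX_def]
    exact Iff.rfl
  | imp φ ψ hφ hψ =>
    intro a
    simp only [S2, Fo.Sat]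
    rw [hφ, hψ]
  | ex i φ _ =>
    intro a
    simp only [S2, Fo.Sat]
    exact Iff.rfl

theorem ODX_u (n : ℕ) : List.replicate n true ∈ DE :=
  ⟨0, 0, 0, n, by omega, by simp⟩

theorem ODX_e (n : ℕ) : true :: List.replicate n false ∈ DE :=
  ⟨0, 1, n, 0, by omega, by simp⟩

/-- in a model the symbol `p i φ` means what it should -/
theorem ODX_p (hQDT : St_QDT) (hUNI : St_UNI) (hAEX : St_AEX) {L : FirstOrder.Language.{0, 0}}
    (C : Set (L.Structure ℕ)) (S' : (Lx L).Structure ℕ) (hS : S' ∈ ModF (TC DE (xp '' C)))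
    (i : ℕ) (φ : Fo L) (a : ℕ → ℕ) :
    S2 S' (.ex i φ) a ↔ ∃ b : ℕ → ℕ, b i = a i ∧ S2 S' φ b := by
  obtain ⟨N0, hN0⟩ := S2_dep φ
  set N : ℕ := max N0 i with hN
  have hdep : ∀ (S' : (Lx L).Structure ℕ) (a a' : ℕ → ℕ), (∀ j, j ≤ N → a j = a' j) →
      (S2 S' φ a ↔ S2 S' φ a') := fun S' a a' h =>
    hN0 S' a a' fun j hj => h j (hj.le.trans (le_max_left _ _))
  have hi : i ≤ N := le_max_right _ _
  constructor
  · intro hp
    let ρ : ℕ → Fin (N + 1 + 1) := fun j => ⟨min j N + 1, by omega⟩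
    obtain ⟨q1, q2, -, q4, q5, -, -, -⟩ := hQDT (Lx L) (N + 1 + 1)
    have hq : QD (Lx L) (N + 1 + 1) fun S' v =>
        S'.RelMap (Rl.p i φ : (Lx L).Relations 1) (fun _ => v 0) →
          (v (ρ i) = v 0 ∧ S2 S' φ fun j => v (ρ j)) := by
      refine q4 _ _ (q2 _ (Rl.p i φ : (Lx L).Relations 1) fun _ => &(0 : Fin (N + 1 + 1)))
        (q5 _ _ (q1 (&(ρ i)) (&(0 : Fin (N + 1 + 1)))) (S2_qd hQDT φ ρ))
    have h1 := hAEX (Lx L) DE (xp '' C) (N + 1) _ (ODX_e _) hq (by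
      rintro _ ⟨S, hS, rfl⟩ x
      by_cases hx : ∃ b : ℕ → ℕ, b i = x ∧ φ.Sat S b
      · obtain ⟨b, hb, hb2⟩ := hx
        let v : Fin (N + 1 + 1) → ℕ := fun k => if (k : ℕ) = 0 then x else b ((k : ℕ) - 1)
        have hv : ∀ j, j ≤ N → v (ρ j) = b j := by
          intro j hj
          change (if min j N + 1 = 0 then x else b (min j N + 1 - 1)) = b j
          rw [min_eq_left hj, if_neg (by omega), Nat.add_sub_cancel]
        refine ⟨v, if_pos rfl, fun _ => ⟨?_, ?_⟩⟩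
        · rw [hv i hi, hb]
          exact (if_pos rfl).symm
        · rw [hdep (xp S) (fun j => v (ρ j)) b hv, S2_sat]
          exact hb2
      · refine ⟨fun _ => x, rfl, fun h => absurd h hx⟩) S' hS (a i)
    obtain ⟨v, hv0, hv⟩ := h1
    obtain ⟨h2, h3⟩ := hv (by rw [hv0]; exact hp)
    exact ⟨fun j => v (ρ j), h2.trans hv0, h3⟩
  · rintro ⟨b, hb, hb2⟩
    let ρ : ℕ → Fin (N + 1) := fun j => ⟨min j N, by omega⟩
    obtain ⟨-, q2, -, q4, -, -, -, -⟩ := hQDT (Lx L) (N + 1)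
    have hq : QD (Lx L) (N + 1) fun S' v =>
        (S2 S' φ fun j => v (ρ j)) →
          S'.RelMap (Rl.p i φ : (Lx L).Relations 1) (fun _ => v (ρ i)) :=
      q4 _ _ (S2_qd hQDT φ ρ) (q2 _ (Rl.p i φ : (Lx L).Relations 1) fun _ => &(ρ i))
    have h1 := hUNI (Lx L) DE (xp '' C) (N + 1) _ (ODX_u _) hq (by
      rintro _ ⟨S, hS, rfl⟩ v h
      exact ⟨fun j => v (ρ j), rfl, (S2_sat S φ _).1 h⟩) S' hS (fun k => b k)
    have h2 : ∀ j, j ≤ N → b ((ρ j : Fin (N + 1)) : ℕ) = b j := by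
      intro j hj
      change b (min j N) = b j
      rw [min_eq_left hj]
    have h3 := h1 ((hdep S' (fun j => b ((ρ j : Fin (N + 1)) : ℕ)) b h2).2 hb2)
    change S'.RelMap (Rl.p i φ : (Lx L).Relations 1) fun _ => a i
    rw [← hb, ← h2 i hi]
    exact h3

/-- in a model `S2` is the truth in the reduct -/
theorem S2_rd (hQDT : St_QDT) (hUNI : St_UNI) (hAEX : St_AEX) (hQFX : St_QFX)
    {L : FirstOrder.Language.{0, 0}} (hL : ∀ n, 2 ≤ n → IsEmpty (L.Functions n))
    (C : Set (L.Structure ℕ)) (S' : (Lx L).Structure ℕ) (hS : S' ∈ ModF (TC DE (xp '' C)))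
    (φ : Fo L) : ∀ a : ℕ → ℕ, S2 S' φ a ↔ φ.Sat (rd S') a := by
  induction φ with
  | qf θ h v =>
    intro a
    simp only [S2, Fo.Sat]
    rw [ODX_def]
    exact hQFX L hL C S' hS _ θ h _
  | imp φ ψ hφ hψ =>
    intro a
    simp only [S2, Fo.Sat]
    rw [hφ, hψ]
  | ex i φ hφ =>
    intro a
    rw [ODX_p hQDT hUNI hAEX C S' hS i φ a]
    simp only [Fo.Sat]
    exact exists_congr fun b => and_congr_right fun _ => hφ b

theorem thm_ODX (hQDT : St_QDT) (hUNI : St_UNI) (hAEX : St_AEX) (hQFX : St_QFX) : St_ODX := by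
  intro L hL C S' hS
  have hrel : ∀ (n : ℕ) (r : Rl L n) (v : Fin n → ℕ),
      xr (rd S') r v ↔ S'.RelMap (r : (Lx L).Relations n) v := by
    intro n r v
    cases r with
    | q θ h => exact (hQFX L hL C S' hS _ θ h v).symm
    | p i φ =>
      have h1 := S2_rd hQDT hUNI hAEX hQFX hL C S' hS (.ex i φ) fun _ => v 0
      have h2 : v = fun _ => v 0 := by
        funext k
        rw [Subsingleton.elim k 0]
      have h3 : S2 S' (.ex i φ) (fun _ => v 0) ↔
          S'.RelMap (Rl.p i φ : (Lx L).Relations 1) v := by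
        change S'.RelMap (Rl.p i φ : (Lx L).Relations 1) (fun _ => v 0) ↔ _
        rw [← h2]
      exact h1.symm.trans h3
  refine FirstOrder.Language.Structure.ext ?_ ?_
  · funext n f
    exact f.elim
  · funext n r v
    exact propext (hrel n r v)

end Pool.Agent.VOD
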