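import Pool.Agent.VOD.StA

/-!
# VOD [QFX]: quantifier-free formulas
-/

set_option autoImplicit false
set_option linter.unusedVariables false

namespace Pool.Agent.VOD

open FirstOrder Set VPF
open FirstOrder.Language
open Pool.Agent.EAE (EAEA)

theorem QFX_DE (m : ℕ) : List.replicate m true ∈ DE :=
  ⟨0, 0, 0, m, Nat.zero_le 1, by simp⟩

theorem QFX_gt {L : FirstOrder.Language.{0, 0}} {n : ℕ} (S : L.Structure ℕ)
    (t : L.Term (Empty ⊕ Fin n)) (w : Fin (n + 1) → ℕ) :
    @BoundedFormula.Realize L ℕ S Empty (n + 1) (gt t) default w ↔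
      @Term.realize L ℕ S _ (Sum.elim default fun k : Fin n => w k.castSucc) t =
        w (Fin.last n) := by
  have e : @Term.realize L ℕ S _ (Sum.elim default w) (t.relabel (Sum.map id Fin.castSucc)) =
      @Term.realize L ℕ S _ (Sum.elim default fun k : Fin n => w k.castSucc) t := by
    rw [@Term.realize_relabel L ℕ S]
    congr 1
    funext x
    rcases x with x | x
    · exact Empty.elim x
    · rfl
  show @Term.realize L ℕ S _ (Sum.elim default w) (t.relabel (Sum.map id Fin.castSucc)) =
    w (Fin.last n) ↔ _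
  rw [e]

/-- atomic formulas with variables -/
theorem QFX_rel (hQDT : St_QDT) {R : FirstOrder.Language.{0, 0}} {m n : ℕ} (r : R.Relations m)
    (ρ : Fin m → Fin n) : QD R n fun S v => S.RelMap r fun k => v (ρ k) :=
  (hQDT R n).2.1 m r fun k => Term.var (Sum.inr (ρ k))

theorem QFX_eq (hQDT : St_QDT) {R : FirstOrder.Language.{0, 0}} {n : ℕ} (i j : Fin n) :
    QD R n fun S v => v i = v j :=
  (hQDT R n).1 (Term.var (Sum.inr i)) (Term.var (Sum.inr j))

theorem thm_QFX (hQDT : St_QDT) (hUNI : St_UNI) (hTRM : St_TRM) : St_QFX := by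
  intro L hL C S' hS' n θ h v
  have key : ∀ (θ : L.BoundedFormula Empty n), θ.IsQF → ∀ (h : θ.IsQF) (v : Fin n → ℕ),
      (S'.RelMap (Rl.q θ h : (Lx L).Relations n) v ↔
        @BoundedFormula.Realize L ℕ (rd S') Empty n θ default v) := by
    intro θ hθ
    induction hθ with
    | falsum =>
      intro h v
      have h1 := hUNI (Lx L) DE (xp '' C) n
        (fun S v => ¬ S.RelMap (Rl.q BoundedFormula.falsum h : (Lx L).Relations n) v) (QFX_DE n)
        ((hQDT (Lx L) n).2.2.2.2.2.2.1 _ (QFX_rel hQDT _ id)) (by
          rintro _ ⟨S, -, rfl⟩ v hv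
          exact hv) S' hS' v
      exact ⟨fun h2 => absurd h2 h1, fun h2 => h2.elim⟩
    | imp h1 h2 ih1 ih2 =>
      rename_i φ₁ φ₂
      intro h v
      have h3 := hUNI (Lx L) DE (xp '' C) n
        (fun S v => (S.RelMap (Rl.q (φ₁.imp φ₂) h : (Lx L).Relations n) v ↔
          (S.RelMap (Rl.q φ₁ h1 : (Lx L).Relations n) v →
            S.RelMap (Rl.q φ₂ h2 : (Lx L).Relations n) v))) (QFX_DE n)
        ((hQDT (Lx L) n).2.2.2.2.2.1 _ _ (QFX_rel hQDT _ id)
          ((hQDT (Lx L) n).2.2.2.1 _ _ (QFX_rel hQDT _ id) (QFX_rel hQDT _ id))) (by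
          rintro _ ⟨S, -, rfl⟩ v
          exact Iff.rfl) S' hS' v
      rw [h3, ih1 h1 v, ih2 h2 v]
      exact Iff.rfl
    | of_isAtomic ha =>
      cases ha with
      | equal t t' =>
        intro h v
        set i0 : Fin n → Fin (n + 2) := fun k => k.castSucc.castSucc with hi0
        set i1 : Fin (n + 1) → Fin (n + 2) := fun k => k.castSucc with hi1
        set i2 : Fin (n + 1) → Fin (n + 2) :=
          Fin.snoc (fun k : Fin n => (k.castSucc.castSucc : Fin (n + 2))) (Fin.last (n + 1))
          with hi2
        have e2c : ∀ k : Fin n, i2 k.castSucc = i0 k := fun k => by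
          simp only [hi2, hi0, Fin.snoc_castSucc]
        have e2l : i2 (Fin.last n) = Fin.last (n + 1) := by
          simp only [hi2, Fin.snoc_last]
        have h3 := hUNI (Lx L) DE (xp '' C) (n + 2)
          (fun S w => (S.RelMap (Rl.q (gt t) (gt_qf t) : (Lx L).Relations (n + 1))
              (fun k => w (i1 k)) ∧
            S.RelMap (Rl.q (gt t') (gt_qf t') : (Lx L).Relations (n + 1)) (fun k => w (i2 k))) →
            (S.RelMap (Rl.q (t.bdEqual t') h : (Lx L).Relations n) (fun k => w (i0 k)) ↔
              w (i1 (Fin.last n)) = w (Fin.last (n + 1)))) (QFX_DE (n + 2))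
          ((hQDT (Lx L) (n + 2)).2.2.2.1 _ _
            ((hQDT (Lx L) (n + 2)).2.2.2.2.1 _ _ (QFX_rel hQDT _ i1) (QFX_rel hQDT _ i2))
            ((hQDT (Lx L) (n + 2)).2.2.2.2.2.1 _ _ (QFX_rel hQDT _ i0) (QFX_eq hQDT _ _))) (by
            rintro _ ⟨S, -, rfl⟩ w ⟨h4, h5⟩
            have h4' := (QFX_gt S t fun k => w (i1 k)).1 h4
            have h5' := (QFX_gt S t' fun k => w (i2 k)).1 h5
            simp only [e2c, e2l] at h5'
            show @Term.realize L ℕ S _ (Sum.elim default fun k => w (i0 k)) t =
              @Term.realize L ℕ S _ (Sum.elim default fun k => w (i0 k)) t' ↔ _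
            rw [← h5', ← h4']) S' hS'
        set y := @Term.realize L ℕ (rd S') _ (Sum.elim default v) t with hy
        set z := @Term.realize L ℕ (rd S') _ (Sum.elim default v) t' with hz
        have h4 := h3 (Fin.snoc (Fin.snoc v y : Fin (n + 1) → ℕ) z : Fin (n + 2) → ℕ)
        have w1 : (fun k => (Fin.snoc (Fin.snoc v y : Fin (n + 1) → ℕ) z : Fin (n + 2) → ℕ) (i1 k))
            = (Fin.snoc v y : Fin (n + 1) → ℕ) := by
          funext k
          simp only [hi1, Fin.snoc_castSucc]
        have w0 : (fun k => (Fin.snoc (Fin.snoc v y : Fin (n + 1) → ℕ) z : Fin (n + 2) → ℕ) (i0 k))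
            = v := by
          funext k
          simp only [hi0, Fin.snoc_castSucc]
        have w2 : (fun k => (Fin.snoc (Fin.snoc v y : Fin (n + 1) → ℕ) z : Fin (n + 2) → ℕ) (i2 k))
            = (Fin.snoc v z : Fin (n + 1) → ℕ) := by
          funext k
          refine Fin.lastCases ?_ (fun k => ?_) k
          · rw [e2l, Fin.snoc_last, Fin.snoc_last]
          · rw [e2c, Fin.snoc_castSucc]
            simp only [Fin.snoc_castSucc]
        simp only [w0, w1, w2] at h4
        have h5 := h4 ⟨(hTRM L hL C S' hS' n t v y).2 hy.symm, (hTRM L hL C S' hS' n t' v z).2 hz.symm⟩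
        rw [h5]
        simp only [hi1, Fin.snoc_castSucc, Fin.snoc_last]
        exact Iff.rfl
      | rel R ts =>
        rename_i l
        intro h v
        set i0 : Fin n → Fin (n + l) := Fin.castAdd l with hi0
        set i1 : Fin l → Fin (n + l) := Fin.natAdd n with hi1
        set i2 : Fin l → Fin (n + 1) → Fin (n + l) := fun j =>
          Fin.snoc (fun k : Fin n => i0 k) (i1 j) with hi2
        have e2c : ∀ (j : Fin l) (k : Fin n), i2 j k.castSucc = i0 k := fun j k => by
          simp only [hi2, Fin.snoc_castSucc]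
        have e2l : ∀ j : Fin l, i2 j (Fin.last n) = i1 j := fun j => by
          simp only [hi2, Fin.snoc_last]
        have h3 := hUNI (Lx L) DE (xp '' C) (n + l)
          (fun S w => (∀ j : Fin l, S.RelMap (Rl.q (gt (ts j)) (gt_qf (ts j)) :
              (Lx L).Relations (n + 1)) (fun k => w (i2 j k))) →
            (S.RelMap (Rl.q (R.boundedFormula ts) h : (Lx L).Relations n) (fun k => w (i0 k)) ↔
              S.RelMap (Rl.q (ar R) (ar_qf R) : (Lx L).Relations l) (fun k => w (i1 k))))
          (QFX_DE (n + l))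
          ((hQDT (Lx L) (n + l)).2.2.2.1 _ _
            ((hQDT (Lx L) (n + l)).2.2.2.2.2.2.2 (Fin l) _ fun j => QFX_rel hQDT _ (i2 j))
            ((hQDT (Lx L) (n + l)).2.2.2.2.2.1 _ _ (QFX_rel hQDT _ i0) (QFX_rel hQDT _ i1))) (by
            rintro _ ⟨S, -, rfl⟩ w h4
            have h4' : ∀ j, @Term.realize L ℕ S _ (Sum.elim default fun k => w (i0 k)) (ts j) =
                w (i1 j) := by
              intro j
              have h5 := (QFX_gt S (ts j) fun k => w (i2 j k)).1 (h4 j)
              simp only [e2c, e2l] at h5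
              exact h5
            show S.RelMap R (fun j =>
                @Term.realize L ℕ S _ (Sum.elim default fun k => w (i0 k)) (ts j)) ↔
              S.RelMap R fun k => w (i1 k)
            simp only [h4']) S' hS'
        set y : Fin l → ℕ := fun j => @Term.realize L ℕ (rd S') _ (Sum.elim default v) (ts j)
          with hy
        have h4 := h3 (Fin.append v y)
        have w0 : (fun k => Fin.append v y (i0 k)) = v := by
          funext k
          simp only [hi0, Fin.append_left]
        have w1 : (fun k => Fin.append v y (i1 k)) = y := by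
          funext k
          simp only [hi1, Fin.append_right]
        have w2 : ∀ j, (fun k => Fin.append v y (i2 j k)) = (Fin.snoc v (y j) : Fin (n + 1) → ℕ) := by
          intro j
          funext k
          refine Fin.lastCases ?_ (fun k => ?_) k
          · rw [e2l, Fin.snoc_last]
            exact congrFun w1 j
          · rw [e2c, Fin.snoc_castSucc]
            exact congrFun w0 k
        simp only [w0, w1, w2] at h4
        have h5 := h4 fun j => (hTRM L hL C S' hS' n (ts j) v (y j)).2 rfl
        rw [h5]
        exact Iff.rfl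
  exact key θ h h v

end Pool.Agent.VOD
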