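import Pool.Agent.VOD.StA

/-!
VOD, RDX: `rd` is inverse to `xp`.
-/

set_option autoImplicit false

namespace Pool.Agent.VOD

open FirstOrder Set VPF
open FirstOrder.Language

theorem RDX_gf {L : FirstOrder.Language.{0, 0}} (S : L.Structure ℕ) {n : ℕ} (F : L.Functions n)
    (v : Fin n → ℕ) (y : ℕ) :
    @BoundedFormula.Realize L ℕ S Empty (n + 1) (gf F) default (Fin.snoc v y : Fin (n + 1) → ℕ) ↔
      S.funMap F v = y := by
  unfold gf gt
  rw [BoundedFormula.realize_bdEqual, Term.realize_relabel]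
  have h : (Sum.elim (default : Empty → ℕ) (Fin.snoc v y : Fin (n + 1) → ℕ) ∘
      Sum.map id Fin.castSucc) = Sum.elim default v := by
    funext i
    rcases i with i | i
    · exact i.elim
    · simp
  rw [h]
  change (S.funMap F fun i => v i) = (Fin.snoc v y : Fin (n + 1) → ℕ) (Fin.last n) ↔ _
  rw [Fin.snoc_last]

theorem RDX_ar {L : FirstOrder.Language.{0, 0}} (S : L.Structure ℕ) {n : ℕ} (R : L.Relations n)
    (v : Fin n → ℕ) :
    @BoundedFormula.Realize L ℕ S Empty n (ar R) default v ↔ S.RelMap R v := by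
  unfold ar
  rw [BoundedFormula.realize_rel]
  exact Iff.rfl

theorem thm_RDX : St_RDX := by
  intro L S
  refine Structure.ext ?_ ?_
  · funext n F v
    have h1 : ∃ y : ℕ, @BoundedFormula.Realize L ℕ S Empty (n + 1) (gf F) default
        (Fin.snoc v y : Fin (n + 1) → ℕ) := ⟨_, (RDX_gf S F v _).2 rfl⟩
    have h2 := Classical.epsilon_spec h1
    exact ((RDX_gf S F v _).1 h2).symm
  · funext n R v
    exact propext (RDX_ar S R v)

end Pool.Agent.VOD
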