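import Pool.Agent.VOD.StA

/-!
# VOD, REV: the dichotomy goes over along a reduction (helper4)
-/

set_option autoImplicit false

namespace Pool.Agent.VOD

open FirstOrder Set
open FirstOrder.Language

theorem thm_REV : St_REV := by
  intro L L' K K' X Y hXK hYK hX hY hcont hD
  rcases hD with ⟨g', hg'⟩ | ⟨f', hf', hinj, hcl, hop⟩
  · left
    classical
    let S0 : L.Structure ℕ := ⟨fun _ _ => 0, fun _ _ => False⟩
    let P : ℕ → L.Structure ℕ → Prop := fun n S =>
      S ∈ K ∧ Nonempty (@FirstOrder.Language.Equiv L' ℕ ℕ (X S) (g' n))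
    obtain ⟨g, hg⟩ : ∃ g : ℕ → L.Structure ℕ, ∀ n, (∃ S, P n S) → P n (g n) := by
      refine ⟨fun n => if h : ∃ S, P n S then Classical.choose h else S0, fun n h => ?_⟩
      have hdif : (if h : ∃ S, P n S then Classical.choose h else S0) = Classical.choose h := dif_pos h
      show P n (if h : ∃ S, P n S then Classical.choose h else S0)
      rw [hdif]
      exact Classical.choose_spec h
    refine ⟨g, fun S hS => ?_⟩
    obtain ⟨n, hn⟩ := hg' (X S) (hXK S hS)
    refine ⟨n, ?_⟩
    have hspec : P n (g n) := hg n ⟨S, hS, hn⟩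
    refine hX S hS _ hspec.1 ?_
    obtain ⟨e⟩ := hn
    obtain ⟨e'⟩ := hspec.2
    exact ⟨@FirstOrder.Language.Equiv.comp L' ℕ ℕ (X S) (g' n) ℕ (X (g n))
      (@FirstOrder.Language.Equiv.symm L' ℕ ℕ (X (g n)) (g' n) e') e⟩
  · right
    refine ⟨fun x => Y (f' x), fun x => hYK _ (hf' x),
      fun x y h => hinj x y (hY _ (hf' x) _ (hf' y) h), ?_⟩
    exact hcont f' hf' hcl hop

end Pool.Agent.VOD
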