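import Pool.Agent.VOD.StA

/-!
# VOD [TRM]: terms
-/

set_option autoImplicit false
set_option linter.unusedVariables false

namespace Pool.Agent.VOD

open FirstOrder Set VPF
open FirstOrder.Language
open Pool.Agent.EAE (EAEA)

private theorem TRM_DE (m : ℕ) : List.replicate m true ∈ DE :=
  ⟨0, 0, 0, m, Nat.zero_le 1, by simp⟩

private theorem TRM_DE2 : true :: List.replicate 1 false ∈ DE :=
  ⟨0, 1, 1, 0, le_refl 1, by simp⟩

private theorem TRM_gt {L : FirstOrder.Language.{0, 0}} {n : ℕ} (S : L.Structure ℕ)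
    (t : L.Term (Empty ⊕ Fin n)) (w : Fin (n + 1) → ℕ) :
    @BoundedFormula.Realize L ℕ S Empty (n + 1) (gt t) default w ↔
      @Term.realize L ℕ S _ (Sum.elim default fun k : Fin n => w k.castSucc) t =
        w (Fin.last n) := by
  have e : @Term.realize L ℕ S _ (Sum.elim default w) (t.relabel (Sum.map id Fin.castSucc)) =
      @Term.realize L ℕ S _ (Sum.elim default fun k : Fin n => w k.castSucc) t := by
    rw [@Term.realize_relabel L ℕ S]
    congr 1
    funext x
    rcases x with x | x
    · exact Empty.elim x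
    · rfl
  show @Term.realize L ℕ S _ (Sum.elim default w) (t.relabel (Sum.map id Fin.castSucc)) =
    w (Fin.last n) ↔ _
  rw [e]

private theorem TRM_gf {L : FirstOrder.Language.{0, 0}} {n : ℕ} (S : L.Structure ℕ)
    (F : L.Functions n) (w : Fin (n + 1) → ℕ) :
    @BoundedFormula.Realize L ℕ S Empty (n + 1) (gf F) default w ↔
      S.funMap F (fun k : Fin n => w k.castSucc) = w (Fin.last n) :=
  TRM_gt S (Term.func F fun k => &k) w

/-- atomic formulas with variables -/
private theorem TRM_rel (hQDT : St_QDT) {R : FirstOrder.Language.{0, 0}} {m n : ℕ}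
    (r : R.Relations m) (ρ : Fin m → Fin n) : QD R n fun S v => S.RelMap r fun k => v (ρ k) :=
  (hQDT R n).2.1 m r fun k => Term.var (Sum.inr (ρ k))

private theorem TRM_eq (hQDT : St_QDT) {R : FirstOrder.Language.{0, 0}} {n : ℕ} (i j : Fin n) :
    QD R n fun S v => v i = v j :=
  (hQDT R n).1 (Term.var (Sum.inr i)) (Term.var (Sum.inr j))

/-- the symbol of `gf F` is the graph of the function of `rd S'` -/
private theorem TRM_fun (hQDT : St_QDT) (hUNI : St_UNI) (hAEX : St_AEX)
    {L : FirstOrder.Language.{0, 0}} (C : Set (L.Structure ℕ)) (S' : (Lx L).Structure ℕ)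
    (hS' : S' ∈ ModF (TC DE (xp '' C))) {l : ℕ} (hl : l ≤ 1) (F : L.Functions l)
    (u : Fin l → ℕ) (y : ℕ) :
    S'.RelMap (Rl.q (gf F) (gf_qf F) : (Lx L).Relations (l + 1)) (Fin.snoc u y : Fin (l + 1) → ℕ) ↔
      (rd S').funMap F u = y := by
  -- existence
  have hex : ∃ z : ℕ, S'.RelMap (Rl.q (gf F) (gf_qf F) : (Lx L).Relations (l + 1))
      (Fin.snoc u z : Fin (l + 1) → ℕ) := by
    have h1 := hAEX (Lx L) DE (xp '' C) 1
      (fun S w => S.RelMap (Rl.q (gf F) (gf_qf F) : (Lx L).Relations (l + 1))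
        fun k => w ((Fin.snoc (fun _ : Fin l => (0 : Fin 2)) (1 : Fin 2) : Fin (l + 1) → Fin 2) k))
      TRM_DE2 (TRM_rel hQDT _ _) (by
        rintro _ ⟨S, -, rfl⟩ x
        refine ⟨![x, S.funMap F fun _ => x], rfl, ?_⟩
        refine (TRM_gf S F _).2 ?_
        simp only [Fin.snoc_castSucc, Fin.snoc_last]
        rfl) S' hS'
    have h2 : ∃ x : ℕ, ∀ k, u k = x := by
      rcases Nat.eq_zero_or_pos l with h | h
      · subst h
        exact ⟨0, fun k => k.elim0⟩
      · refine ⟨u ⟨0, h⟩, fun k => ?_⟩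
        have : k = ⟨0, h⟩ := by
          apply Fin.ext
          have := k.isLt
          show k.val = 0
          omega
        rw [this]
    obtain ⟨x, hx⟩ := h2
    obtain ⟨w, hw, h3⟩ := h1 x
    refine ⟨w 1, ?_⟩
    have e : (fun k => w ((Fin.snoc (fun _ : Fin l => (0 : Fin 2)) (1 : Fin 2) :
        Fin (l + 1) → Fin 2) k)) = (Fin.snoc u (w 1) : Fin (l + 1) → ℕ) := by
      funext k
      refine Fin.lastCases ?_ (fun k => ?_) k
      · rw [Fin.snoc_last, Fin.snoc_last]
      · rw [Fin.snoc_castSucc, Fin.snoc_castSucc, hx k]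
        exact hw
    rw [← e]
    exact h3
  -- uniqueness
  have huq : ∀ z z' : ℕ, S'.RelMap (Rl.q (gf F) (gf_qf F) : (Lx L).Relations (l + 1))
      (Fin.snoc u z : Fin (l + 1) → ℕ) →
      S'.RelMap (Rl.q (gf F) (gf_qf F) : (Lx L).Relations (l + 1))
      (Fin.snoc u z' : Fin (l + 1) → ℕ) → z = z' := by
    intro z z' hz hz'
    have h3 := hUNI (Lx L) DE (xp '' C) (l + 2)
      (fun S w => (S.RelMap (Rl.q (gf F) (gf_qf F) : (Lx L).Relations (l + 1))
          (fun k => w (k.castSucc)) ∧
        S.RelMap (Rl.q (gf F) (gf_qf F) : (Lx L).Relations (l + 1))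
          (fun k => w ((Fin.snoc (fun k : Fin l => (k.castSucc.castSucc : Fin (l + 2)))
            (Fin.last (l + 1)) : Fin (l + 1) → Fin (l + 2)) k))) →
        w ((Fin.last l).castSucc) = w (Fin.last (l + 1))) (TRM_DE (l + 2))
      ((hQDT (Lx L) (l + 2)).2.2.2.1 _ _
        ((hQDT (Lx L) (l + 2)).2.2.2.2.1 _ _ (TRM_rel hQDT _ _) (TRM_rel hQDT _ _))
        (TRM_eq hQDT _ _)) (by
        rintro _ ⟨S, -, rfl⟩ w ⟨h4, h5⟩
        have h4' := (TRM_gf S F _).1 h4
        have h5' := (TRM_gf S F _).1 h5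
        simp only [Fin.snoc_castSucc, Fin.snoc_last] at h5'
        rw [← h5', ← h4']) S' hS'
      (Fin.snoc (Fin.snoc u z : Fin (l + 1) → ℕ) z' : Fin (l + 2) → ℕ)
    have w1 : (fun k : Fin (l + 1) => (Fin.snoc (Fin.snoc u z : Fin (l + 1) → ℕ) z' :
        Fin (l + 2) → ℕ) (k.castSucc)) = (Fin.snoc u z : Fin (l + 1) → ℕ) := by
      funext k
      simp only [Fin.snoc_castSucc]
    have w2 : (fun k : Fin (l + 1) => (Fin.snoc (Fin.snoc u z : Fin (l + 1) → ℕ) z' :
        Fin (l + 2) → ℕ) ((Fin.snoc (fun k : Fin l => (k.castSucc.castSucc : Fin (l + 2)))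
            (Fin.last (l + 1)) : Fin (l + 1) → Fin (l + 2)) k)) =
        (Fin.snoc u z' : Fin (l + 1) → ℕ) := by
      funext k
      refine Fin.lastCases ?_ (fun k => ?_) k
      · simp only [Fin.snoc_last]
      · simp only [Fin.snoc_castSucc]
    simp only [w1, w2] at h3
    have h4 := h3 ⟨hz, hz'⟩
    simp only [Fin.snoc_castSucc, Fin.snoc_last] at h4
    exact h4
  have hsp := Classical.epsilon_spec hex
  constructor
  · intro h
    exact huq _ _ hsp h
  · intro h
    rw [← h]
    exact hsp

theorem thm_TRM (hQDT : St_QDT) (hUNI : St_UNI) (hAEX : St_AEX) : St_TRM := by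
  intro L hL C S' hS' n t
  induction t with
  | var x =>
    intro v y
    rcases x with x | i
    · exact Empty.elim x
    · have h3 := hUNI (Lx L) DE (xp '' C) (n + 1)
        (fun S w => (S.RelMap (Rl.q (gt (Term.var (Sum.inr i))) (gt_qf _) :
            (Lx L).Relations (n + 1)) (fun k => w (id k)) ↔
          w i.castSucc = w (Fin.last n))) (TRM_DE (n + 1))
        ((hQDT (Lx L) (n + 1)).2.2.2.2.2.1 _ _ (TRM_rel hQDT _ _) (TRM_eq hQDT _ _)) (by
          rintro _ ⟨S, -, rfl⟩ w
          exact TRM_gt S (Term.var (Sum.inr i)) w) S' hS'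
        (Fin.snoc v y : Fin (n + 1) → ℕ)
      simp only [Fin.snoc_castSucc, Fin.snoc_last] at h3
      exact h3
  | @func l F ts ih =>
    intro v y
    have hl : l ≤ 1 := by
      by_contra h
      exact (hL l (by omega)).elim F
    have h3 := hUNI (Lx L) DE (xp '' C) (n + l + 1)
      (fun S w => (∀ j : Fin l, S.RelMap (Rl.q (gt (ts j)) (gt_qf (ts j)) :
          (Lx L).Relations (n + 1)) (fun k => w ((Fin.snoc
            (fun k : Fin n => (Fin.castAdd l k).castSucc) (Fin.natAdd n j).castSucc :
            Fin (n + 1) → Fin (n + l + 1)) k))) →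
        (S.RelMap (Rl.q (gt (Term.func F ts)) (gt_qf _) : (Lx L).Relations (n + 1))
            (fun k => w ((Fin.snoc (fun k : Fin n => (Fin.castAdd l k).castSucc)
              (Fin.last (n + l)) : Fin (n + 1) → Fin (n + l + 1)) k)) ↔
          S.RelMap (Rl.q (gf F) (gf_qf F) : (Lx L).Relations (l + 1))
            (fun k => w ((Fin.snoc (fun k : Fin l => (Fin.natAdd n k).castSucc)
              (Fin.last (n + l)) : Fin (l + 1) → Fin (n + l + 1)) k))))
      (TRM_DE (n + l + 1))
      ((hQDT (Lx L) (n + l + 1)).2.2.2.1 _ _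
        ((hQDT (Lx L) (n + l + 1)).2.2.2.2.2.2.2 (Fin l) _ fun j => TRM_rel hQDT _ _)
        ((hQDT (Lx L) (n + l + 1)).2.2.2.2.2.1 _ _ (TRM_rel hQDT _ _) (TRM_rel hQDT _ _))) (by
        rintro _ ⟨S, -, rfl⟩ w h4
        have h4' : ∀ j, @Term.realize L ℕ S _
            (Sum.elim default fun k : Fin n => w (Fin.castAdd l k).castSucc) (ts j) =
            w (Fin.natAdd n j).castSucc := by
          intro j
          have h5 := (TRM_gt S (ts j) _).1 (h4 j)
          simp only [Fin.snoc_castSucc, Fin.snoc_last] at h5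
          exact h5
        refine (TRM_gt S (Term.func F ts) _).trans (Iff.trans ?_ (TRM_gf S F _).symm)
        simp only [Fin.snoc_castSucc, Fin.snoc_last]
        have e : @Term.realize L ℕ S _
            (Sum.elim default fun k : Fin n => w (Fin.castAdd l k).castSucc) (Term.func F ts) =
            S.funMap F fun j : Fin l => w (Fin.natAdd n j).castSucc := by
          have e1 : (fun j : Fin l => w (Fin.natAdd n j).castSucc) = fun j => @Term.realize L ℕ S _
            (Sum.elim default fun k : Fin n => w (Fin.castAdd l k).castSucc) (ts j) := by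
            funext j
            exact (h4' j).symm
          rw [e1]
          rfl
        rw [e]) S' hS'
      (Fin.snoc (Fin.append v fun j => @Term.realize L ℕ (rd S') _ (Sum.elim default v) (ts j)) y :
        Fin (n + l + 1) → ℕ)
    have hy : (rd S').funMap F (fun j => @Term.realize L ℕ (rd S') _ (Sum.elim default v) (ts j)) =
        @Term.realize L ℕ (rd S') _ (Sum.elim default v) (Term.func F ts) := rfl
    have hfun := TRM_fun hQDT hUNI hAEX C S' hS' hl F
      (fun j => @Term.realize L ℕ (rd S') _ (Sum.elim default v) (ts j)) y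
    rw [hy] at hfun
    have hih := fun j => (ih j v (@Term.realize L ℕ (rd S') _ (Sum.elim default v) (ts j))).2 rfl
    clear hy
    generalize hyv : (fun j => @Term.realize L ℕ (rd S') _ (Sum.elim default v) (ts j)) = yv at h3 hfun
    have hih' : ∀ j, S'.RelMap (Rl.q (gt (ts j)) (gt_qf (ts j)) : (Lx L).Relations (n + 1))
        (Fin.snoc v (yv j) : Fin (n + 1) → ℕ) := by
      intro j
      have h5 := hih j
      rw [congrFun hyv j] at h5
      exact h5
    have w1 : ∀ j, (fun k => (Fin.snoc (Fin.append v yv) y : Fin (n + l + 1) → ℕ)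
        ((Fin.snoc (fun k : Fin n => (Fin.castAdd l k).castSucc) (Fin.natAdd n j).castSucc :
            Fin (n + 1) → Fin (n + l + 1)) k)) = (Fin.snoc v (yv j) : Fin (n + 1) → ℕ) := by
      intro j
      funext k
      refine Fin.lastCases ?_ (fun k => ?_) k
      · simp only [Fin.snoc_last, Fin.snoc_castSucc, Fin.append_right]
      · simp only [Fin.snoc_castSucc, Fin.append_left]
    have w2 : (fun k => (Fin.snoc (Fin.append v yv) y : Fin (n + l + 1) → ℕ)
        ((Fin.snoc (fun k : Fin n => (Fin.castAdd l k).castSucc) (Fin.last (n + l)) :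
            Fin (n + 1) → Fin (n + l + 1)) k)) = (Fin.snoc v y : Fin (n + 1) → ℕ) := by
      funext k
      refine Fin.lastCases ?_ (fun k => ?_) k
      · simp only [Fin.snoc_last]
      · simp only [Fin.snoc_castSucc, Fin.append_left]
    have w3 : (fun k => (Fin.snoc (Fin.append v yv) y : Fin (n + l + 1) → ℕ)
        ((Fin.snoc (fun k : Fin l => (Fin.natAdd n k).castSucc) (Fin.last (n + l)) :
            Fin (l + 1) → Fin (n + l + 1)) k)) = (Fin.snoc yv y : Fin (l + 1) → ℕ) := by
      funext k
      refine Fin.lastCases ?_ (fun k => ?_) k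
      · simp only [Fin.snoc_last]
      · simp only [Fin.snoc_castSucc, Fin.append_right]
    simp only [w1, w2, w3] at h3
    exact (h3 hih').trans hfun

end Pool.Agent.VOD
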