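import Pool.Agent.VOD.StA

/-!
# VOD / UNI: universal conditions
-/

set_option autoImplicit false
set_option linter.unusedVariables false

namespace Pool.Agent.VOD

open FirstOrder Set VPF
open FirstOrder.Language
open Pool.Agent.EAE (EAEA)

/-- the prefix of `φ.alls` -/
private theorem UNI_pre {R : FirstOrder.Language.{0, 0}} : ∀ (n : ℕ) (w : List Bool)
    (φ : R.BoundedFormula Empty n), Pre w φ → Pre (List.replicate n true ++ w) φ.alls
  | 0, w, φ, h => h
  | n + 1, w, φ, h => by
    have h1 := UNI_pre n (true :: w) φ.all (Pre.all h)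
    have e : List.replicate (n + 1) true ++ w = List.replicate n true ++ true :: w := by
      rw [List.replicate_succ', List.append_assoc, List.singleton_append]
    rw [e]
    exact h1

private theorem UNI_def : (@default (Empty → ℕ) Unique.instInhabited) =
    (@default (Empty → ℕ) Pi.instInhabited) := Subsingleton.elim _ _

theorem thm_UNI : St_UNI := by
  intro R D C n Φ hD hQ hC S hS v
  obtain ⟨χ, hχ, hχΦ⟩ := hQ
  have h1 : χ.alls ∈ TC D C := by
    refine ⟨⟨List.replicate n true, hD, ?_⟩, fun S' hS' => ?_⟩
    · have h2 := UNI_pre n [] χ (Pre.qf hχ)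
      rwa [List.append_nil] at h2
    · unfold Sentence.Realize
      refine BoundedFormula.realize_alls.2 fun xs => ?_
      rw [UNI_def]
      exact (hχΦ S' xs).2 (hC S' hS' xs)
  have h3 : @Sentence.Realize R ℕ S χ.alls := hS.realize_of_mem _ h1
  unfold Sentence.Realize at h3
  have h4 := BoundedFormula.realize_alls.1 h3 v
  rw [UNI_def] at h4
  exact (hχΦ S v).1 h4

end Pool.Agent.VOD
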