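import Pool.Agent.EAE.All
import Pool.Agent.VOD.QDT
import Pool.Agent.VOD.UNI
import Pool.Agent.VOD.AEX
import Pool.Agent.VOD.AAE
import Pool.Agent.VOD.REV
import Pool.Agent.VOD.RDX
import Pool.Agent.VOD.TRM
import Pool.Agent.VOD.QFX
import Pool.Agent.VOD.ODX
import Pool.Agent.VOD.MOD
import Pool.Agent.VOD.CTX
import Pool.Agent.VOD.POS
import Pool.Agent.VOD.CDS
import Pool.Agent.VOD.CDM
import Pool.Agent.VOD.DGX
import Pool.Agent.VOD.GSR
import Pool.Agent.VOD.GSM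
import Pool.Agent.VOD.CDI
import Pool.Agent.VOD.CDC
import Pool.Agent.VOD.NEG
import Pool.Agent.VOD.FUX
import Pool.Agent.VOD.FUP
import Pool.Agent.VOD.FUB
import Pool.Agent.VOD.FUM
import Pool.Agent.VOD.FUN
import Pool.Agent.VOD.CD4
import Pool.Agent.VOD.GS4
import Pool.Agent.VOD.NE4
import Pool.Agent.VOD.KTR
import Pool.Agent.VOD.KEA
import Pool.Agent.VOD.KON

/-!
# VOD/All (helper64): the modules put together; unconditional
-/

set_option autoImplicit false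

namespace Pool.Agent.VOD

theorem a_QDT : St_QDT := thm_QDT
theorem a_UNI : St_UNI := thm_UNI
theorem a_AEX : St_AEX := thm_AEX
theorem a_AAE : St_AAE := thm_AAE
theorem a_REV : St_REV := thm_REV
theorem a_RDX : St_RDX := thm_RDX
theorem a_TRM : St_TRM := thm_TRM a_QDT a_UNI a_AEX
theorem a_QFX : St_QFX := thm_QFX a_QDT a_UNI a_TRM
theorem a_ODX : St_ODX := thm_ODX a_QDT a_UNI a_AEX a_QFX
theorem a_MOD : St_MOD := thm_MOD a_QDT a_UNI a_ODX
theorem a_CTX : St_CTX := thm_CTX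
theorem a_POS : St_POS := thm_POS a_REV a_RDX a_ODX a_MOD a_CTX Pool.Agent.EAE.thm_MAI_all
theorem a_CDS : St_CDS := thm_CDS
theorem a_CDM : St_CDM := thm_CDM a_QDT a_UNI a_AAE a_CDS
theorem a_DGX : St_DGX := thm_DGX
theorem a_GSR : St_GSR := thm_GSR a_DGX
theorem a_GSM : St_GSM := thm_GSM a_QDT a_UNI a_AEX a_CDM a_DGX a_GSR
theorem a_CDI : St_CDI := thm_CDI a_DGX a_GSR
theorem a_CDC : St_CDC := thm_CDC a_DGX
theorem a_NEG : St_NEG := thm_NEG a_REV a_CDM a_GSM a_CDI a_CDC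
theorem a_FUX : St_FUX := thm_FUX
theorem a_FUP : St_FUP := thm_FUP
theorem a_FUB : St_FUB := thm_FUB a_FUX a_FUP
theorem a_FUM : St_FUM := thm_FUM
theorem a_FUN : St_FUN := thm_FUN a_FUB a_FUM a_POS
theorem a_CD4 : St_CD4 := thm_CD4 a_QDT a_UNI a_CDS
theorem a_GS4 : St_GS4 := thm_GS4 a_QDT a_UNI a_AEX a_CD4 a_DGX a_GSR
theorem a_NE4 : St_NE4 := thm_NE4 a_REV a_CD4 a_GS4 a_CDI a_CDC
theorem a_KTR : St_KTR := thm_KTR
theorem a_KEA : St_KEA := thm_KEA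
theorem a_KON : St_KON := thm_KON a_REV a_QDT a_KTR a_KEA

end Pool.Agent.VOD
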