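import Mathlib.ModelTheory.Complexity

/-!
# One-dimensional formulas

The one-dimensional fragment of first-order logic (Hella, Kuusisto): every block of quantifiers leaves
at most one variable free.
-/

set_option autoImplicit false

namespace Pool.Agent.VOD

open FirstOrder FirstOrder.Language

/-- One-dimensional formulas with the variables `x_0, x_1, …`: closed under Boolean combinations and
under `ex i`: there are values for all variables except `x_i`.  `qf θ v`: the quantifier-free formula
`θ` for the variables `x_(v 0), x_(v 1), …`. -/
inductive Fo (L : FirstOrder.Language.{0, 0}) : Type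
  | qf {n : ℕ} (θ : L.BoundedFormula Empty n) (h : θ.IsQF) (v : Fin n → ℕ) : Fo L
  | imp (φ ψ : Fo L) : Fo L
  | ex (i : ℕ) (φ : Fo L) : Fo L

/-- truth of a one-dimensional formula -/
def Fo.Sat {L : FirstOrder.Language.{0, 0}} {M : Type} (S : L.Structure M) : Fo L → (ℕ → M) → Prop
  | .qf θ _ v, a => @BoundedFormula.Realize L M S Empty _ θ default fun k => a (v k)
  | .imp φ ψ, a => φ.Sat S a → ψ.Sat S a
  | .ex i φ, a => ∃ b : ℕ → M, b i = a i ∧ φ.Sat S b

end Pool.Agent.VOD
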