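import Pool.Agent.EAE.Defs
import Pool.Agent.VOD.Fo
import Pool.Agent.VPF.Defs

/-!
# VOD: one-dimensional formulas and unary functions; definitions (helper64)

`Fo L`: one-dimensional formulas (every block of quantifiers leaves at most one variable free).
`Lx L`: the relational language with a relation symbol for each quantifier-free formula of `L` and a
unary one for each quantified one-dimensional formula.  `L3 L`: the language with three unary
functions and unary relation symbols for the quantifier-free formulas with three variables.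
-/

set_option autoImplicit false
set_option linter.unusedVariables false

namespace Pool.Agent.VOD

open FirstOrder Set VPF
open FirstOrder.Language
open Pool.Agent.EAE (EAEA)

/-! ### The dichotomy -/

/-- The dichotomy (as in `S14759`) for a class of structures on `ℕ`. -/
def Dich {L : FirstOrder.Language.{0, 0}} (K : Set (L.Structure ℕ)) : Prop :=
  (∃ g : ℕ → L.Structure ℕ, ∀ S ∈ K,
      ∃ n : ℕ, Nonempty (@FirstOrder.Language.Equiv L ℕ ℕ S (g n))) ∨
  (∃ f : (ℕ → Bool) → L.Structure ℕ, (∀ x : ℕ → Bool, f x ∈ K) ∧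
      (∀ x y : ℕ → Bool, Nonempty (@FirstOrder.Language.Equiv L ℕ ℕ (f x) (f y)) → x = y) ∧
      (∀ (n : ℕ) (R : L.Relations n) (a : Fin n → ℕ),
        IsClopen {x : ℕ → Bool | @FirstOrder.Language.Structure.RelMap L ℕ (f x) n R a}) ∧
      (∀ (n : ℕ) (F : L.Functions n) (a : Fin n → ℕ) (b : ℕ),
        IsOpen {x : ℕ → Bool | @FirstOrder.Language.Structure.funMap L ℕ (f x) n F a = b}))

/-! ### Quantifier-free definable relations, theories of low prefixes -/

/-- `Φ` is defined by a quantifier-free formula in all structures on `ℕ` -/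
def QD (R : FirstOrder.Language.{0, 0}) (n : ℕ) (Φ : R.Structure ℕ → (Fin n → ℕ) → Prop) : Prop :=
  ∃ χ : R.BoundedFormula Empty n, χ.IsQF ∧
    ∀ (S : R.Structure ℕ) (v : Fin n → ℕ), @BoundedFormula.Realize R ℕ S Empty n χ default v ↔ Φ S v

/-- the sentences with a prefix in `D` which hold in all structures of `C` -/
def TC {R : FirstOrder.Language.{0, 0}} (D : Set (List Bool)) (C : Set (R.Structure ℕ)) : R.Theory :=
  {ψ | (∃ w ∈ D, Pre w ψ) ∧ ∀ S ∈ C, @Sentence.Realize R ℕ S ψ}

/-- the words of the form `∃^m ∀^l ∃^n ∀^k`, `l ≤ 1` -/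
def DE : Set (List Bool) := {w | EAEA w}

/-! ### One-dimensional formulas -/

/-- the structures with all axioms `T` (first-order sentences) and `O` (one-dimensional formulas) -/
def ModO {L : FirstOrder.Language.{0, 0}} (T : L.Theory) (O : Set (Fo L)) : Set (L.Structure ℕ) :=
  {S | S ∈ ModF T ∧ ∀ φ ∈ O, ∀ a : ℕ → ℕ, φ.Sat S a}

/-! ### The relational language -/

/-- the relation symbols of `Lx L` -/
inductive Rl (L : FirstOrder.Language.{0, 0}) : ℕ → Type
  | q {n : ℕ} (θ : L.BoundedFormula Empty n) (h : θ.IsQF) : Rl L n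
  | p (i : ℕ) (φ : Fo L) : Rl L 1

/-- the relational language -/
def Lx (L : FirstOrder.Language.{0, 0}) : FirstOrder.Language.{0, 0} := ⟨fun _ => Empty, Rl L⟩

/-- the `Lx L`-structure of an `L`-structure, relations -/
def xr {L : FirstOrder.Language.{0, 0}} (S : L.Structure ℕ) : {n : ℕ} → Rl L n → (Fin n → ℕ) → Prop
  | _, .q θ _, v => @BoundedFormula.Realize L ℕ S Empty _ θ default v
  | _, .p i φ, v => ∃ b : ℕ → ℕ, b i = v 0 ∧ φ.Sat S b

/-- the `Lx L`-structure of an `L`-structure -/
@[instance_reducible]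
def xp {L : FirstOrder.Language.{0, 0}} (S : L.Structure ℕ) : (Lx L).Structure ℕ where
  funMap := fun {_} f _ => Empty.elim f
  RelMap := fun {_} r v => xr S r v

/-- the atomic formula `R (x_0, …, x_(n-1))` -/
def ar {L : FirstOrder.Language.{0, 0}} {n : ℕ} (R : L.Relations n) : L.BoundedFormula Empty n :=
  R.boundedFormula fun k => &k

/-- the formula `t (x_0, …, x_(n-1)) = x_n` -/
def gt {L : FirstOrder.Language.{0, 0}} {n : ℕ} (t : L.Term (Empty ⊕ Fin n)) :
    L.BoundedFormula Empty (n + 1) :=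
  (t.relabel (Sum.map id Fin.castSucc)).bdEqual (&(Fin.last n))

/-- the formula `F (x_0, …, x_(n-1)) = x_n` -/
def gf {L : FirstOrder.Language.{0, 0}} {n : ℕ} (F : L.Functions n) : L.BoundedFormula Empty (n + 1) :=
  gt (Term.func F fun k => &k)

theorem ar_qf {L : FirstOrder.Language.{0, 0}} {n : ℕ} (R : L.Relations n) : (ar R).IsQF :=
  (BoundedFormula.IsAtomic.rel _ _).isQF

theorem gt_qf {L : FirstOrder.Language.{0, 0}} {n : ℕ} (t : L.Term (Empty ⊕ Fin n)) : (gt t).IsQF :=
  (BoundedFormula.IsAtomic.equal _ _).isQF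

theorem gf_qf {L : FirstOrder.Language.{0, 0}} {n : ℕ} (F : L.Functions n) : (gf F).IsQF := gt_qf _

open Classical in
/-- the `L`-structure of an `Lx L`-structure -/
@[instance_reducible]
noncomputable def rd {L : FirstOrder.Language.{0, 0}} (S' : (Lx L).Structure ℕ) : L.Structure ℕ where
  funMap := fun {n} F v =>
    Classical.epsilon fun y : ℕ => S'.RelMap (Rl.q (gf F) (gf_qf F) : (Lx L).Relations (n + 1)) (Fin.snoc v y)
  RelMap := fun {n} R v => S'.RelMap (Rl.q (ar R) (ar_qf R) : (Lx L).Relations n) v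

/-! ### Unary functions -/

/-- three unary functions -/
inductive Fn3 : ℕ → Type
  | pr (k : Fin 3) : Fn3 1

/-- unary relations -/
inductive Rl3 (L : FirstOrder.Language.{0, 0}) : ℕ → Type
  | u (θ : L.BoundedFormula Empty 3) (h : θ.IsQF) : Rl3 L 1

/-- the language with three unary functions and unary relations -/
def L3 (L : FirstOrder.Language.{0, 0}) : FirstOrder.Language.{0, 0} := ⟨Fn3, Rl3 L⟩

/-- numbers as triples of numbers -/
noncomputable def tri : ℕ ≃ (Fin 3 → ℕ) := Classical.choice nonempty_equiv_of_countable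

/-- the structure of triples of an `L`-structure, functions -/
noncomputable def cf : {n : ℕ} → Fn3 n → (Fin n → ℕ) → ℕ
  | _, .pr k, v => tri.symm fun _ => tri (v 0) k

/-- the structure of triples of an `L`-structure, relations -/
def cr {L : FirstOrder.Language.{0, 0}} (S : L.Structure ℕ) : {n : ℕ} → Rl3 L n → (Fin n → ℕ) → Prop
  | _, .u θ _, v => @BoundedFormula.Realize L ℕ S Empty 3 θ default (tri (v 0))

/-- the structure of triples of an `L`-structure -/
@[instance_reducible]
noncomputable def cd {L : FirstOrder.Language.{0, 0}} (S : L.Structure ℕ) : (L3 L).Structure ℕ where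
  funMap := fun {_} f v => cf f v
  RelMap := fun {_} r v => cr S r v

/-- the functions of an `L3 L`-structure -/
def pj {L : FirstOrder.Language.{0, 0}} (N : (L3 L).Structure ℕ) (k : Fin 3) (t : ℕ) : ℕ :=
  N.funMap (Fn3.pr k : (L3 L).Functions 1) fun _ => t

/-- the relations of an `L3 L`-structure -/
def uu {L : FirstOrder.Language.{0, 0}} (N : (L3 L).Structure ℕ) (θ : L.BoundedFormula Empty 3)
    (h : θ.IsQF) (t : ℕ) : Prop :=
  N.RelMap (Rl3.u θ h : (L3 L).Relations 1) fun _ => t

/-- the atomic formula `R (x_(ρ 0), …)` with three variables -/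
def ao {L : FirstOrder.Language.{0, 0}} {n : ℕ} (R : L.Relations n) (ρ : Fin n → Fin 3) :
    L.BoundedFormula Empty 3 :=
  R.boundedFormula fun k => &(ρ k)

theorem ao_qf {L : FirstOrder.Language.{0, 0}} {n : ℕ} (R : L.Relations n) (ρ : Fin n → Fin 3) :
    (ao R ρ).IsQF :=
  (BoundedFormula.IsAtomic.rel _ _).isQF

/-- Code structures: `L3 L`-structures isomorphic to some `cd S`. -/
structure Cds {L : FirstOrder.Language.{0, 0}} (N : (L3 L).Structure ℕ) : Prop where
  pp : ∀ i j t, pj N j (pj N i t) = pj N i t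
  inj : ∀ s t, (∀ k, pj N k s = pj N k t) → s = t
  two : ∀ s z, ∃ t, pj N 0 t = pj N 0 s ∧ pj N 1 t = pj N 0 z
  tre : ∀ s z, ∃ t, pj N 0 t = pj N 0 s ∧ pj N 1 t = pj N 1 s ∧ pj N 2 t = pj N 0 z
  bot : ∀ t, ¬ uu N ⊥ BoundedFormula.isQF_bot t
  imp : ∀ (θ θ' : L.BoundedFormula Empty 3) (h : θ.IsQF) (h' : θ'.IsQF) (h'' : (θ.imp θ').IsQF) (t : ℕ),
    uu N (θ.imp θ') h'' t ↔ (uu N θ h t → uu N θ' h' t)
  eq : ∀ (i j : Fin 3) (h : ((&i : L.Term (Empty ⊕ Fin 3)).bdEqual &j).IsQF) (t : ℕ),
    uu N ((&i : L.Term (Empty ⊕ Fin 3)).bdEqual &j) h t ↔ pj N i t = pj N j t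
  rel : ∀ (n : ℕ) (R : L.Relations n) (ρ ρ' : Fin n → Fin 3) (s t : ℕ),
    (∀ k, pj N (ρ k) t = pj N (ρ' k) s) → (uu N (ao R ρ) (ao_qf R ρ) t ↔ uu N (ao R ρ') (ao_qf R ρ') s)

/-- the diagonal elements, enumerated -/
noncomputable def dg {L : FirstOrder.Language.{0, 0}} (N : (L3 L).Structure ℕ) (i : ℕ) : ℕ :=
  Nat.nth (fun u => pj N 0 u = u) i

/-- the `L`-structure of a code structure (`L` relational) -/
@[instance_reducible]
noncomputable def gs {L : FirstOrder.Language.{0, 0}} (hF : ∀ n, IsEmpty (L.Functions n))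
    (N : (L3 L).Structure ℕ) : L.Structure ℕ where
  funMap := fun {n} F _ => (hF n).elim F
  RelMap := fun {n} R v => ∃ (ρ : Fin n → Fin 3) (t : ℕ),
    (∀ k, pj N (ρ k) t = dg N (v k)) ∧ uu N (ao R ρ) (ao_qf R ρ) t

end Pool.Agent.VOD
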