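import Pool.Agent.VOD.StA

/-!
# VOD [GSM]: the structure of a model is a model of `T`
-/

set_option autoImplicit false

namespace Pool.Agent.VOD

open FirstOrder Set VPF
open FirstOrder.Language
open Pool.Agent.EAE (EAEA)

/-- the vector of three numbers, as it appears in the semantics of quantifiers -/
private def GSM_v (x y z : ℕ) : Fin 3 → ℕ :=
  Fin.snoc (Fin.snoc (Fin.snoc (default : Fin 0 → ℕ) x : Fin 1 → ℕ) y : Fin 2 → ℕ) z

private theorem GSM_v0 (x y z : ℕ) : GSM_v x y z 0 = x := rfl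

private theorem GSM_v1 (x y z : ℕ) : GSM_v x y z 1 = y := rfl

private theorem GSM_v2 (x y z : ℕ) : GSM_v x y z 2 = z := rfl

private theorem GSM_cast {L : FirstOrder.Language.{0, 0}} (S : L.Structure ℕ) {n : ℕ}
    (θ : L.BoundedFormula Empty n) (v v' : Empty → ℕ) (xs : Fin n → ℕ)
    (h : @BoundedFormula.Realize L ℕ S Empty n θ v xs) :
    @BoundedFormula.Realize L ℕ S Empty n θ v' xs := by
  rw [Subsingleton.elim v' v]
  exact h

private theorem GSM_all {L : FirstOrder.Language.{0, 0}} (S : L.Structure ℕ)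
    (θ : L.BoundedFormula Empty 3) :
    @Sentence.Realize L ℕ S (θ.all.all.all) ↔
      ∀ x y z, @BoundedFormula.Realize L ℕ S Empty 3 θ default (GSM_v x y z) := by
  let _ := S
  constructor
  · intro h x y z
    exact GSM_cast S θ _ _ _ (h x y z)
  · intro h x y z
    exact GSM_cast S θ _ _ _ (h x y z)

private theorem GSM_ex {L : FirstOrder.Language.{0, 0}} (S : L.Structure ℕ)
    (θ : L.BoundedFormula Empty 3) :
    @Sentence.Realize L ℕ S (θ.ex.all.all) ↔
      ∀ x y, ∃ z, @BoundedFormula.Realize L ℕ S Empty 3 θ default (GSM_v x y z) := by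
  let _ := S
  constructor
  · intro h x y
    have h1 := GSM_cast S (θ.ex) _ default _ (h x y)
    rw [BoundedFormula.realize_ex] at h1
    exact h1
  · intro h x y
    refine GSM_cast S (θ.ex) default _ _ ?_
    rw [BoundedFormula.realize_ex]
    exact h x y

/-- the two forms of the axioms -/
private theorem GSM_inv {L : FirstOrder.Language.{0, 0}} (φ : L.Sentence)
    (h : Pre [true, true, false] φ ∨ Pre [true, true, true] φ) :
    ∃ θ : L.BoundedFormula Empty 3, θ.IsQF ∧ (φ = θ.ex.all.all ∨ φ = θ.all.all.all) := by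
  rcases h with h | h
  · cases h with
    | all h =>
    cases h with
    | all h =>
    cases h with
    | ex h =>
    cases h with
    | qf h => exact ⟨_, h, Or.inl rfl⟩
  · cases h with
    | all h =>
    cases h with
    | all h =>
    cases h with
    | all h =>
    cases h with
    | qf h => exact ⟨_, h, Or.inr rfl⟩

private theorem GSM_model {L : FirstOrder.Language.{0, 0}} {T : L.Theory} {S : L.Structure ℕ}
    (h : S ∈ ModF T) {φ : L.Sentence} (hφ : φ ∈ T) : @Sentence.Realize L ℕ S φ := by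
  let _ := S
  have h1 : @Theory.Model L ℕ S T := h
  exact h1.realize_of_mem φ hφ

/-- values of the terms -/
private theorem GSM_qd_pj {L : FirstOrder.Language.{0, 0}} (hQDT : St_QDT) (k : Fin 3) {n : ℕ}
    (i j : Fin n) : QD (L3 L) n fun S v => pj S k (v i) = pj S k (v j) :=
  (hQDT (L3 L) n).1 (Term.func (Fn3.pr k : (L3 L).Functions 1) fun _ => &i)
    (Term.func (Fn3.pr k : (L3 L).Functions 1) fun _ => &j)

private theorem GSM_qd_uu {L : FirstOrder.Language.{0, 0}} (hQDT : St_QDT)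
    (θ : L.BoundedFormula Empty 3) (h : θ.IsQF) {n : ℕ} (i : Fin n) :
    QD (L3 L) n fun S v => uu S θ h (v i) :=
  (hQDT (L3 L) n).2.1 1 (Rl3.u θ h : (L3 L).Relations 1) fun _ => &i

theorem thm_GSM (hQDT : St_QDT) (hUNI : St_UNI) (hAEX : St_AEX) (hCDM : St_CDM) (hDGX : St_DGX)
    (hGSR : St_GSR) : St_GSM := by
  intro L hF D d1 d11 d10 d110 T hT N hN
  have hCd : Cds N := hCDM L hF D d1 d11 d110 (ModF T) N hN
  obtain ⟨-, -, hdiag, hval, hex⟩ := hDGX L N hCd
  show @Theory.Model L ℕ (gs hF N) T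
  refine @Theory.Model.mk L ℕ (gs hF N) T fun φ hφ => ?_
  obtain ⟨θ, hθ, rfl | rfl⟩ := GSM_inv φ (hT φ hφ)
  · rw [GSM_ex]
    have key := hAEX (L3 L) D (cd '' ModF T) 1
      (fun S v => pj S 0 (v 1) = pj S 0 (v 0) ∧ (pj S 1 (v 1) = pj S 1 (v 0) ∧ uu S θ hθ (v 1)))
      d10 ((hQDT (L3 L) 2).2.2.2.2.1 _ _ (GSM_qd_pj hQDT 0 1 0)
        ((hQDT (L3 L) 2).2.2.2.2.1 _ _ (GSM_qd_pj hQDT 1 1 0) (GSM_qd_uu hQDT θ hθ 1))) ?_ N hN
    · intro x y
      obtain ⟨t, ht⟩ := hex (GSM_v x y 0)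
      obtain ⟨v, hv0, h0, h1, h2⟩ := key t
      rw [hv0] at h0 h1
      obtain ⟨z, hz⟩ := hval (v 1) 2
      refine ⟨z, (hGSR L hF N hCd θ hθ (v 1) (GSM_v x y z) fun k => ?_).mp h2⟩
      fin_cases k
      · exact h0.trans (ht 0)
      · exact h1.trans (ht 1)
      · exact hz
    · rintro _ ⟨S, hS, rfl⟩ t
      have h3 := (GSM_ex S θ).mp (GSM_model hS hφ) (tri t 0) (tri t 1)
      obtain ⟨z, hz⟩ := h3
      refine ⟨![t, tri.symm (GSM_v (tri t 0) (tri t 1) z)], rfl, ?_, ?_, ?_⟩
      · show tri.symm (fun _ => tri (tri.symm (GSM_v (tri t 0) (tri t 1) z)) 0) =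
          tri.symm (fun _ => tri t 0)
        rw [Equiv.apply_symm_apply, GSM_v0]
      · show tri.symm (fun _ => tri (tri.symm (GSM_v (tri t 0) (tri t 1) z)) 1) =
          tri.symm (fun _ => tri t 1)
        rw [Equiv.apply_symm_apply, GSM_v1]
      · show @BoundedFormula.Realize L ℕ S Empty 3 θ default
          (tri (tri.symm (GSM_v (tri t 0) (tri t 1) z)))
        rw [Equiv.apply_symm_apply]
        exact hz
  · rw [GSM_all]
    have key := hUNI (L3 L) D (cd '' ModF T) 1 (fun S v => uu S θ hθ (v 0)) d1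
      (GSM_qd_uu hQDT θ hθ 0) ?_ N hN
    · intro x y z
      obtain ⟨t, ht⟩ := hex (GSM_v x y z)
      exact (hGSR L hF N hCd θ hθ t (GSM_v x y z) ht).mp (key fun _ => t)
    · rintro _ ⟨S, hS, rfl⟩ v
      have h3 := (GSM_all S θ).mp (GSM_model hS hφ) (tri (v 0) 0) (tri (v 0) 1) (tri (v 0) 2)
      show @BoundedFormula.Realize L ℕ S Empty 3 θ default (tri (v 0))
      have h4 : GSM_v (tri (v 0) 0) (tri (v 0) 1) (tri (v 0) 2) = tri (v 0) := by
        funext k
        fin_cases k <;> rfl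
      rw [h4] at h3
      exact h3

end Pool.Agent.VOD
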