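import Pool.Agent.VOD.Defs
import Pool.Agent.EAE.StC
import Pool.Agent.VPF.CodC

/-!
# VOD, statements (helper64), with proofs in the docstrings

Everything is elementary.  `C` is a class of structures, `TC D C` its theory of low prefixes; models of `TC D C` satisfy
the conditions of low prefix which hold in `C` (UNI, AEX, AAE).
-/

set_option autoImplicit false
set_option linter.unusedVariables false

namespace Pool.Agent.VOD

open FirstOrder Set VPF
open FirstOrder.Language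
open Pool.Agent.EAE (EAEA)

/-! ### A. Conditions of low prefix -/

/-- [QDT] quantifier-free definable relations: atoms with terms, Boolean combinations, finite conjunctions.
PROOF.  `BoundedFormula.IsQF` constructors (`IsAtomic.equal`, `IsAtomic.rel`, `.imp`, `falsum`), `realize_bdEqual`, `realize_rel`;
finite conjunctions: `BoundedFormula.iInf` (`IsQF` by induction on a list) or induction over the finite type (`Fintype.induction_empty_option` or
`Finite.induction_empty_option`). -/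
def St_QDT : Prop :=
  ∀ (R : FirstOrder.Language.{0, 0}) (n : ℕ),
    (∀ t t' : R.Term (Empty ⊕ Fin n), QD R n fun S v =>
      @Term.realize R ℕ S _ (Sum.elim default v) t = @Term.realize R ℕ S _ (Sum.elim default v) t') ∧
    (∀ (m : ℕ) (r : R.Relations m) (ts : Fin m → R.Term (Empty ⊕ Fin n)), QD R n fun S v =>
      S.RelMap r fun k => @Term.realize R ℕ S _ (Sum.elim default v) (ts k)) ∧
    QD R n (fun _ _ => False) ∧
    (∀ Φ Ψ, QD R n Φ → QD R n Ψ → QD R n fun S v => Φ S v → Ψ S v) ∧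
    (∀ Φ Ψ, QD R n Φ → QD R n Ψ → QD R n fun S v => Φ S v ∧ Ψ S v) ∧
    (∀ Φ Ψ, QD R n Φ → QD R n Ψ → QD R n fun S v => (Φ S v ↔ Ψ S v)) ∧
    (∀ Φ, QD R n Φ → QD R n fun S v => ¬ Φ S v) ∧
    ∀ (ι : Type) [Finite ι] (Φ : ι → R.Structure ℕ → (Fin n → ℕ) → Prop), (∀ i, QD R n (Φ i)) →
      QD R n fun S v => ∀ i, Φ i S v

/-- [UNI] universal conditions.
PROOF.  The sentence `χ.alls` has the prefix `replicate n true` (induction: for `Pre w φ`, `φ : BoundedFormula Empty n`: `Pre (replicate n true ++ w) φ.alls`),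
`BoundedFormula.realize_alls`; it is in `TC D C`. -/
def St_UNI : Prop :=
  ∀ (R : FirstOrder.Language.{0, 0}) (D : Set (List Bool)) (C : Set (R.Structure ℕ)) (n : ℕ)
    (Φ : R.Structure ℕ → (Fin n → ℕ) → Prop), List.replicate n true ∈ D → QD R n Φ → (∀ S ∈ C, ∀ v, Φ S v) →
    ∀ S ∈ ModF (TC D C), ∀ v, Φ S v

/-- [AEX] conditions `∀ ∃^m`.
PROOF.  By induction on `m`: for `φ : BoundedFormula Empty (1 + m)` with `Pre w φ` there is `ψ : BoundedFormula Empty 1`, `Pre (replicate m false ++ w) ψ`, true at `v` iff `φ` is true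
at some extension of `v` (`.ex`); then `ψ.all`. -/
def St_AEX : Prop :=
  ∀ (R : FirstOrder.Language.{0, 0}) (D : Set (List Bool)) (C : Set (R.Structure ℕ)) (m : ℕ)
    (Φ : R.Structure ℕ → (Fin (m + 1) → ℕ) → Prop), true :: List.replicate m false ∈ D → QD R (m + 1) Φ →
    (∀ S ∈ C, ∀ x, ∃ v, v 0 = x ∧ Φ S v) → ∀ S ∈ ModF (TC D C), ∀ x, ∃ v, v 0 = x ∧ Φ S v

/-- [AAE] conditions `∀ ∀ ∃`.
PROOF.  The sentence `χ.ex.all.all`. -/
def St_AAE : Prop :=
  ∀ (R : FirstOrder.Language.{0, 0}) (D : Set (List Bool)) (C : Set (R.Structure ℕ))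
    (Φ : R.Structure ℕ → (Fin 3 → ℕ) → Prop), [true, true, false] ∈ D → QD R 3 Φ →
    (∀ S ∈ C, ∀ x y, ∃ z, Φ S ![x, y, z]) → ∀ S ∈ ModF (TC D C), ∀ x y, ∃ z, Φ S ![x, y, z]

/-- [REV] the dichotomy for relational languages with theories of low prefix goes over to a class with a reduction. `X : K → K'` (as maps of all structures), `Y` back.
PROOF.  Dichotomy of `K'`.  (1) `g'` lists the isomorphism types of `K'`; for `n` let `g n ∈ K` with `X (g n) ≅ g' n` if there is one (else arbitrary).  For `S ∈ K`: `X S ≅ g' n` for some `n`,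
so `X (g n) ≅ X S` and `S ≅ g n` by `hX`.  (2) `f'`: `f = Y ∘ f'`; `Y (f' x) ≅ Y (f' y)` implies `f' x ≅ f' y` by `hY`. -/
def St_REV : Prop :=
  ∀ (L L' : FirstOrder.Language.{0, 0}) (K : Set (L.Structure ℕ)) (K' : Set (L'.Structure ℕ))
    (X : L.Structure ℕ → L'.Structure ℕ) (Y : L'.Structure ℕ → L.Structure ℕ), (∀ S ∈ K, X S ∈ K') → (∀ N ∈ K', Y N ∈ K) →
    (∀ S ∈ K, ∀ S' ∈ K, Nonempty (@FirstOrder.Language.Equiv L' ℕ ℕ (X S) (X S')) →
      Nonempty (@FirstOrder.Language.Equiv L ℕ ℕ S S')) →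
    (∀ N ∈ K', ∀ N' ∈ K', Nonempty (@FirstOrder.Language.Equiv L ℕ ℕ (Y N) (Y N')) →
      Nonempty (@FirstOrder.Language.Equiv L' ℕ ℕ N N')) →
    (∀ f : (ℕ → Bool) → L'.Structure ℕ, (∀ x, f x ∈ K') →
      (∀ (n : ℕ) (R : L'.Relations n) (a : Fin n → ℕ), IsClopen {x : ℕ → Bool | (f x).RelMap R a}) →
      (∀ (n : ℕ) (F : L'.Functions n) (a : Fin n → ℕ) (b : ℕ), IsOpen {x : ℕ → Bool | (f x).funMap F a = b}) →
      (∀ (n : ℕ) (R : L.Relations n) (a : Fin n → ℕ), IsClopen {x : ℕ → Bool | (Y (f x)).RelMap R a}) ∧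
      (∀ (n : ℕ) (F : L.Functions n) (a : Fin n → ℕ) (b : ℕ), IsOpen {x : ℕ → Bool | (Y (f x)).funMap F a = b})) →
    Dich K' → Dich K

/-! ### B. One-dimensional formulas, constants and unary functions: the positive theorem -/

/-- [RDX] `rd` is inverse to `xp`.
PROOF.  Relations: `ar R` is true at `v` iff `R v`.  Functions: `gf F` is true at `snoc v y` iff `y = F v`, so the `epsilon` is `F v`. -/
def St_RDX : Prop := ∀ (L : FirstOrder.Language.{0, 0}) (S : L.Structure ℕ), rd (xp S) = S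

/-- [TRM] terms.
HYPS: QDT, UNI, AEX.
PROOF.  Induction on `t`.  Write `[θ]` for the symbol `Rl.q θ _`.  Variable `x_i`: the condition `[gt x_i] (x̄, y) ↔ x_i = y` is universal and holds in all `xp S`: UNI (`QD` by QDT: `RelMap` with variables as terms).  `t = F (t_1, ..)` with `F` of arity `k ≤ 1`: UNI for
`∀ x̄, ȳ, z: (∀ j, [gt t_j] (x̄, y_j)) → ([gt t] (x̄, z) ↔ [gf F] (ȳ, z))` (`n + k + 1` variables), `y_j = t_j (v)` in `rd S'`.  So it remains: `[gf F] (ȳ, z) ↔ funMap F ȳ = z` in `rd S'`: at least one `z` with `[gf F] (ȳ, z)` (AEX with `m = 1` and the variables `x, z`, `ȳ = x` if `k = 1`,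
`ȳ` empty if `k = 0`), at most one (UNI), `Classical.epsilon_spec`.  All conditions hold in `xp S` by `realize` lemmas (`Term.realize_relabel`). -/
def St_TRM : Prop :=
  ∀ (L : FirstOrder.Language.{0, 0}), (∀ n, 2 ≤ n → IsEmpty (L.Functions n)) → ∀ (C : Set (L.Structure ℕ)),
    ∀ S' ∈ ModF (TC DE (xp '' C)), ∀ (n : ℕ) (t : L.Term (Empty ⊕ Fin n)) (v : Fin n → ℕ) (y : ℕ),
      (S'.RelMap (Rl.q (gt t) (gt_qf t) : (Lx L).Relations (n + 1)) (Fin.snoc v y : Fin (n + 1) → ℕ) ↔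
        @Term.realize L ℕ (rd S') _ (Sum.elim default v) t = y)

/-- [QFX] quantifier-free formulas.
HYPS: QDT, UNI, TRM.
PROOF.  Induction on `IsQF`.  `⊥`, `imp`: UNI for `[θ → θ'] (x̄) ↔ ([θ] (x̄) → [θ'] (x̄))`.  `t = t'`: UNI for `[gt t] (x̄, y) ∧ [gt t'] (x̄, z) → ([t = t'] (x̄) ↔ y = z)`, TRM.  `R (t_1, .., t_k)`: UNI for
`(∀ j, [gt t_j] (x̄, y_j)) → ([R (t_1, .., t_k)] (x̄) ↔ [ar R] (ȳ))`, TRM and the definition of `rd`. -/
def St_QFX : Prop :=
  ∀ (L : FirstOrder.Language.{0, 0}), (∀ n, 2 ≤ n → IsEmpty (L.Functions n)) → ∀ (C : Set (L.Structure ℕ)),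
    ∀ S' ∈ ModF (TC DE (xp '' C)), ∀ (n : ℕ) (θ : L.BoundedFormula Empty n) (h : θ.IsQF) (v : Fin n → ℕ),
      (S'.RelMap (Rl.q θ h : (Lx L).Relations n) v ↔ @BoundedFormula.Realize L ℕ (rd S') Empty n θ default v)

/-- [ODX] one-dimensional formulas.
HYPS: QDT, UNI, AEX, QFX.
PROOF.  For an `Lx L`-structure `S'` let `S2 φ a` be the truth where `ex i φ` is read as the symbol: `S2 (qf θ v) a = [θ] (a ∘ v)`, `S2 (imp φ ψ) a = (S2 φ a → S2 ψ a)`, `S2 (ex i φ) a = p_{i, φ} (a i)`.  `S2 φ a` depends only on `a j`, `j < N`, for `N` large,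
and for `ρ : ℕ → Fin m` the relation `S2 φ (v ∘ ρ)` of `v : Fin m → ℕ` is `QD` (induction on `φ`, QDT).  In `xp S`: `S2 φ a ↔ φ.Sat S a` (for `ex i φ`: `∃ b, b i = a i ∧ ..` is the definition).  Claim: for all `φ`, `a`: `S2 φ a ↔ φ.Sat (rd S') a`.
Induction: `qf`: QFX.  `ex i φ`: `p_{i, φ} (x) ↔ ∃ b, b i = x ∧ S2 φ b` in `S'`: `←`: UNI for `S2 φ (v ∘ ρ) → p_{i, φ} (v (ρ i))`, `ρ j = min j N`, `N ≥ i` large; `→`: AEX with `m = N + 1` for `p_{i, φ} (v 0) → v (ρ' i) = v 0 ∧ S2 φ (v ∘ ρ')`, `ρ' j = min j N + 1` (in `xp S`: if `p (x)` is false take `v` constant `x`).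
The claim for `ex i φ` and `a` constant is the statement, with QFX. -/
def St_ODX : Prop :=
  ∀ (L : FirstOrder.Language.{0, 0}), (∀ n, 2 ≤ n → IsEmpty (L.Functions n)) → ∀ (C : Set (L.Structure ℕ)),
    ∀ S' ∈ ModF (TC DE (xp '' C)), xp (rd S') = S'

/-- [MOD] the reduct is in the class.
HYPS: QDT, UNI, ODX.
PROOF.  Write `N = rd S'`, `xp N = S'` (ODX).  (1) `φ ∈ T`, `Pre w φ`, `EAEA w`: for `Pre w φ`, `φ : L.BoundedFormula Empty n`, there is `φ' : (Lx L).BoundedFormula Empty n` with `Pre w φ'` such that for all `S : L.Structure ℕ`, `v`: `φ'` is true at `v` in `xp S` iff `φ` is true at `v` in `S` (induction on `Pre`; quantifier-free `θ`: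
the atomic formula `[θ] (x_0, .., x_(n-1))`).  So `φ' ∈ TC DE (xp '' ModO T O)`, `φ'` is true in `S' = xp N`, `φ` in `N`.  (2) `φ ∈ O`: `φ.Sat S a` for all `a` in all `S` of the class.  `Sat` of `ex i φ` at `a` in `S` is the symbol `p_{i, φ} (a i)` in `xp S`; so for `φ = qf`, `imp`, `ex` as in ODX (`S2`): UNI for `S2 φ (v ∘ ρ)` (module ODX should export
`S2`, its `QD` and the equivalence with `Sat` as lemmas `S2_qd`, `S2_sat`, `S2_dep`). -/
def St_MOD : Prop :=
  ∀ (L : FirstOrder.Language.{0, 0}), (∀ n, 2 ≤ n → IsEmpty (L.Functions n)) → ∀ (T : L.Theory) (O : Set (Fo L)),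
    (∀ φ ∈ T, ∃ w, EAEA w ∧ Pre w φ) → ∀ S' ∈ ModF (TC DE (xp '' ModO T O)), rd S' ∈ ModO T O

/-- [CTX] `Lx L` is countable.
PROOF.  `L.BoundedFormula Empty n` is countable (`BoundedFormula.encoding`, `card_le`, or the instance used in `EAE/PFT.lean`).  `Fo L`: the set of formulas of depth `≤ d` is countable by induction on `d` (images of countable sets), the union over `d` is everything. -/
def St_CTX : Prop :=
  ∀ (L : FirstOrder.Language.{0, 0}), Countable L.Symbols → Countable (Lx L).Symbols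

/-- [POS] THE POSITIVE THEOREM.
HYPS: REV, RDX, ODX, MOD, CTX, `EAE.St_MAI`.
PROOF.  REV for `K = ModO T O`, `L' = Lx L`, `K' = ModF (TC DE (xp '' K))`, `X = xp`, `Y = rd`.  `xp S ∈ K'`: definition of `TC`.  `rd N ∈ K`: MOD.  An isomorphism `xp S ≅ xp S'` is one of `rd (xp S) = S` and `S'`: the relations `R` and the graphs of the functions are relations of `Lx L`
(a bijection `e` which preserves all `[ar R]`, `[gf F]`).  An isomorphism `e : N = rd S'`, `rd S''`: it preserves the truth of all `θ` (`Equiv.realize_boundedFormula`) and of all one-dimensional formulas (`Sat` under `e`: induction), so `xp (rd S') = S' ≅ S''` (ODX).  Continuity: `(rd (f x)).RelMap R a` is the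
fact `[ar R] (a)` of `f x`; `(rd (f x)).funMap F a = b` iff `[gf F] (snoc a b)` in `f x` (as `f x = xp (rd (f x))`).  Dichotomy of `K'`: `St_MAI` for `Lx L` (no functions), CTX. -/
def St_POS : Prop :=
  ∀ (L : FirstOrder.Language.{0, 0}), Countable L.Symbols → (∀ n, 2 ≤ n → IsEmpty (L.Functions n)) →
    ∀ (T : L.Theory) (O : Set (Fo L)), (∀ φ ∈ T, ∃ w, EAEA w ∧ Pre w φ) → Dich (ModO T O)

/-! ### C. Unary functions: the negative theorem -/

/-- [CDS] structures of triples are code structures.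
PROOF.  Directly: `pj (cd S) k t = tri.symm (fun _ => tri t k)`, `uu (cd S) θ h t = θ.Realize (tri t)`; `inj`: `tri` is injective; `two`, `tre`: `t = tri.symm ![..]`; `rel`: `realize_rel`. -/
def St_CDS : Prop :=
  ∀ (L : FirstOrder.Language.{0, 0}), (∀ n, IsEmpty (L.Functions n)) → ∀ S : L.Structure ℕ, Cds (cd S)

/-- [CDM] models of the theory are code structures.
HYPS: QDT, UNI, AAE, CDS.
PROOF.  `C = cd '' K`.  Each field of `Cds` is a condition `∀`, `∀ ∀` (UNI, `n = 1, 2`) or `∀ ∀ ∃` (AAE) which holds in `cd S` (CDS); `QD` by QDT: `pj N i (pj N j (v a))` is the value of a term. -/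
def St_CDM : Prop :=
  ∀ (L : FirstOrder.Language.{0, 0}), (∀ n, IsEmpty (L.Functions n)) → ∀ (D : Set (List Bool)), [true] ∈ D → [true, true] ∈ D →
    [true, true, false] ∈ D → ∀ (K : Set (L.Structure ℕ)), ∀ N ∈ ModF (TC D (cd '' K)), Cds N

/-- [DGX] the diagonal of a code structure.
PROOF.  `A = {u | pj N 0 u = u}`.  `pj N k t ∈ A` (`pp`), and `u ∈ A` implies `pj N k u = pj N k (pj N 0 u) = u`.  If `A` were finite, `t ↦ (k ↦ pj N k t)` would be an injective map (`inj`) from `ℕ` to the finite set of functions `Fin 3 → A`.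
So `A` is infinite: `Nat.nth_injective`, `Nat.range_nth_of_infinite`, `Nat.nth_mem_of_infinite`. -/
def St_DGX : Prop :=
  ∀ (L : FirstOrder.Language.{0, 0}) (N : (L3 L).Structure ℕ), Cds N →
    {u | pj N 0 u = u}.Infinite ∧ Function.Injective (dg N) ∧ (∀ i k, pj N k (dg N i) = dg N i) ∧
    (∀ t k, ∃ i, pj N k t = dg N i) ∧ ∀ v : Fin 3 → ℕ, ∃ t, ∀ k, pj N k t = dg N (v k)

/-- [GSR] truth of quantifier-free formulas.
HYPS: DGX.
PROOF.  Induction on `IsQF`; terms of `L` are variables (`Sum.inr i`, no functions).  `⊥`: `bot`; `imp`: `imp`; `x_i = x_j`: `eq`, `dg` injective.  `R (x_(ρ 0), ..) = ao R ρ`: `→`: definition of `gs` (with this `ρ`, `t`; `pj N (ρ k) t = dg N (v (ρ k))`); `←`: there are `ρ'`, `s` with `pj N (ρ' k) s = dg N (v (ρ k)) = pj N (ρ k) t` and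
`uu N (ao R ρ') s`; `rel`. -/
def St_GSR : Prop :=
  ∀ (L : FirstOrder.Language.{0, 0}) (hF : ∀ n, IsEmpty (L.Functions n)) (N : (L3 L).Structure ℕ), Cds N →
    ∀ (θ : L.BoundedFormula Empty 3) (h : θ.IsQF) (t : ℕ) (v : Fin 3 → ℕ), (∀ k, pj N k t = dg N (v k)) →
      (uu N θ h t ↔ @BoundedFormula.Realize L ℕ (gs hF N) Empty 3 θ default v)

/-- [GSM] the structure of a model is a model of `T`.
HYPS: QDT, UNI, AEX, CDM, DGX, GSR.
PROOF.  `φ ∈ T`.  Case prefix `∀ ∀ ∀`: `φ = θ.all.all.all` with `θ` quantifier-free (invert `Pre` three times).  In `cd S`, `S ∈ ModF T`: `uu θ t` for all `t`; UNI (`n = 1`): the same in `N`; DGX (last part), GSR: `θ` is true in `gs N` at all `v`.  Case `∀ ∀ ∃`: `φ = θ.ex.all.all`; in `cd S`: for all `t` there is `s` with `pj 0 s = pj 0 t`,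
`pj 1 s = pj 1 t`, `uu θ s`; AEX (`m = 1`): the same in `N`.  For `x, y`: `t` with `pj 0 t = dg x`, `pj 1 t = dg y`; `s`; `z` with `pj 2 s = dg z`; GSR. -/
def St_GSM : Prop :=
  ∀ (L : FirstOrder.Language.{0, 0}) (hF : ∀ n, IsEmpty (L.Functions n)) (D : Set (List Bool)), [true] ∈ D → [true, true] ∈ D →
    [true, false] ∈ D → [true, true, false] ∈ D → ∀ T : L.Theory, (∀ φ ∈ T, Pre [true, true, false] φ ∨ Pre [true, true, true] φ) →
    ∀ N ∈ ModF (TC D (cd '' ModF T)), gs hF N ∈ ModF T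

/-- [CDI] isomorphisms.
HYPS: DGX, GSR.
PROOF.  (1) `e : cd S ≅ cd S'` maps the diagonal `{tri.symm (fun _ => i)} = {u | pj 0 u = u}` to the diagonal: `e (tri.symm (fun _ => i)) = tri.symm (fun _ => σ i)` for a bijection `σ : ℕ ≃ ℕ`; `tri (e t) k = σ (tri t k)` (`e` preserves `pj k`); for `R` of arity `n ≤ 3` and `a : Fin n → ℕ` choose `ρ : Fin n → Fin 3` injective and `t` with `tri t (ρ k) = a k`:
`R a` in `S` iff `uu (ao R ρ) t` in `cd S` iff the same at `e t` in `cd S'` iff `R (σ ∘ a)` in `S'`.  (2) `e : gs N ≅ gs N'`: for `t` let `e' t` be the unique `t'` with `pj N' k t' = dg N' (e i_k)`, where `pj N k t = dg N i_k` (DGX: existence, `Cds.inj`: uniqueness); a bijection (the inverse comes from `e.symm`); it preserves `pj k` and, by GSR and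
`Equiv.realize_boundedFormula`, all `uu θ`. -/
def St_CDI : Prop :=
  ∀ (L : FirstOrder.Language.{0, 0}) (hF : ∀ n, IsEmpty (L.Functions n)), (∀ n, 4 ≤ n → IsEmpty (L.Relations n)) →
    (∀ S S' : L.Structure ℕ, Nonempty (@FirstOrder.Language.Equiv (L3 L) ℕ ℕ (cd S) (cd S')) →
      Nonempty (@FirstOrder.Language.Equiv L ℕ ℕ S S')) ∧
    ∀ N N' : (L3 L).Structure ℕ, Cds N → Cds N' → Nonempty (@FirstOrder.Language.Equiv L ℕ ℕ (gs hF N) (gs hF N')) →
      Nonempty (@FirstOrder.Language.Equiv (L3 L) ℕ ℕ N N')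

/-- [CDC] continuity.
HYPS: DGX.
PROOF.  (1) `{x | pj (f x) k t = b}` is open for all `b`, so clopen (the complement is the union over the other values).  (2) For `P x u := (pj (f x) 0 u = u)` the set `{x | Nat.count (P x) u = i}` is clopen (induction on `u`, `Nat.count_succ`), and `Nat.nth (P x) i = u` iff `P x u ∧ Nat.count (P x) u = i` (`P x` infinite, DGX): `{x | dg (f x) i = u}` is clopen.
(3) `{x | (gs (f x)).RelMap R a}` is a union of open sets (over `ρ`, `t`, the values `dg (f x) (a k)`): open.  The complement is `{x | ∃ ρ t, (∀ k, pj (f x) (ρ k) t = dg (f x) (a k)) ∧ ¬ uu (f x) (ao R ρ) t}` (by `rel`, and some `ρ, t` exist: arity `≤ 3`, DGX): open. -/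
def St_CDC : Prop :=
  ∀ (L : FirstOrder.Language.{0, 0}) (hF : ∀ n, IsEmpty (L.Functions n)), (∀ n, 4 ≤ n → IsEmpty (L.Relations n)) →
    ∀ f : (ℕ → Bool) → (L3 L).Structure ℕ, (∀ x, Cds (f x)) →
      (∀ (n : ℕ) (R : (L3 L).Relations n) (a : Fin n → ℕ), IsClopen {x : ℕ → Bool | (f x).RelMap R a}) →
      (∀ (n : ℕ) (F : (L3 L).Functions n) (a : Fin n → ℕ) (b : ℕ), IsOpen {x : ℕ → Bool | (f x).funMap F a = b}) →
      ∀ (n : ℕ) (R : L.Relations n) (a : Fin n → ℕ), IsClopen {x : ℕ → Bool | (gs hF (f x)).RelMap R a}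

/-- [NEG] THE NEGATIVE THEOREM: with unary functions and unary relations the prefix `∀ ∀ ∃` is as hard as the full conjecture.
HYPS: REV, CDM, GSM, CDI, CDC.
PROOF.  `VPF.thm_C` (`VPF/CodC.lean`) for `D' w := w = [∀∀∃] ∨ w = [∀∀∀]`: we need the dichotomy for `ModF T`, `T` a theory with axioms of these two prefixes in a relational language `L` with unary and binary symbols.  REV for `K = ModF T`, `K' = ModF (TC D (cd '' K))`, `X = cd`, `Y = gs hF`: `cd S ∈ K'` by definition of `TC`; GSM; CDI; CDC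
(`L` has no functions).  Dichotomy of `K'`: `H` for `L3 L` (countable) and `TC D ..`.  `Dich` for relational `L` gives `CtblK ∨ PerfK` (`VPF.CC.iso_of_equiv`, `VPF.CC.equiv_of_iso`, see `EAE/ResDraft.lean`, `dich_iff`). -/
def St_NEG : Prop :=
  ∀ D : Set (List Bool), [true] ∈ D → [true, true] ∈ D → [true, false] ∈ D → [true, true, false] ∈ D →
    (∀ L : FirstOrder.Language.{0, 0}, Countable L.Symbols → (∀ n, n ≠ 1 → IsEmpty (L.Functions n)) →
      (∀ n, n ≠ 1 → IsEmpty (L.Relations n)) → ∀ T : L.Theory, (∀ φ ∈ T, ∃ w ∈ D, Pre w φ) → Dich (ModF T)) →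
    ∀ (L : FirstOrder.Language.{0, 0}), Countable L.Symbols → ∀ T : L.Theory, Dich (ModF T)

end Pool.Agent.VOD
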