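import Pool.Agent.VOD.StA

/-!
# VOD, part D: functions of all arities; definitions and statements (helper64, ideas of helper97)

With at most one universal quantifier (`∃* ∀ ∃*`) the dichotomy holds in all languages: a union of copies of a model
over an elementary submodel, with arbitrary values of the functions for arguments in different copies, is a model.  With
functions of arity `2` the prefixes `∀ ∀` and `∀ ∃` are as hard as the full conjecture.
-/

set_option autoImplicit false
set_option linter.unusedVariables false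

namespace Pool.Agent.VOD

open FirstOrder Set VPF
open FirstOrder.Language
open Pool.Agent.EAE (EAEA Elm)

/-- the words `∃^m ∀^l ∃^n`, `l ≤ 1` -/
def EAE (w : List Bool) : Prop := ∃ m l n : ℕ, l ≤ 1 ∧
  w = List.replicate m false ++ (List.replicate l true ++ List.replicate n false)

/-! ### Copies of a structure over a subset -/

/-- countably many copies of `N` with the common part `B` -/
def Fus {N : Type} (B : Set N) : Type := {x : N × ℕ // x.1 ∈ B → x.2 = 0}

open Classical in
/-- the `i`-th copy -/
noncomputable def cp {N : Type} (B : Set N) (i : ℕ) (y : N) : Fus B :=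
  ⟨(y, if y ∈ B then 0 else i), fun h => if_pos h⟩

/-- in `SX` the copies are substructures -/
structure FS {L : FirstOrder.Language.{0, 0}} {N : Type} (SN : L.Structure N) (B : Set N)
    (SX : L.Structure (Fus B)) : Prop where
  fn : ∀ (i n : ℕ) (F : L.Functions n) (y : Fin n → N),
    SX.funMap F (fun k => cp B i (y k)) = cp B i (SN.funMap F y)
  rl : ∀ (i n : ℕ) (R : L.Relations n) (y : Fin n → N),
    SX.RelMap R (fun k => cp B i (y k)) ↔ SN.RelMap R y

/-- [FUX] the fusion exists, with arbitrary values `g` of the functions on tuples which are not in one copy.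
PROOF.  `cp B i y = cp B j y'` iff `y = y'` and (`y ∈ B` or `i = j`).  If `xs = cp B i ∘ y = cp B j ∘ y'` then `y = y'`, and `i = j` or all `y k ∈ B`; in the second case `F y ∈ B` (`Elm` for the formula `F (v) = z`), so `cp B i (F y) = cp B j (F y)`.
`funMap F xs` := `cp B i (F y)` if `xs = cp B i ∘ y` for some `i, y` (choice; for `n = 0` every `i` works and all values agree), else `g n F xs`; `RelMap R xs := ∃ i y, xs = cp B i ∘ y ∧ R y`. -/
def St_FUX : Prop :=
  ∀ (L : FirstOrder.Language.{0, 0}) (N : Type) (SN : L.Structure N) (B : Set N), @Elm L N SN B →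
    ∀ g : (n : ℕ) → L.Functions n → (Fin n → Fus B) → Fus B, ∃ SX : L.Structure (Fus B), FS SN B SX ∧
      ∀ (n : ℕ) (F : L.Functions n) (xs : Fin n → Fus B), (¬ ∃ (i : ℕ) (y : Fin n → N), xs = fun k => cp B i (y k)) →
        SX.funMap F xs = g n F xs

/-- [FUP] sentences `∃* ∀ ∃*` are preserved.
PROOF.  (0) Terms and quantifier-free formulas: `θ` is true in `SX` at `cp B i ∘ y` iff it is true in `N` at `y` (induction; `cp B i` is injective).  (1) `Pre (replicate n false) φ`: truth in `N` at `y` implies truth in `SX` at `cp B i ∘ y`: induction on `n`.  (2) One quantifier `∀` before: at `y` with values in `B`: for `x : Fus B`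
there is `i` with `x = cp B i (x.1)`; the entries `cp B j (y k)` are the same for all `j` (`y k ∈ B`).  (3) The quantifiers `∃^m` before: witnesses in `B` (`Elm`; variables renamed to `Fin _ ⊕ Unit`, compare `EAE/PRX.lean`), induction on `m`. -/
def St_FUP : Prop :=
  ∀ (L : FirstOrder.Language.{0, 0}) (N : Type) (SN : L.Structure N) (B : Set N), @Elm L N SN B →
    ∀ SX : L.Structure (Fus B), FS SN B SX → ∀ (φ : L.Sentence) (w : List Bool), Pre w φ → EAE w →
      @Sentence.Realize L N SN φ → @Sentence.Realize L (Fus B) SX φ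

/-- [FUB] perfectly many models from a function symbol of arity at least two.
HYPS: FUX, FUP.
PROOF.  `thm_PFT` (`EAE/PFT.lean`, import it), `P = 2`.  `b ∉ B`, `x_i = cp B i b` (different for different `i`).  For `S : Set ℕ` let `g n F xs` (used for the symbol `F` of arity `k ≥ 2` only) be: if `xs = (x_i, x_j, x_j, .., x_j)` (first entry `x_i`, all others `x_j`) with `j = i + 1`: `x_(i+2)`; with `j = i + 2`: `x_0` if `i ∈ S`, else
`x_1`; in all other cases `x_0`.  (`i`, `j` are determined by `xs`; a tuple containing `x_i`, `x_j`, `i ≠ j`, is not in one copy.)  FUX gives `X S`, a model of `T` by FUP, infinite (`x_i`).  Parameters `(x_0, x_1)`; terms `t_0, t_1` the variables, `t_(i+2) = F (t_i, t_(i+1), .., t_(i+1))` with value `x_(i+2)`;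
`bit i` := `F (t_i, t_(i+2), .., t_(i+2)) = t_0`, true iff `i ∈ S`. -/
def St_FUB : Prop :=
  ∀ (L : FirstOrder.Language.{0, 0}), Countable L.Symbols → ∀ (T : L.Theory), (∀ φ ∈ T, ∃ w, EAE w ∧ Pre w φ) →
    ∀ (k : ℕ), 2 ≤ k → ∀ F : L.Functions k, ∀ (N : Type) (SN : L.Structure N), @Theory.Model L N SN T →
      ∀ B : Set N, @Elm L N SN B → (∃ b, b ∉ B) → Pool.Agent.WOM.PerfT L T

/-- [FUM] a model with a proper elementary submodel.
PROOF.  `T` has a model `N` of cardinality `≥ ℵ₁` in `Type` (`Theory.exists_large_model_of_infinite_model`, or the ultrapower `WOM`/`ULT`, or a proper elementary extension of the given model); a countable elementary substructure `B` (downward Löwenheim, Skolem: `exists_elementarySubstructure_card_eq`), `Elm` from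
`ElementarySubstructure` (for formulas over a finite type `α ⊕ Unit`; compare `EAE`), `B ≠ N` by cardinality. -/
def St_FUM : Prop :=
  ∀ (L : FirstOrder.Language.{0, 0}), Countable L.Symbols → ∀ (T : L.Theory) (S : L.Structure ℕ), S ∈ ModF T →
    ∃ (N : Type) (SN : L.Structure N) (B : Set N), @Theory.Model L N SN T ∧ @Elm L N SN B ∧ ∃ b, b ∉ B

/-- [FUN] THE THEOREM for `∃* ∀ ∃*` in all languages.
HYPS: FUB, FUM, POS.
PROOF.  If all functions of `L` have arity `≤ 1`: POS with `O = ∅` (`EAE w` implies `EAEA w`, `k = 0`).  Otherwise there is `F` of arity `≥ 2`.  If `T` has no model on `ℕ`: the first alternative.  Otherwise FUM, FUB: `PerfT L T` is the second alternative. -/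
def St_FUN : Prop :=
  ∀ (L : FirstOrder.Language.{0, 0}), Countable L.Symbols → ∀ (T : L.Theory), (∀ φ ∈ T, ∃ w, EAE w ∧ Pre w φ) →
    Dich (ModF T)

/-! ### Binary functions: the negative theorem -/

/-- three unary and two binary functions -/
inductive Fn4 : ℕ → Type
  | pr (k : Fin 3) : Fn4 1
  | jn (b : Bool) : Fn4 2

/-- the language with three unary, two binary functions and unary relations -/
def L4 (L : FirstOrder.Language.{0, 0}) : FirstOrder.Language.{0, 0} := ⟨Fn4, Rl3 L⟩

/-- functions of the structure of triples: `jn true (s, t) = (s_0, s_1, t_0)`, `jn false (s, t) = (s_0, t_0, t_0)` -/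
noncomputable def cf4 : {n : ℕ} → Fn4 n → (Fin n → ℕ) → ℕ
  | _, .pr k, v => tri.symm fun _ => tri (v 0) k
  | _, .jn true, v => tri.symm ![tri (v 0) 0, tri (v 0) 1, tri (v 1) 0]
  | _, .jn false, v => tri.symm ![tri (v 0) 0, tri (v 1) 0, tri (v 1) 0]

/-- the structure of triples with the binary functions -/
@[instance_reducible]
noncomputable def cd4 {L : FirstOrder.Language.{0, 0}} (S : L.Structure ℕ) : (L4 L).Structure ℕ where
  funMap := fun {_} f v => cf4 f v
  RelMap := fun {_} r v => cr S r v

/-- the unary functions of an `L4 L`-structure -/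
def rf4 {L : FirstOrder.Language.{0, 0}} (N : (L4 L).Structure ℕ) : {n : ℕ} → Fn3 n → (Fin n → ℕ) → ℕ
  | _, .pr k, v => N.funMap (Fn4.pr k : (L4 L).Functions 1) v

/-- the reduct to `L3 L` -/
@[instance_reducible]
def rd4 {L : FirstOrder.Language.{0, 0}} (N : (L4 L).Structure ℕ) : (L3 L).Structure ℕ where
  funMap := fun {_} f v => rf4 N f v
  RelMap := fun {n} (r : Rl3 L n) v => N.RelMap (r : (L4 L).Relations n) v

/-- [CD4] models of the theory: code structures, and the binary functions are determined.
HYPS: QDT, UNI, CDS.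
PROOF.  As CDM (module `VOD/CDM.lean`) for `C = cd4 '' K`, `rd4 (cd4 S) = cd S` (`rfl` or funext), CDS.  `two`: `t = jn false (s, z)`, `tre`: `t = jn true (s, z)`; these and the last three pairs of equations are conditions `∀ ∀` (UNI, `n = 2`), values of terms. -/
def St_CD4 : Prop :=
  ∀ (L : FirstOrder.Language.{0, 0}), (∀ n, IsEmpty (L.Functions n)) → ∀ (D : Set (List Bool)), [true] ∈ D → [true, true] ∈ D →
    ∀ (K : Set (L.Structure ℕ)), ∀ N ∈ ModF (TC D (cd4 '' K)), Cds (rd4 N) ∧ ∀ s t : ℕ,
      (pj (rd4 N) 0 (N.funMap (Fn4.jn true : (L4 L).Functions 2) ![s, t]) = pj (rd4 N) 0 s ∧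
        pj (rd4 N) 1 (N.funMap (Fn4.jn true : (L4 L).Functions 2) ![s, t]) = pj (rd4 N) 1 s ∧
        pj (rd4 N) 2 (N.funMap (Fn4.jn true : (L4 L).Functions 2) ![s, t]) = pj (rd4 N) 0 t) ∧
      pj (rd4 N) 0 (N.funMap (Fn4.jn false : (L4 L).Functions 2) ![s, t]) = pj (rd4 N) 0 s ∧
        pj (rd4 N) 1 (N.funMap (Fn4.jn false : (L4 L).Functions 2) ![s, t]) = pj (rd4 N) 0 t ∧
        pj (rd4 N) 2 (N.funMap (Fn4.jn false : (L4 L).Functions 2) ![s, t]) = pj (rd4 N) 0 t

/-- [GS4] the structure of a model is a model of `T`.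
HYPS: QDT, UNI, AEX, CD4, DGX, GSR.
PROOF.  As GSM (module `VOD/GSM.lean`), with `cd4`, `rd4 N` instead of `cd`, `N`; `Cds (rd4 N)` is CD4; the prefixes used are `∀` and `∀ ∃`. -/
def St_GS4 : Prop :=
  ∀ (L : FirstOrder.Language.{0, 0}) (hF : ∀ n, IsEmpty (L.Functions n)) (D : Set (List Bool)), [true] ∈ D → [true, true] ∈ D →
    [true, false] ∈ D → ∀ T : L.Theory, (∀ φ ∈ T, Pre [true, true, false] φ ∨ Pre [true, true, true] φ) →
    ∀ N ∈ ModF (TC D (cd4 '' ModF T)), gs hF (rd4 N) ∈ ModF T

/-- [NE4] THE NEGATIVE THEOREM for binary functions: the prefixes `∀ ∀` and `∀ ∃` are as hard as the full conjecture.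
HYPS: REV, CD4, GS4, CDI, CDC.
PROOF.  As NEG (`VOD/NEG.lean`) with `X = cd4`, `Y = gs hF ∘ rd4`.  `cd4 S ≅ cd4 S'` implies `cd S ≅ cd S'` (reducts), so `S ≅ S'` (CDI).  `gs (rd4 N) ≅ gs (rd4 N')` implies `rd4 N ≅ rd4 N'` (CDI); such an isomorphism `σ` preserves the binary functions: `σ (jn b (s, t))` and `jn b (σ s, σ t)` have the same three values of `pj` (CD4), so they are
equal (`Cds.inj`).  Continuity: CDC for `x ↦ rd4 (f x)`.  `L4 L` is countable, functions of arity `1, 2`, relations of arity `1`. -/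
def St_NE4 : Prop :=
  ∀ D : Set (List Bool), [true] ∈ D → [true, true] ∈ D → [true, false] ∈ D →
    (∀ L : FirstOrder.Language.{0, 0}, Countable L.Symbols → (∀ n, n ≠ 1 → n ≠ 2 → IsEmpty (L.Functions n)) →
      (∀ n, n ≠ 1 → IsEmpty (L.Relations n)) → ∀ T : L.Theory, (∀ φ ∈ T, ∃ w ∈ D, Pre w φ) → Dich (ModF T)) →
    ∀ (L : FirstOrder.Language.{0, 0}), Countable L.Symbols → ∀ T : L.Theory, Dich (ModF T)

end Pool.Agent.VOD
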