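import Pool.Agent.VOD.StB
import Pool.Agent.VPF.ClsPad

/-!
# VOD, part E: constants for the prefixes `∃* ∀^k ∃*`, `k ≤ 2`; definitions and statements (helper64)

A constant `c` becomes a unary relation, `φ (c̄)` becomes `∃ z̄ (⋀ C_i (z_i) ∧ φ (z̄))`.
-/

set_option autoImplicit false
set_option linter.unusedVariables false

namespace Pool.Agent.VOD

open FirstOrder Set VPF
open FirstOrder.Language

/-- the words `∃^m ∀^k ∃^n`, `k ≤ 2` -/
def DG : Set (List Bool) := {w | Cls.W w}

/-- the relation symbols of `L` and a unary one for each constant -/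
inductive Rk (L : FirstOrder.Language.{0, 0}) : ℕ → Type
  | r {n : ℕ} (R : L.Relations n) : Rk L n
  | c (c : L.Functions 0) : Rk L 1

/-- the relational language -/
def Lk (L : FirstOrder.Language.{0, 0}) : FirstOrder.Language.{0, 0} := ⟨fun _ => Empty, Rk L⟩

/-- the relations of `kp S` -/
def kr {L : FirstOrder.Language.{0, 0}} (S : L.Structure ℕ) : {n : ℕ} → Rk L n → (Fin n → ℕ) → Prop
  | _, .r R, v => S.RelMap R v
  | _, .c c, v => v 0 = S.funMap c default

/-- the `Lk L`-structure of an `L`-structure -/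
@[instance_reducible]
def kp {L : FirstOrder.Language.{0, 0}} (S : L.Structure ℕ) : (Lk L).Structure ℕ where
  funMap := fun {_} f _ => Empty.elim f
  RelMap := fun {_} r v => kr S r v

open Classical in
/-- the constants of `kd N` -/
noncomputable def kf {L : FirstOrder.Language.{0, 0}} (N : (Lk L).Structure ℕ) :
    {n : ℕ} → L.Functions n → (Fin n → ℕ) → ℕ
  | 0, c, _ => Classical.epsilon fun x : ℕ => N.RelMap (Rk.c c : (Lk L).Relations 1) fun _ => x
  | _ + 1, _, _ => 0

/-- the `L`-structure of an `Lk L`-structure (`L` has only constants and relations) -/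
@[instance_reducible]
noncomputable def kd {L : FirstOrder.Language.{0, 0}} (N : (Lk L).Structure ℕ) : L.Structure ℕ where
  funMap := fun {_} f v => kf N f v
  RelMap := fun {n} R v => N.RelMap (Rk.r R : (Lk L).Relations n) v

/-- [KTR] translation of sentences.
PROOF.  (1) Every `φ` contains only finitely many constants: for a list (or `c : Fin m → L.Functions 0`) containing them define the translation `tr : L.BoundedFormula Empty n → (Lk L).BoundedFormula Empty (m + n)` (for all formulas, or prove by induction on `Pre` and `IsQF` the existence of a translation with the same prefix):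
the variable `x_j` becomes `x_(m + j)` (`Fin.natAdd m j`), the constant `c_i` becomes `x_i` (`Fin.castAdd n i`), `R` becomes `Rk.r R`; quantifiers stay (`m + (n + 1)` is `(m + n) + 1` by definition).  Terms of `L` are variables or constants.  For `S : L.Structure ℕ`, `ĉ i = S.funMap (c i) default`:
`tr φ` is true in `kp S` at `Fin.append ĉ v` iff `φ` is true in `S` at `v` (induction; `Fin.append ĉ (Fin.snoc v x) = Fin.snoc (Fin.append ĉ v) x`, `Fin.append_right_snoc` or by cases).  (2) To deal with a list which must contain the constants of both parts of an implication: prove the statement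
`∃ m₀ (c₀ : Fin m₀ → L.Functions 0), ∀ m (c : Fin m → L.Functions 0), range c₀ ⊆ range c → ∃ φ', Pre w φ' ∧ ..`.  (3) `n = 0`: `ψ = tr φ` with `m` variables.  For `Pre w ψ`, `ψ` with `m` variables: also `Pre w ψ'` with `ψ'` true at `z̄` iff `C_i (z_i)` for all `i` and `ψ` is true at `z̄` (induction on `Pre`: push the quantifier-free
conjunction of the `C_i (z_i)` inside; variables lifted: `castSucc`).  Then `m` quantifiers `∃`. -/
def St_KTR : Prop :=
  ∀ (L : FirstOrder.Language.{0, 0}), (∀ n, n ≠ 0 → IsEmpty (L.Functions n)) → ∀ (w : List Bool) (φ : L.Sentence), Pre w φ →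
    ∃ (m : ℕ) (φ' : (Lk L).Sentence), Pre (List.replicate m false ++ w) φ' ∧
      ∀ S : L.Structure ℕ, @Sentence.Realize (Lk L) ℕ (kp S) φ' ↔ @Sentence.Realize L ℕ S φ

/-- [KEA] conditions `∃ ∀`.
PROOF.  The sentence `χ.all.ex`. -/
def St_KEA : Prop :=
  ∀ (R : FirstOrder.Language.{0, 0}) (D : Set (List Bool)) (C : Set (R.Structure ℕ))
    (Φ : R.Structure ℕ → (Fin 2 → ℕ) → Prop), [false, true] ∈ D → QD R 2 Φ →
    (∀ S ∈ C, ∃ x, ∀ y, Φ S ![x, y]) → ∀ S ∈ ModF (TC D C), ∃ x, ∀ y, Φ S ![x, y]

/-- [KON] Vaught's conjecture for the prefixes `∃^m ∀^k ∃^n`, `k ≤ 2`, in languages with relations and constants.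
HYPS: REV, QDT, KTR, KEA.
PROOF.  REV for `X = kp`, `Y = kd`, `K = ModF T`, `K' = ModF (TC DG (kp '' K))`.  `kp (kd N) = N` for `N ∈ K'`: `∃ x ∀ y (C (y) ↔ y = x)` (KEA).  `kd N ∈ K`: for `φ ∈ T` the sentence `φ'` of KTR is in `TC DG ..`.  Dichotomy of `K'`: `VPF.Cls.pos`. -/
def St_KON : Prop :=
  ∀ (L : FirstOrder.Language.{0, 0}), Countable L.Symbols → (∀ n, n ≠ 0 → IsEmpty (L.Functions n)) →
    ∀ T : L.Theory, (∀ φ ∈ T, ∃ w, Cls.W w ∧ Pre w φ) → Dich (ModF T)

end Pool.Agent.VOD
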